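import Pool.Graph.R_pool_sql_team_seeded_3997aac3.Q111.EX.Fin
import Pool.Graph.R_pool_sql_team_seeded_3997aac3.Q257.AR.Cyc
import Pool.Graph.R_pool_sql_team_seeded_3997aac3.Q285.EX.Triv
import Pool.Graph.R_pool_sql_team_seeded_3997aac3.Q38.EX.NrmB

/-!
# The reciprocity law for homomorphisms of Galois groups to finite abelian groups
-/

set_option autoImplicit false
set_option linter.unusedSectionVars false
set_option linter.deprecated false

namespace Pool.Agent.H16.PW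

open NumberField IsDedekindDomain Pool.Agent.Q5.BR Pool.Agent.Q92.AR Pool.Agent.Q20.EX

section

variable {F M : Type} [Field F] [NumberField F] [Field M] [NumberField M] [Algebra F M]
  {A : Type} [CommGroup A]

/-- the Artin map followed by a homomorphism -/
noncomputable def artA (θ : (M ≃ₐ[F] M) →* A) : Dv F →+ Additive A :=
  Finsupp.liftAddHom fun v => (zmultiplesHom (Additive A)) (Additive.ofMul (θ (frob M v)))

theorem artA_single (θ : (M ≃ₐ[F] M) →* A) (v : HeightOneSpectrum (𝓞 F)) (k : ℤ) :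
    artA θ (Finsupp.single v k) = k • Additive.ofMul (θ (frob M v)) := by
  unfold artA
  rw [Finsupp.liftAddHom_apply_single]
  rfl

theorem artA_mul (θ θ' : (M ≃ₐ[F] M) →* A) (D : Dv F) :
    artA (θ * θ') D = artA θ D + artA θ' D := by
  have h : artA (θ * θ') = artA θ + artA θ' := by
    refine Finsupp.addHom_ext fun v k => ?_
    rw [AddMonoidHom.add_apply, artA_single, artA_single, artA_single, MonoidHom.mul_apply,
      ofMul_mul, smul_add]
  rw [h]
  rfl

theorem artA_one (D : Dv F) : artA (1 : (M ≃ₐ[F] M) →* A) D = 0 := by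
  have h : artA (1 : (M ≃ₐ[F] M) →* A) = (0 : Dv F →+ Additive A) := by
    refine Finsupp.addHom_ext fun v k => ?_
    rw [artA_single, AddMonoidHom.zero_apply, MonoidHom.one_apply, ofMul_one, smul_zero]
  rw [h]
  rfl

theorem artA_pow (θ : (M ≃ₐ[F] M) →* A) (n : ℕ) (D : Dv F) :
    artA (θ ^ n) D = n • artA θ D := by
  induction n with
  | zero => rw [pow_zero, artA_one, zero_smul]
  | succ n ih => rw [pow_succ, artA_mul, ih, succ_nsmul]

theorem art_comp (θ : (M ≃ₐ[F] M) →* A) (η : A →* ℂˣ) (D : Dv F) :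
    art (η.comp θ) D = Additive.ofMul (η (artA θ D).toMul) := by
  have h : art (η.comp θ) = (MonoidHom.toAdditive η).comp (artA θ) := by
    refine Finsupp.addHom_ext fun v k => ?_
    rw [art_single, AddMonoidHom.comp_apply, artA_single, map_zsmul]
    rfl
  rw [h]
  rfl

/-- the primes at which `θ` is ramified -/
def RamA (θ : (M ≃ₐ[F] M) →* A) : Set (HeightOneSpectrum (𝓞 F)) :=
  {v | ∃ w : HeightOneSpectrum (𝓞 M), w.under (𝓞 F) = v ∧ ∃ g : M ≃ₐ[F] M, Inert w g ∧ θ g ≠ 1}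

theorem un_mono {N N' : ℕ} (h : N' ∣ N) {x : Fˣ} (hx : Un N x) : Un N' x := by
  intro v hv
  refine hx v ?_
  obtain ⟨k, rfl⟩ := h
  rw [Nat.cast_mul]
  exact v.asIdeal.mul_mem_right _ hv

theorem val_mono (v : HeightOneSpectrum (𝓞 F)) {N N' : ℕ} (h : N' ∣ N) :
    v.valuation F (N : F) ≤ v.valuation F (N' : F) := by
  obtain ⟨k, rfl⟩ := h
  rw [Nat.cast_mul, map_mul]
  refine mul_le_of_le_one_right' ?_
  have h1 : v.valuation F ((k : 𝓞 F) : F) ≤ 1 := v.valuation_le_one (K := F) (k : 𝓞 F)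
  have e : ((k : 𝓞 F) : F) = (k : F) := map_natCast (algebraMap (𝓞 F) F) k
  rwa [e] at h1

theorem congAt_mono {N N' : ℕ} (h : N' ∣ N) {S S' : Set (HeightOneSpectrum (𝓞 F))} (hS : S' ⊆ S)
    {x : F} (hx : CongAt S N x) : CongAt S' N' x := by
  intro v hv hN'
  refine (hx v (hS hv) ?_).trans (val_mono v h)
  obtain ⟨k, rfl⟩ := h
  rw [Nat.cast_mul]
  exact v.asIdeal.mul_mem_right _ hN'

theorem exists_one [IsGalois F M] (ψ : (M ≃ₐ[F] M) →* ℂˣ) : ∃ N : ℕ, N ≠ 0 ∧ Ram F M N ∧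
    ∀ N', N ∣ N' → ∀ x : Fˣ, Un N' x → Pos (x : F) → CongAt (RamSet ψ) N' (x : F) →
      art ψ (prin x) = 0 := by
  obtain ⟨N, hN, hR, -, h⟩ := Pool.Agent.Q111.EX.trv2 Pool.Agent.Q38.EX.nrm
    Pool.Agent.Q285.EX.triv F M ψ
  refine ⟨N, hN, hR, fun N' hN' x h1 h2 h3 => h x (un_mono hN' h1) h2 ?_⟩
  rw [compl_compl]
  exact congAt_mono hN' subset_rfl h3

/-- a single modulus for finitely many homomorphisms -/
theorem exists_N [IsGalois F M] [Finite A] {ι : Type} [Finite ι] (θ : ι → ((M ≃ₐ[F] M) →* A)) {N₀ : ℕ}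
    (hN₀ : N₀ ≠ 0) : ∃ N : ℕ, N ≠ 0 ∧ N₀ ∣ N ∧ Ram F M N ∧
      ∀ i, ∀ x : Fˣ, Un N x → Pos (x : F) → CongAt (RamA (θ i)) N (x : F) →
        artA (θ i) (prin x) = 0 := by
  classical
  have : Fintype ι := Fintype.ofFinite ι
  have : Finite (A →* ℂˣ) := inferInstance
  have : Fintype (A →* ℂˣ) := Fintype.ofFinite _
  choose N hN hR h using fun (j : ι × (A →* ℂˣ)) => exists_one (j.2.comp (θ j.1))
  obtain ⟨N₁, hN₁, hR₁, -⟩ := exists_one (1 : (M ≃ₐ[F] M) →* ℂˣ)
  refine ⟨N₀ * N₁ * ∏ j, N j, mul_ne_zero (mul_ne_zero hN₀ hN₁) (Finset.prod_ne_zero_iff.2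
    fun j _ => hN j), dvd_mul_of_dvd_left (dvd_mul_right _ _) _,
    Pool.Agent.Q125.AR.Ram_mono (dvd_mul_of_dvd_left (dvd_mul_left _ _) _) hR₁,
    fun i x h1 h2 h3 => ?_⟩
  by_contra hne
  have hne' : (artA (θ i) (prin x)).toMul ≠ 1 := fun h => hne h
  obtain ⟨η, hη⟩ := CommGroup.exists_apply_ne_one_of_hasEnoughRootsOfUnity A ℂ hne'
  apply hη
  have h4 := h (i, η) _ (dvd_mul_of_dvd_right (Finset.dvd_prod_of_mem N (Finset.mem_univ (i, η))) _)
    x h1 h2 (congAt_mono dvd_rfl ?_ h3)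
  · rw [art_comp] at h4
    exact h4
  · rintro v ⟨w, hw, g, hg, hg2⟩
    exact ⟨w, hw, g, hg, fun h => hg2 (by rw [MonoidHom.comp_apply, h, map_one])⟩

/-- the Artin map followed by the cyclotomic character gives the norm -/
theorem artA_cyc {m : ℕ} [NeZero m] {ζ : M} (hζ : IsPrimitiveRoot ζ m) [IsGalois F M]
    (χ : (M ≃ₐ[F] M) →* (ZMod m)ˣ) (hχ : ∀ g : M ≃ₐ[F] M, g ζ = ζ ^ (χ g : ZMod m).val)
    {N : ℕ} (hmN : m ∣ N) (x : Fˣ) (hx : Un N x) (a : 𝓞 F) (ha : a ≠ 0) (hxa : (x : F) = a) :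
    ((artA χ (prin x)).toMul : ZMod m) = (Ideal.absNorm (Ideal.span {a}) : ZMod m) := by
  classical
  have h1 : artA χ (prin x) = ∑ v ∈ (prin x).support, (prin x) v • Additive.ofMul (χ (frob M v)) := by
    conv_lhs => rw [← Finsupp.sum_single (prin x)]
    rw [Finsupp.sum, map_sum]
    exact Finset.sum_congr rfl fun v _ => artA_single χ v _
  have h2 : ∀ v ∈ (prin x).support, (χ (frob M v) : ZMod m) = (Ideal.absNorm v.asIdeal : ZMod m) := by
    intro v hv
    have hmv : (m : 𝓞 F) ∉ v.asIdeal := by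
      intro hmv
      rw [Finsupp.mem_support_iff] at hv
      exact hv (Pool.Agent.Q125.AR.prin_eq_zero_of_valuation (un_mono hmN hx v hmv))
    have h3 := Pool.Agent.Q257.AR.frob_zeta hζ hmv (frob_spec (M := M) v)
    rw [hχ] at h3
    have hu : IsUnit ζ := hζ.isUnit (NeZero.ne m)
    have h4 : ((χ (frob M v) : ZMod m).val) ≡ Ideal.absNorm v.asIdeal [MOD m] := by
      have h6 : hu.unit ^ ((χ (frob M v) : ZMod m).val) = hu.unit ^ Ideal.absNorm v.asIdeal := by
        apply Units.ext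
        rw [Units.val_pow_eq_pow_val, Units.val_pow_eq_pow_val]
        exact h3
      have h7 : IsPrimitiveRoot hu.unit m := IsPrimitiveRoot.coe_units_iff.1 hζ
      rw [pow_eq_pow_iff_modEq, ← h7.eq_orderOf] at h6
      exact h6
    have h5 := (ZMod.natCast_eq_natCast_iff _ _ _).2 h4
    rwa [ZMod.natCast_zmod_val] at h5
  have h3 : ∀ v : HeightOneSpectrum (𝓞 F), (prin x) v = ((prin x v).toNat : ℤ) := by
    intro v
    rw [Pool.Agent.Q257.AR.prin_eq a ha x hxa v, Int.toNat_natCast]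
  rw [Pool.Agent.Q257.AR.absNorm_eq a ha x hxa, h1]
  push_cast
  rw [toMul_sum, Units.coe_prod]
  refine Finset.prod_congr rfl fun v hv => ?_
  conv_lhs => rw [h3 v, natCast_zsmul, toMul_nsmul, Units.val_pow_eq_pow_val]
  rw [toMul_ofMul, h2 v hv]

end

end Pool.Agent.H16.PW
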