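import Pool.Agent.H16.PW.Csq

/-!
# Parallel weights of the `ℓ`-adic characters and of the characters modulo `ℓ`
-/

set_option autoImplicit false
set_option linter.unusedSectionVars false
set_option linter.deprecated false
set_option linter.style.haveILetI false
set_option maxHeartbeats 4000000
set_option synthInstance.maxHeartbeats 400000

namespace Pool.Agent.H16.PW

open NumberField IsDedekindDomain Pool.Agent.W401.Cheb Pool.Agent.Y800 Pool.Agent.R390.SF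
open Pool.Agent.NH7.Sch (OO Inr)
open Pool.Agent.Y126.SH (chi)

variable {F : SubFld ℚ} [hF : FiniteDimensional ℚ F]

/-- the product of the conjugates of a unit -/
noncomputable def bet (f : (F →+* AlgebraicClosure ℚ) → ℕ) (u : (𝓞 F)ˣ) : OO ℚ :=
  ∏ τ : F →+* AlgebraicClosure ℚ, (er (K := ℚ) τ (u : 𝓞 F)) ^ (2 * f τ)

/-- **Parallel weights modulo `ℓ`.** -/
theorem par_res (hcm : ∀ L : SubFld ℚ, L ≤ F → ¬ IsCMField L) (c : ℕ) :
    ∃ B : ℕ, ∀ (ℓ : ℕ) [Fact ℓ.Prime], B < ℓ → ∀ (φ : F.fixingSubgroup →* (ZMod ℓ)ˣ),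
      Continuous (fun g => (φ g : ZMod ℓ)) → ∀ a : Ideal (𝓞 F) → ℕ, (∀ 𝔩, a 𝔩 ≤ c) →
      (∀ p : ℕ, p.Prime → ℓ ≠ p → ∀ P : Ideal ZBar, P.IsMaximal → (p : ZBar) ∈ P →
        ∀ τ : F.fixingSubgroup, InInertia P τ → φ τ = 1) →
      (∀ P : Ideal ZBar, P.IsMaximal → (ℓ : ZBar) ∈ P → ∀ τ : F.fixingSubgroup, InInertia P τ →
        φ τ * chik (PadicInt.toZMod (p := ℓ)) (τ : GQ) ^ a (P.under (𝓞 F)) = 1) →
      ∀ P Q : Ideal ZBar, P.IsMaximal → (ℓ : ZBar) ∈ P → Q.IsMaximal → (ℓ : ZBar) ∈ Q →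
        a (P.under (𝓞 F)) = a (Q.under (𝓞 F)) := by
  classical
  have h0 : ∀ f : (F →+* AlgebraicClosure ℚ) → Fin (c + 1), ∃ B : ℕ,
      (∀ u, bet (fun τ => (f τ : ℕ)) u = 1) ∨ ∃ u, ∀ ℓ : ℕ, ℓ.Prime → B < ℓ →
        ∀ P : Ideal (OO ℚ), P.IsMaximal → (ℓ : OO ℚ) ∈ P →
          bet (fun τ => (f τ : ℕ)) u - 1 ∉ P := by
    intro f
    by_cases h : ∀ u, bet (fun τ => (f τ : ℕ)) u = 1
    · exact ⟨0, Or.inl h⟩
    · push Not at h
      obtain ⟨u, hu⟩ := h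
      obtain ⟨B, hB⟩ := exists_bound (K := ℚ) (sub_ne_zero.2 hu)
      exact ⟨B, Or.inr ⟨u, hB⟩⟩
  choose B hB using h0
  refine ⟨Finset.univ.sup B, ?_⟩
  intro ℓ hℓ hlt φ hc a ha h1 h2 P Q hP hℓP hQ hℓQ
  let f : (F →+* AlgebraicClosure ℚ) → Fin (c + 1) := fun τ =>
    ⟨a (P.comap (er (K := ℚ) τ)), Nat.lt_succ_of_le (ha _)⟩
  have hφ : IsOpen (φ.ker : Set F.fixingSubgroup) := by
    have h3 : (φ.ker : Set F.fixingSubgroup) = (fun g => (φ g : ZMod ℓ)) ⁻¹' {1} := by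
      ext g
      rw [SetLike.mem_coe, MonoidHom.mem_ker, Set.mem_preimage, Set.mem_singleton_iff]
      exact ⟨fun h => by rw [h, Units.val_one], fun h => Units.ext h⟩
    rw [h3]
    exact (isOpen_discrete _).preimage hc
  have hrel : ∀ u : (𝓞 F)ˣ, Cg (K := ℚ) P ℓ (bet (fun τ => (f τ : ℕ)) u) 1 := fun u =>
    rel_chi one_pos (pow_one ℓ).symm (PadicInt.toZMod (p := ℓ)) φ hφ a h1 h2 hP hℓP u
  refine const_of_rel hcm a hP hℓP ?_ hP hℓP hQ hℓQ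
  rcases hB f with h | ⟨u, hu⟩
  · exact h
  · exfalso
    obtain ⟨s, b, hs, hsb⟩ := hrel u
    have h3 : s * (bet (fun τ => (f τ : ℕ)) u - 1) ∈ P := by
      rw [hsb]
      exact P.mul_mem_right _ hℓP
    rcases hP.isPrime.mem_or_mem h3 with h4 | h4
    · exact hs h4
    · exact hu ℓ hℓ.out (lt_of_le_of_lt (Finset.le_sup (Finset.mem_univ f)) hlt) P hP hℓP h4

section rat

variable {ℓ : ℕ} [hℓ : Fact ℓ.Prime]

/-- the values of a continuous character are units -/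
theorem norm_one {φ : F.fixingSubgroup →* ℚ_[ℓ]ˣ} (hc : Continuous fun g => (φ g : ℚ_[ℓ]))
    (g : F.fixingSubgroup) : ‖(φ g : ℚ_[ℓ])‖ = 1 := by
  obtain ⟨C, hC⟩ := (isCompact_range hc).isBounded.exists_norm_le
  have hle : ∀ g : F.fixingSubgroup, ‖(φ g : ℚ_[ℓ])‖ ≤ 1 := by
    intro g
    by_contra hcon
    push Not at hcon
    obtain ⟨k, hk⟩ := pow_unbounded_of_one_lt C hcon
    have h1 : ‖(φ (g ^ k) : ℚ_[ℓ])‖ ≤ C := hC _ ⟨g ^ k, rfl⟩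
    rw [map_pow, Units.val_pow_eq_pow_val, norm_pow] at h1
    linarith
  refine le_antisymm (hle g) ?_
  have h1 := hle g⁻¹
  rw [map_inv, Units.val_inv_eq_inv_val, norm_inv] at h1
  have h2 : 0 < ‖(φ g : ℚ_[ℓ])‖ := norm_pos_iff.2 (φ g).ne_zero
  exact (inv_le_one₀ h2).1 h1

/-- the character with values in the units of `ℤ_ℓ` -/
noncomputable def toInt (φ : F.fixingSubgroup →* ℚ_[ℓ]ˣ) (hc : Continuous fun g => (φ g : ℚ_[ℓ])) :
    F.fixingSubgroup →* ℤ_[ℓ]ˣ where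
  toFun g := PadicInt.mkUnits (u := (φ g : ℚ_[ℓ])) (norm_one hc g)
  map_one' := by
    apply Units.ext
    apply Subtype.ext
    show (φ 1 : ℚ_[ℓ]) = 1
    rw [map_one, Units.val_one]
  map_mul' g h := by
    apply Units.ext
    apply Subtype.ext
    show (φ (g * h) : ℚ_[ℓ]) = (φ g : ℚ_[ℓ]) * (φ h : ℚ_[ℓ])
    rw [map_mul, Units.val_mul]

theorem toInt_coe (φ : F.fixingSubgroup →* ℚ_[ℓ]ˣ) (hc : Continuous fun g => (φ g : ℚ_[ℓ]))
    (g : F.fixingSubgroup) : (((toInt φ hc g : ℤ_[ℓ]ˣ) : ℤ_[ℓ]) : ℚ_[ℓ]) = (φ g : ℚ_[ℓ]) := rfl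

/-- **Parallel weights of `ℓ`-adic characters.** -/
theorem par_rat (hcm : ∀ L : SubFld ℚ, L ≤ F → ¬ IsCMField L) (φ : F.fixingSubgroup →* ℚ_[ℓ]ˣ)
    (hc : Continuous (fun g => (φ g : ℚ_[ℓ]))) (a : Ideal (𝓞 F) → ℕ)
    (h1 : ∀ p : ℕ, p.Prime → ℓ ≠ p → ∀ P : Ideal ZBar, P.IsMaximal → (p : ZBar) ∈ P →
        ∀ τ : F.fixingSubgroup, InInertia P τ → φ τ = 1)
    (h2 : ∀ P : Ideal ZBar, P.IsMaximal → (ℓ : ZBar) ∈ P → ∀ τ : F.fixingSubgroup, InInertia P τ →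
        φ τ * chik (algebraMap ℤ_[ℓ] ℚ_[ℓ]) (τ : GQ) ^ a (P.under (𝓞 F)) = 1)
    {P Q : Ideal ZBar} (hP : P.IsMaximal) (hℓP : (ℓ : ZBar) ∈ P) (hQ : Q.IsMaximal)
    (hℓQ : (ℓ : ZBar) ∈ Q) : a (P.under (𝓞 F)) = a (Q.under (𝓞 F)) := by
  classical
  refine const_of_rel hcm a hP hℓP (fun u => ?_) hP hℓP hQ hℓQ
  refine eq_one_of_cg (K := ℚ) hP hℓ.out hℓP fun n hn => ?_
  have hne : NeZero (ℓ ^ n) := ⟨pow_ne_zero _ hℓ.out.ne_zero⟩
  let ψ : ℤ_[ℓ] →+* ZMod (ℓ ^ n) := PadicInt.toZModPow n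
  have hopen : IsOpen ((((Units.map (ψ : ℤ_[ℓ] →* ZMod (ℓ ^ n))).comp (toInt φ hc)).ker :
      Subgroup F.fixingSubgroup) : Set F.fixingSubgroup) := by
    have h3 : (fun g => (φ g : ℚ_[ℓ])) ⁻¹' (Metric.ball 1 ((ℓ : ℝ) ^ (-(n : ℤ) + 1))) ⊆
        ((((Units.map (ψ : ℤ_[ℓ] →* ZMod (ℓ ^ n))).comp (toInt φ hc)).ker :
          Subgroup F.fixingSubgroup) : Set F.fixingSubgroup) := by
      intro g hg
      rw [Set.mem_preimage, Metric.mem_ball, dist_eq_norm] at hg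
      rw [SetLike.mem_coe, MonoidHom.mem_ker, MonoidHom.comp_apply]
      apply Units.ext
      show ψ (toInt φ hc g : ℤ_[ℓ]) = 1
      have h4 : ‖(toInt φ hc g : ℤ_[ℓ]) - 1‖ < (ℓ : ℝ) ^ (-(n : ℤ) + 1) := hg
      rw [← PadicInt.norm_le_pow_iff_norm_lt_pow_add_one] at h4
      rw [PadicInt.norm_le_pow_iff_mem_span_pow, ← PadicInt.ker_toZModPow, RingHom.mem_ker, map_sub,
        map_one, sub_eq_zero] at h4
      exact h4
    have h5 : IsOpen ((fun g => (φ g : ℚ_[ℓ])) ⁻¹' (Metric.ball 1 ((ℓ : ℝ) ^ (-(n : ℤ) + 1)))) :=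
      Metric.isOpen_ball.preimage hc
    refine Subgroup.isOpen_of_mem_nhds _ (g := 1) (Filter.mem_of_superset (h5.mem_nhds ?_) h3)
    rw [Set.mem_preimage, map_one, Units.val_one]
    refine Metric.mem_ball_self ?_
    exact zpow_pos (by exact_mod_cast hℓ.out.pos) _
  exact rel_chi hn rfl ψ ((Units.map (ψ : ℤ_[ℓ] →* ZMod (ℓ ^ n))).comp (toInt φ hc)) hopen a
    (fun p hp hpℓ P hP hpP τ hτ => by
      rw [MonoidHom.comp_apply]
      have h3 : toInt φ hc τ = 1 := by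
        apply Units.ext
        apply Subtype.ext
        show (φ τ : ℚ_[ℓ]) = 1
        rw [h1 p hp hpℓ P hP hpP τ hτ, Units.val_one]
      rw [h3, map_one])
    (fun P hP hℓP τ hτ => by
      rw [MonoidHom.comp_apply, ← map_pow, ← map_mul]
      have h3 : toInt φ hc τ * chi ℓ (τ : GQ) ^ a (P.under (𝓞 F)) = 1 := by
        apply Units.ext
        apply Subtype.ext
        have h4 := congrArg Units.val (h2 P hP hℓP τ hτ)
        rw [Units.val_mul, Units.val_pow_eq_pow_val, Units.val_one] at h4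
        exact h4
      rw [h3, map_one]) hP hℓP u

end rat

end Pool.Agent.H16.PW
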