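import Pool.Agent.H16.PW.Prm
import Pool.Graph.R_pool_sql_team_seeded_3997aac3.Q20.EX.All

/-!
# Principal primes and the commutator subgroup
-/

set_option autoImplicit false
set_option linter.unusedSectionVars false
set_option linter.deprecated false
set_option maxHeartbeats 4000000
set_option synthInstance.maxHeartbeats 400000

namespace Pool.Agent.H16.PW

open NumberField IsDedekindDomain Pool.Agent.Q92.AR Pool.Agent.Q20.EX Pool.Agent.W401.Cheb
open Pool.Agent.NH7.Sch (OO Inr)

section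

variable {F : Type} [Field F] [NumberField F]

theorem mem_ray {N : ℕ} {D : Dv F} (hD : D ∈ RayD F N) : ∃ x ∈ Ray F N, prin x = D := by
  unfold RayD at hD
  induction hD using AddSubgroup.closure_induction with
  | mem D hD => exact hD
  | zero =>
    refine ⟨1, ⟨fun v _ => ?_, fun φ => ?_⟩, prin_one⟩
    · rw [Units.val_one, sub_self, map_zero]
      exact zero_le
    · rw [Units.val_one, map_one]
      exact one_pos
  | add D D' _ _ h h' =>
    obtain ⟨x, hx, rfl⟩ := h
    obtain ⟨y, hy, rfl⟩ := h'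
    refine ⟨x * y, ⟨fun v hv => ?_, fun φ => ?_⟩, prin_mul x y⟩
    · rw [Units.val_mul]
      exact cl_mul hv (hx.1 v hv) (hy.1 v hv)
    · rw [Units.val_mul, map_mul]
      exact mul_pos (hx.2 φ) (hy.2 φ)
  | neg D _ h =>
    obtain ⟨x, hx, rfl⟩ := h
    refine ⟨x⁻¹, ⟨fun v hv => ?_, fun φ => ?_⟩, prin_inv x⟩
    · have h1 := val_eq_one hv (hx.1 v hv)
      have e : ((x⁻¹ : Fˣ) : F) - 1 = -(((x : F) - 1) / (x : F)) := by
        rw [Units.val_inv_eq_inv_val]
        have : (x : F) ≠ 0 := x.ne_zero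
        field_simp
        ring
      rw [e, Valuation.map_neg, map_div₀, h1, div_one]
      exact hx.1 v hv
    · rw [Units.val_inv_eq_inv_val, map_inv₀]
      exact inv_pos.2 (hx.2 φ)

/-- **The ray class characters.** -/
theorem exists_chars {N : ℕ} (hN : N ≠ 0) : ∃ (ι : Type) (_ : Finite ι)
    (χ : ι → (Dv F →+ Additive ℂˣ)), (∀ i, ∀ x ∈ Ray F N, χ i (prin x) = 0) ∧
      ∀ D ∈ Pr F N, (∀ i, χ i D = 0) → D ∈ RayD F N := by
  classical
  let A : Type := (Pr F N) ⧸ (RayD F N).addSubgroupOf (Pr F N)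
  have hA : Finite A := by
    have h1 : ((RayD F N).addSubgroupOf (Pr F N)).index ≠ 0 :=
      Pool.Agent.Q92.AR.all_Fin F N hN
    have h2 : ((RayD F N).addSubgroupOf (Pr F N)).FiniteIndex := ⟨h1⟩
    exact AddSubgroup.finite_quotient_of_finiteIndex
  let π : Dv F →+ Pr F N :=
    { toFun := fun D => ⟨D.filter (fun v => (N : 𝓞 F) ∉ v.asIdeal), fun v hv => by
        rw [Finsupp.filter_apply, if_neg (by simpa using hv)]⟩
      map_zero' := by
        apply Subtype.ext
        exact Finsupp.filter_zero _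
      map_add' := fun D D' => by
        apply Subtype.ext
        exact Finsupp.filter_add }
  have hπ : ∀ D (hD : D ∈ Pr F N), π D = ⟨D, hD⟩ := by
    intro D hD
    apply Subtype.ext
    show D.filter _ = D
    rw [Finsupp.filter_eq_self_iff]
    intro v hv h
    exact hv (hD v h)
  let q : Dv F →+ A := (QuotientAddGroup.mk' _).comp π
  refine ⟨Multiplicative A →* ℂˣ, inferInstance, fun η => (MonoidHom.toAdditive η).comp
    (((AddEquiv.additiveMultiplicative A).symm : A →+ Additive (Multiplicative A)).comp q), ?_, ?_⟩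
  · intro η x hx
    have h1 : prin x ∈ Pr F N := fun v hv =>
      Pool.Agent.Q125.AR.prin_eq_zero_of_valuation (val_eq_one hv (hx.1 v hv))
    have h2 : q (prin x) = 0 := by
      show QuotientAddGroup.mk' _ (π (prin x)) = 0
      rw [hπ _ h1]
      refine (QuotientAddGroup.eq_zero_iff _).2 ?_
      exact AddSubgroup.subset_closure ⟨x, hx, rfl⟩
    rw [AddMonoidHom.comp_apply, AddMonoidHom.comp_apply, h2, map_zero, map_zero]
  · intro D hD h
    by_contra hne
    have h1 : q D ≠ 0 := by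
      intro h0
      apply hne
      have h2 : QuotientAddGroup.mk' ((RayD F N).addSubgroupOf (Pr F N)) (π D) = 0 := h0
      rw [hπ _ hD] at h2
      have h3 : (⟨D, hD⟩ : Pr F N) ∈ (RayD F N).addSubgroupOf (Pr F N) :=
        (QuotientAddGroup.eq_zero_iff _).1 h2
      exact h3
    have h2 : (Multiplicative.ofAdd (q D)) ≠ 1 := fun h => h1 (ofAdd_eq_one.1 h)
    obtain ⟨η, hη⟩ := CommGroup.exists_apply_ne_one_of_hasEnoughRootsOfUnity
      (Multiplicative A) ℂ h2
    exact hη (h η)

/-- divisibility and valuations -/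
theorem dvd_of_val {a b : 𝓞 F} (hb : b ≠ 0)
    (h : ∀ v : HeightOneSpectrum (𝓞 F), v.valuation F (a : F) ≤ v.valuation F (b : F)) : b ∣ a := by
  have hb0 : (b : F) ≠ 0 := by
    rw [Ne, RingOfIntegers.coe_eq_zero_iff]
    exact hb
  obtain ⟨c, hc⟩ := HeightOneSpectrum.mem_integers_of_valuation_le_one F ((a : F) / (b : F))
    (fun v => by
      rw [map_div₀]
      exact div_le_one_of_le₀ (h v) zero_le)
  refine ⟨c, ?_⟩
  apply RingOfIntegers.ext
  have h1 : ((b * c : 𝓞 F) : F) = (b : F) * (c : F) := rfl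
  rw [h1]
  have h2 : (c : F) = (a : F) / (b : F) := hc
  rw [h2]
  field_simp

/-- **Principal primes and characters of Galois groups.** -/
theorem exists_arts {N : ℕ} (hN : N ≠ 0) : ∃ (ι : Type) (_ : Finite ι)
    (M : ι → Type) (_ : ∀ i, Field (M i)) (_ : ∀ i, NumberField (M i)) (_ : ∀ i, Algebra F (M i))
    (_ : ∀ i, IsGalois F (M i)) (ψ : ∀ i, (M i ≃ₐ[F] M i) →* ℂˣ) (N' : ℕ), N' ≠ 0 ∧
    (∀ i, Ram F (M i) N') ∧ ∀ v : HeightOneSpectrum (𝓞 F), (N' : 𝓞 F) ∉ v.asIdeal →
      (∀ i, ψ i (frob (M i) v) = 1) →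
        ∃ β : 𝓞 F, Ideal.span {β} = v.asIdeal ∧ (N : 𝓞 F) ∣ β - 1 := by
  classical
  obtain ⟨ι, hι, χ, h1, h2⟩ := exists_chars (F := F) hN
  have : Fintype ι := Fintype.ofFinite ι
  choose M h3 h4 h5 h6 ψ N' h7 h8 h9 h10 using fun i =>
    all_EXI F N (χ i) hN (h1 i)
  refine ⟨ι, hι, M, h3, h4, h5, h6, ψ, N * ∏ i, N' i, mul_ne_zero hN
    (Finset.prod_ne_zero_iff.2 fun i _ => h7 i), fun i => ?_, fun v hv hψ => ?_⟩
  · exact Pool.Agent.Q125.AR.Ram_mono ((Finset.dvd_prod_of_mem _ (Finset.mem_univ i)).trans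
      (dvd_mul_left _ _)) (h9 i)
  have hvN : (N : 𝓞 F) ∉ v.asIdeal := by
    intro h
    apply hv
    rw [Nat.cast_mul]
    exact v.asIdeal.mul_mem_right _ h
  have h11 : ∀ K : ℕ, (K : 𝓞 F) ∉ v.asIdeal → Finsupp.single v (1 : ℤ) ∈ Pr F K := by
    intro K hK v' hv'
    refine Finsupp.single_eq_of_ne ?_
    rintro rfl
    exact hK hv'
  have h12 : Finsupp.single v (1 : ℤ) ∈ RayD F N := by
    refine h2 _ (h11 N hvN) fun i => ?_
    have hvi : (N' i : 𝓞 F) ∉ v.asIdeal := by
      intro h
      apply hv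
      obtain ⟨k, hk⟩ := (Finset.dvd_prod_of_mem N' (Finset.mem_univ i)).trans
        (dvd_mul_left (∏ i, N' i) N)
      rw [hk, Nat.cast_mul]
      exact v.asIdeal.mul_mem_right _ h
    rw [← h10 i _ (h11 _ hvi), art_single, hψ i, ofMul_one, smul_zero]
  obtain ⟨x, hx, hxD⟩ := mem_ray h12
  have hx1 : ∀ v' : HeightOneSpectrum (𝓞 F), v' ≠ v → v'.valuation F (x : F) = 1 := by
    intro v' hv'
    rw [Pool.Agent.Q125.AR.valuation_eq_exp, hxD, Finsupp.single_eq_of_ne hv', neg_zero,
      WithZero.exp_zero]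
  have hx2 : v.valuation F (x : F) = WithZero.exp (-1 : ℤ) := by
    rw [Pool.Agent.Q125.AR.valuation_eq_exp, hxD, Finsupp.single_eq_same]
  have hx3 : v.valuation F (x : F) < 1 := by
    rw [hx2, ← WithZero.exp_zero, WithZero.exp_lt_exp]
    omega
  obtain ⟨β, hβ⟩ := HeightOneSpectrum.mem_integers_of_valuation_le_one F (x : F) (fun v' => by
    by_cases h : v' = v
    · rw [h]
      exact hx3.le
    · exact (hx1 v' h).le)
  have hβx : (β : F) = x := hβ
  have hβ0 : β ≠ 0 := by
    rintro rfl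
    exact x.ne_zero hβx.symm
  refine ⟨β, le_antisymm ?_ fun y hy => ?_, ?_⟩
  · rw [Ideal.span_singleton_le_iff_mem, mem_iff, hβx]
    exact hx3
  · rw [Ideal.mem_span_singleton]
    refine dvd_of_val hβ0 fun v' => ?_
    rw [hβx]
    by_cases h : v' = v
    · subst h
      rw [hx2]
      rw [HeightOneSpectrum.valuation_of_algebraMap]
      have h13 := (v'.intValuation_le_pow_iff_mem y 1).2 (by rwa [pow_one])
      exact_mod_cast h13
    · rw [hx1 v' h]
      exact int_le v' y
  · have hN0 : (N : 𝓞 F) ≠ 0 := by exact_mod_cast hN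
    refine dvd_of_val hN0 fun v' => ?_
    have e1 : ((β - 1 : 𝓞 F) : F) = (x : F) - 1 := by
      rw [← hβx]
      rfl
    have e2 : ((N : 𝓞 F) : F) = (N : F) := map_natCast (algebraMap (𝓞 F) F) N
    by_cases h : (N : 𝓞 F) ∈ v'.asIdeal
    · rw [e1, e2]
      exact hx.1 v' h
    · have h13 : v'.valuation F ((N : 𝓞 F) : F) = 1 := by
        refine le_antisymm (int_le v' _) ?_
        by_contra hcon
        push Not at hcon
        exact h ((mem_iff v' _).2 hcon)
      rw [h13]
      exact int_le v' _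

end

section

variable {K : Type} [Field K] [NumberField K] {F : IntermediateField K (AlgebraicClosure K)}
  [NumberField F] [FiniteDimensional K F]

/-- **Restriction to an abstract extension.** -/
theorem exists_resM (M : Type) [Field M] [NumberField M] [Algebra F M] [IsGalois F M] :
    ∃ (j : M →+* AlgebraicClosure K) (r : F.fixingSubgroup →* (M ≃ₐ[F] M)),
      (∀ x : F, j (algebraMap F M x) = x) ∧ (∀ s x, j (r s x) = (s : GK K) (j x)) ∧
      IsOpen (r.ker : Set F.fixingSubgroup) := by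
  classical
  have hfd : FiniteDimensional F M := by
    have : IsScalarTower ℚ F M := IsScalarTower.of_algebraMap_eq' (Subsingleton.elim _ _)
    exact FiniteDimensional.right ℚ F M
  have hAC : IsAlgClosed (AlgebraicClosure K) := inferInstance
  let j : M →ₐ[F] AlgebraicClosure K := IsAlgClosed.lift
  let _ : Algebra M (AlgebraicClosure K) := j.toRingHom.toAlgebra
  have : IsScalarTower F M (AlgebraicClosure K) := IsScalarTower.of_algebraMap_eq' (by
    apply RingHom.ext
    intro x
    exact (j.commutes x).symm)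
  let e : F.fixingSubgroup ≃* (AlgebraicClosure K ≃ₐ[F] AlgebraicClosure K) :=
    IntermediateField.fixingSubgroupEquiv F
  let r : F.fixingSubgroup →* (M ≃ₐ[F] M) :=
    (AlgEquiv.restrictNormalHom (F := F) (K₁ := AlgebraicClosure K) M).comp e.toMonoidHom
  have hr : ∀ s x, j (r s x) = (s : GK K) (j x) := by
    intro s x
    exact AlgEquiv.restrictNormal_commutes (e s) M x
  refine ⟨j, r, fun x => j.commutes x, hr, ?_⟩
  let b := Module.finBasis F M
  have hopen : ∀ i, IsOpen ((IntermediateField.adjoin K {j (b i)}).fixingSubgroup :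
      Set (GK K)) := by
    intro i
    have hL : FiniteDimensional K (IntermediateField.adjoin K {j (b i)}) :=
      IntermediateField.adjoin.finiteDimensional (Algebra.IsIntegral.isIntegral (R := K) (j (b i)))
    exact IntermediateField.fixingSubgroup_isOpen _
  have h1 : IsOpen (((⨅ i, (IntermediateField.adjoin K {j (b i)}).fixingSubgroup :
      Subgroup (GK K)) : Set (GK K))) := by
    rw [Subgroup.coe_iInf]
    exact isOpen_iInter_of_finite hopen
  have h2 : IsOpen (((⨅ i, (IntermediateField.adjoin K {j (b i)}).fixingSubgroup :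
      Subgroup (GK K)).subgroupOf F.fixingSubgroup : Set F.fixingSubgroup)) :=
    h1.preimage continuous_subtype_val
  refine Subgroup.isOpen_mono ?_ h2
  intro s hs
  rw [MonoidHom.mem_ker]
  have h3 : ∀ i, (s : GK K) (j (b i)) = j (b i) := by
    intro i
    have h4 := (Subgroup.mem_iInf.1 hs) i
    exact (IntermediateField.mem_fixingSubgroup_iff _ _).1 h4 _
      (IntermediateField.subset_adjoin K _ (Set.mem_singleton _))
  have h5 : ((r s : M ≃ₐ[F] M) : M →ₗ[F] M) = LinearMap.id := by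
    refine b.ext fun i => ?_
    apply j.injective
    show j (r s (b i)) = j (b i)
    rw [hr, h3]
  refine AlgEquiv.ext fun x => ?_
  exact LinearMap.congr_fun h5 x

/-- **Principal primes and the commutator subgroup.** -/
theorem exists_rc {N : ℕ} (hN : N ≠ 0) : ∃ U : Subgroup F.fixingSubgroup,
    IsOpen (U : Set F.fixingSubgroup) ∧ commutator F.fixingSubgroup ≤ U ∧ ∃ N' : ℕ, N' ≠ 0 ∧
    ∀ P : Ideal (OO K), P.IsMaximal → P.under (𝓞 F) ≠ ⊥ → (N' : OO K) ∉ P → ∀ s ∈ U,
      (∀ x : OO K, (s : GK K)⁻¹ • x - x ^ Ideal.absNorm (P.under (𝓞 F)) ∈ P) →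
      ∃ β : 𝓞 F, Ideal.span {β} = P.under (𝓞 F) ∧ (N : 𝓞 F) ∣ β - 1 := by
  classical
  obtain ⟨ι, hι, M, h1, h2, h3, h4, ψ, N', h5, h6, h7⟩ := exists_arts (F := F) hN
  choose j r h8 h9 h10 using fun i => exists_resM (K := K) (F := F) (M i)
  have hker : ∀ i, IsOpen ((((ψ i).comp (r i)).ker : Subgroup F.fixingSubgroup) :
      Set F.fixingSubgroup) := by
    intro i
    refine Subgroup.isOpen_mono (H₁ := (r i).ker) ?_ (h10 i)
    intro s hs
    rw [MonoidHom.mem_ker] at hs ⊢
    rw [MonoidHom.comp_apply, hs, map_one]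
  refine ⟨⨅ i, ((ψ i).comp (r i)).ker, ?_, ?_, N', h5, ?_⟩
  · rw [Subgroup.coe_iInf]
    exact isOpen_iInter_of_finite hker
  · refine le_iInf fun i => ?_
    exact Abelianization.commutator_subset_ker _
  · intro P hP h0 hN'P s hs hfr
    have hPp := hP.isPrime
    let v : HeightOneSpectrum (𝓞 F) := ⟨P.under (𝓞 F), Ideal.IsPrime.under _ _, h0⟩
    have hv : (N' : 𝓞 F) ∉ v.asIdeal := by
      intro h
      have h11 : algebraMap (𝓞 F) (OO K) (N' : 𝓞 F) ∈ P := h
      rw [map_natCast] at h11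
      exact hN'P h11
    obtain ⟨β, h11, h12⟩ := h7 v hv (fun i => by
      have hun : Unramified (M i) v := by
        by_contra h
        exact hv (h6 i v h)
      have h13 : IsFrobenius v (r i s⁻¹) :=
        isFrob_res (j i) (h8 i) (s := (s : GK K)⁻¹) (fun x => h9 i s⁻¹ x) hP (v := v) rfl hfr
      rw [Pool.Agent.Q125.AR.chi_frob hun (frob_spec (M := M i) v) h13 (ψ i)]
      have h14 := (Subgroup.mem_iInf.1 hs) i
      rw [MonoidHom.mem_ker, MonoidHom.comp_apply] at h14
      rw [map_inv, map_inv, h14, inv_one])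
    exact ⟨β, h11, h12⟩

end

end Pool.Agent.H16.PW
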