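import Pool.Agent.H16.PW.Pemb
import Pool.Agent.H16.PW.Rcl
import Pool.Agent.H16.PW.Prl

/-!
# Systems of rank two with infinitely many reducible reductions: the Frobenius elements
-/

set_option autoImplicit false
set_option linter.unusedSectionVars false
set_option linter.deprecated false
set_option linter.style.haveILetI false
set_option maxHeartbeats 4000000
set_option synthInstance.maxHeartbeats 400000

namespace Pool.Agent.H16.PW

open Module Polynomial NumberField IsDedekindDomain Pool.Agent.Y800 Pool.Agent.R390.SF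
open Pool.Agent.Y126.SH (chi)
open Pool.Agent.NH7.Sch (OO Inr)

section generic

variable {G : Type*} [Group G] {k : Type} [Field k] {n : ℕ}

/-- the eigenvalue of a stable line -/
theorem root_detChar (ρ : G →* GL (Fin n) k) (U : Submodule k (Fin n → k)) (hU : IsStable ρ U)
    (h1 : finrank k U = 1) (g : G) :
    ((ρ g : Matrix (Fin n) (Fin n) k).charpoly).eval (detChar ρ U hU g : k) = 0 := by
  obtain ⟨v, hv, hv'⟩ := finrank_eq_one_iff'.1 h1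
  obtain ⟨c, hc⟩ := hv' ((lin ρ g).restrict (hU g) v)
  have h2 : (lin ρ g).restrict (hU g) = c • LinearMap.id := by
    apply LinearMap.ext
    intro x
    obtain ⟨b, rfl⟩ := hv' x
    rw [map_smul, ← hc, LinearMap.smul_apply, LinearMap.id_apply, smul_comm]
  have h3 : (detChar ρ U hU g : k) = c := by
    rw [detChar_val, h2, LinearMap.det_smul, h1, pow_one, LinearMap.det_id, mul_one]
  rw [h3, ← charpoly_lin]
  have h4 : Module.End.HasEigenvalue (lin ρ g) c := by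
    refine Module.End.hasEigenvalue_of_hasEigenvector (x := (v : Fin n → k)) ⟨?_, ?_⟩
    · rw [Module.End.mem_eigenspace_iff]
      have := congrArg (Subtype.val) hc
      exact this.symm
    · intro h
      apply hv
      exact Subtype.ext h
  exact (Module.End.hasEigenvalue_iff_isRoot_charpoly _ _).1 h4

end generic

section

variable {F : SubFld ℚ} [hF : FiniteDimensional ℚ F]

theorem absNorm_one {p : ℕ} (hp : p.Prime) {P : Ideal ZBar} (hP : P.IsMaximal)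
    (hpP : (p : ZBar) ∈ P) {s : F.fixingSubgroup} (hs : IsGeomFrob p P s) :
    Ideal.absNorm (P.under (𝓞 F)) = p := by
  rw [Ideal.absNorm_apply, Submodule.cardQuot_apply]
  exact resCard_one hp hP hpP s.2 hs

theorem arith_of_geom {p : ℕ} {P : Ideal ZBar} {s : GQ} (hs : IsGeomFrob p P s) (x : ZBar) :
    s⁻¹ • x - x ^ p ∈ P := by
  have := hs (s⁻¹ • x)
  rwa [smul_inv_smul] at this

/-- the product of the conjugates -/
noncomputable def bt (m : (F →+* AlgebraicClosure ℚ) → ℕ) (β : 𝓞 F) : ZBar :=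
  ∏ τ : F →+* AlgebraicClosure ℚ, (er (K := ℚ) τ β) ^ (2 * m τ)

variable {ℓ : ℕ} [hℓ : Fact ℓ.Prime]

theorem rel_chi_prime (φ : F.fixingSubgroup →* (ZMod ℓ)ˣ)
    (hφ : IsOpen (φ.ker : Set F.fixingSubgroup)) (a : Ideal (𝓞 F) → ℕ)
    (h1 : ∀ p : ℕ, p.Prime → ℓ ≠ p → ∀ P : Ideal ZBar, P.IsMaximal → (p : ZBar) ∈ P →
      ∀ τ : F.fixingSubgroup, InInertia P τ → φ τ = 1)
    (h2 : ∀ P : Ideal ZBar, P.IsMaximal → (ℓ : ZBar) ∈ P → ∀ τ : F.fixingSubgroup, InInertia P τ →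
      φ τ * (Units.map ((PadicInt.toZMod : ℤ_[ℓ] →+* ZMod ℓ) : ℤ_[ℓ] →* ZMod ℓ) (chi ℓ (τ : GQ))) ^
        a (P.under (𝓞 F)) = 1)
    {P₀ : Ideal ZBar} (hP₀ : P₀.IsMaximal) (hℓP₀ : (ℓ : ZBar) ∈ P₀)
    {p : ℕ} (hp : p.Prime) (hpℓ : p ≠ ℓ)
    (hram : ∀ P : Ideal ZBar, P.IsMaximal → (p : ZBar) ∈ P → ∀ τ : GQ,
      InInertia P τ → τ ∈ F.fixingSubgroup)
    {P₁ : Ideal ZBar} (hP₁ : P₁.IsMaximal) (hpP₁ : (p : ZBar) ∈ P₁) (β : 𝓞 F)
    (hβ : Ideal.span {β} = P₁.under (𝓞 F)) (s : F.fixingSubgroup) (hs : IsGeomFrob p P₁ s) :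
    bt (fun τ => a (P₀.comap (er (K := ℚ) τ))) β -
      (((φ s : (ZMod ℓ)ˣ) : ZMod ℓ).val : ZBar) ^ 2 ∈ P₀ := by
  have key := rel_embed_prime (K := ℚ) (F := F) hℓ.out one_pos (pow_one ℓ).symm φ hφ
    ((Units.map ((PadicInt.toZMod : ℤ_[ℓ] →+* ZMod ℓ) : ℤ_[ℓ] →* ZMod ℓ)).comp (chi ℓ)) (fun g t ht => by
      have h3 := cyclotomicCharacter.spec ℓ (n := 1)
        (MulSemiringAction.toRingAut GQ (AlgebraicClosure ℚ) g) t (by rw [pow_one]; exact ht)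
      have h4 := psi_pow (pow_one ℓ).symm (PadicInt.toZMod : ℤ_[ℓ] →+* ZMod ℓ) (chi ℓ g : ℤ_[ℓ]) ht
      exact h3.trans h4.symm) a
    (fun P hP hℓP τ hτ => by
      obtain ⟨p, hp, hpP⟩ := Pool.Agent.Y126.SH.exists_prime_mem hP
      have hne : ℓ ≠ p := by
        rintro rfl
        exact hℓP hpP
      show Units.map ((PadicInt.toZMod : ℤ_[ℓ] →+* ZMod ℓ) : ℤ_[ℓ] →* ZMod ℓ) (chi ℓ τ) = 1
      rw [Pool.Agent.Y126.SH.chi_inertia hp hne hP hpP hτ, map_one])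
    (fun P hP hℓP τ hτ => by
      obtain ⟨p, hp, hpP⟩ := Pool.Agent.Y126.SH.exists_prime_mem hP
      have hne : ℓ ≠ p := by
        rintro rfl
        exact hℓP hpP
      exact h1 p hp hne P hP hpP τ hτ)
    (fun P hP hℓP τ hτ => h2 P hP hℓP τ hτ) hP₀ hℓP₀ hp hpℓ
    (fun P hP hpP τ hτ => hram P hP hpP τ hτ) hP₁ hpP₁ β hβ s (by
      intro x
      rw [absNorm_one hp hP₁ hpP₁ hs]
      exact arith_of_geom hs x)
  rw [prod_er (K := ℚ)] at key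
  obtain ⟨s', b, hs', hb⟩ := key
  have h3 : s' * (bt (fun τ => a (P₀.comap (er (K := ℚ) τ))) β -
      (((φ s : (ZMod ℓ)ˣ) : ZMod ℓ).val : ZBar) ^ 2) ∈ P₀ := by
    have h4 : s' * (bt (fun τ => a (P₀.comap (er (K := ℚ) τ))) β -
      (((φ s : (ZMod ℓ)ˣ) : ZMod ℓ).val : ZBar) ^ 2) = (ℓ : ZBar) * b := hb
    rw [h4]
    exact P₀.mul_mem_right _ hℓP₀
  rcases hP₀.isPrime.mem_or_mem h3 with h4 | h4
  · exact absurd h4 hs'
  · exact h4

end

section system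

variable {F : SubFld ℚ} [hF : FiniteDimensional ℚ F] {S : Finset ℕ} {w : ℕ}
  {T : IntegralSystem F 2}

/-- the value at `A` of the characteristic polynomial of the square of the Frobenius elements -/
noncomputable def sq2 (T : IntegralSystem F 2) (v : Ideal (𝓞 F)) (A : ZBar) : ZBar :=
  A ^ 2 - ((T.poly v).coeff 1 ^ 2 - 2 * (T.poly v).coeff 0 : ℤ) * A + ((T.poly v).coeff 0 ^ 2 : ℤ)

theorem poly_two {v : Ideal (𝓞 F)} (h1 : (T.poly v).Monic) (h2 : (T.poly v).natDegree = 2) :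
    T.poly v = X ^ 2 + C ((T.poly v).coeff 1) * X + C ((T.poly v).coeff 0) := by
  have h3 := (T.poly v).as_sum_range_C_mul_X_pow
  rw [h2, Finset.sum_range_succ, Finset.sum_range_succ, Finset.sum_range_succ,
    Finset.sum_range_zero, zero_add, pow_zero, mul_one, pow_one] at h3
  have h4 : (T.poly v).coeff 2 = 1 := by
    have := h1.coeff_natDegree
    rwa [h2] at this
  rw [h4, C_1, one_mul] at h3
  rw [h3]
  simp only [coeff_add, coeff_C_mul, coeff_X_pow, coeff_C, coeff_X]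
  simp
  ring

/-- infinitely many residual representations are reducible -/
def InfRed (T : IntegralSystem F 2) : Prop := ∀ B : ℕ, ∃ (ℓ : ℕ) (_ : Fact ℓ.Prime), B < ℓ ∧
  ∃ U : Submodule (ZMod ℓ) (Fin 2 → ZMod ℓ), IsStable (T.res ℓ) U ∧ finrank (ZMod ℓ) U = 1

theorem exists_m (hT : T.PureSystem S w) (h : InfRed T) :
    ∃ (m : (F →+* AlgebraicClosure ℚ) → ℕ) (R : Finset ℕ), ∀ p : ℕ, p.Prime → p ∉ R →
      ∀ P : Ideal ZBar, P.IsMaximal → (p : ZBar) ∈ P → ∀ s : F.fixingSubgroup, IsGeomFrob p P s →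
        ∀ β : 𝓞 F, Ideal.span {β} = P.under (𝓞 F) → sq2 T (P.under (𝓞 F)) (bt m β) = 0 := by
  classical
  obtain ⟨R, hR⟩ := exists_ram F
  obtain ⟨N, hN⟩ := hT.residualWeights
  have h1 : ∀ B : ℕ, ∃ (m : (F →+* AlgebraicClosure ℚ) → Fin (w * 2 + 1)) (ℓ : ℕ), ℓ.Prime ∧ B < ℓ ∧
      ∃ P₀ : Ideal ZBar, P₀.IsMaximal ∧ (ℓ : ZBar) ∈ P₀ ∧
      ∀ p : ℕ, p.Prime → p ≠ ℓ → p ∉ R ∪ S →
      ∀ P : Ideal ZBar, P.IsMaximal → (p : ZBar) ∈ P → ∀ s : F.fixingSubgroup, IsGeomFrob p P s →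
        ∀ β : 𝓞 F, Ideal.span {β} = P.under (𝓞 F) →
          sq2 T (P.under (𝓞 F)) (bt (fun τ => (m τ : ℕ)) β) ∈ P₀ := by
    intro B
    obtain ⟨ℓ, hℓ, hlt, U, hU, hU1⟩ := h (max B N)
    obtain ⟨P₀, _, hP₀, hℓP₀, _⟩ := exists_geom hℓ.out
    obtain ⟨a, ha1, ha2⟩ := exists_wt (PadicInt.toZMod (p := ℓ)) (hN ℓ (lt_of_le_of_lt
      (le_max_right _ _) hlt)) hU
    refine ⟨fun τ => ⟨a (P₀.comap (er (K := ℚ) τ)), Nat.lt_succ_of_le (ha1 _)⟩, ℓ, hℓ.out,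
      lt_of_le_of_lt (le_max_left _ _) hlt, P₀, hP₀, hℓP₀, ?_⟩
    intro p hp hpℓ hpR P hP hpP s hs β hβ
    rw [Finset.mem_union, not_or] at hpR
    set φ := detChar (rep (PadicInt.toZMod (p := ℓ)) T) U hU with hφdef
    have hc := continuous_detChar (PadicInt.toZMod (p := ℓ)) continuous_toZMod hT.toGoodSystem hU
    have hφ : IsOpen (φ.ker : Set F.fixingSubgroup) := by
      have h3 : (φ.ker : Set F.fixingSubgroup) = (fun g => (φ g : ZMod ℓ)) ⁻¹' {1} := by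
        ext g
        rw [SetLike.mem_coe, MonoidHom.mem_ker, Set.mem_preimage, Set.mem_singleton_iff]
        exact ⟨fun h => by rw [h, Units.val_one], fun h => Units.ext h⟩
      rw [h3]
      exact (isOpen_discrete _).preimage hc
    have h2 := rel_chi_prime φ hφ a (fun p hp hpℓ P hP hpP τ hτ =>
      det_inertia (PadicInt.toZMod (p := ℓ)) hT hU hp hpℓ hP hpP hτ) ha2 hP₀ hℓP₀ hp hpℓ
      (fun P hP hpP τ hτ => hR p hp hpR.1 P hP hpP τ hτ) hP hpP β hβ s hs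
    -- the eigenvalue
    have hm : (P.under (𝓞 F)).IsMaximal := Ideal.IsMaximal.under (𝓞 F) P
    have hpm : (p : 𝓞 F) ∈ P.under (𝓞 F) := by
      rw [mem_under, map_natCast]
      exact hpP
    have hgood := hT.good p hp hpR.2 _ hm hpm
    have h3 := root_detChar (rep (PadicInt.toZMod (p := ℓ)) T) U hU hU1 s
    rw [← charpoly_lin, charpoly_frob (PadicInt.toZMod (p := ℓ)) hT.toGoodSystem hp hpR.2
      (Ne.symm hpℓ) hP hpP hs, poly_two hgood.monic hgood.natDegree] at h3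
    rw [← hφdef] at h3
    set c1 := (T.poly (P.under (𝓞 F))).coeff 1 with hc1
    set c0 := (T.poly (P.under (𝓞 F))).coeff 0 with hc0
    set y := ((φ s : (ZMod ℓ)ˣ) : ZMod ℓ) with hy
    have h4 : y ^ 2 + (c1 : ZMod ℓ) * y + (c0 : ZMod ℓ) = 0 := by
      simpa using h3
    set A := bt (fun τ => a (P₀.comap (er (K := ℚ) τ))) β with hA
    have h5 : ((y.val : ℤ) : ZMod ℓ) = y := by
      rw [Int.cast_natCast, ZMod.natCast_zmod_val]
    have h6 : (((y.val : ℤ) ^ 4 - (c1 ^ 2 - 2 * c0) * (y.val : ℤ) ^ 2 + c0 ^ 2 : ℤ) : ZMod ℓ) = 0 := by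
      push_cast
      rw [ZMod.natCast_zmod_val]
      linear_combination (y ^ 2 - (c1 : ZMod ℓ) * y + (c0 : ZMod ℓ)) * h4
    rw [ZMod.intCast_zmod_eq_zero_iff_dvd] at h6
    obtain ⟨b, hb⟩ := h6
    have h7 := congrArg (Int.cast : ℤ → ZBar) hb
    have h8 : sq2 T (P.under (𝓞 F)) A = (A - (y.val : ZBar) ^ 2) *
        (A + (y.val : ZBar) ^ 2 - ((c1 ^ 2 - 2 * c0 : ℤ) : ZBar)) + (ℓ : ZBar) * (b : ZBar) := by
      unfold sq2
      push_cast at h7 ⊢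
      linear_combination h7
    have h9 : sq2 T (P.under (𝓞 F)) A ∈ P₀ := by
      rw [h8]
      exact P₀.add_mem (P₀.mul_mem_right _ h2) (P₀.mul_mem_right _ hℓP₀)
    exact h9
  have h2 : ∃ m : (F →+* AlgebraicClosure ℚ) → Fin (w * 2 + 1), ∀ B : ℕ, ∃ ℓ : ℕ, ℓ.Prime ∧ B < ℓ ∧
      ∃ P₀ : Ideal ZBar, P₀.IsMaximal ∧ (ℓ : ZBar) ∈ P₀ ∧
      ∀ p : ℕ, p.Prime → p ≠ ℓ → p ∉ R ∪ S →
      ∀ P : Ideal ZBar, P.IsMaximal → (p : ZBar) ∈ P → ∀ s : F.fixingSubgroup, IsGeomFrob p P s →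
        ∀ β : 𝓞 F, Ideal.span {β} = P.under (𝓞 F) →
          sq2 T (P.under (𝓞 F)) (bt (fun τ => (m τ : ℕ)) β) ∈ P₀ := by
    by_contra hcon
    push Not at hcon
    choose Bd hBd using hcon
    obtain ⟨m, ℓ, hℓ, hlt, P₀, hP₀, hℓP₀, h3⟩ := h1 (Finset.univ.sup Bd)
    obtain ⟨p, hp, hpℓ, hpR, P, hP, hpP, s, hs, β, hβ, hne⟩ := hBd m ℓ hℓ
      (lt_of_le_of_lt (Finset.le_sup (Finset.mem_univ m)) hlt) P₀ hP₀ hℓP₀
    exact hne (h3 p hp hpℓ hpR P hP hpP s hs β hβ)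
  obtain ⟨m, hm⟩ := h2
  refine ⟨fun τ => m τ, R ∪ S, ?_⟩
  intro p hp hpR P hP hpP s hs β hβ
  by_contra hne
  obtain ⟨B, hB⟩ := exists_bound (K := ℚ) hne
  obtain ⟨ℓ, hℓ, hlt, P₀, hP₀, hℓP₀, h3⟩ := hm (max B p)
  exact hB ℓ hℓ (lt_of_le_of_lt (le_max_left _ _) hlt) P₀ hP₀ hℓP₀
    (h3 p hp (lt_of_le_of_lt (le_max_right _ _) hlt).ne hpR P hP hpP s hs β hβ)

end system

end Pool.Agent.H16.PW
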