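import Pool.Agent.H16.PW.Cmf
import Pool.Graph.R_seed8.R390.SF.Fal

/-!
# Systems of rank two with infinitely many reducible reductions: the commutator subgroup
-/

set_option autoImplicit false
set_option linter.unusedSectionVars false
set_option linter.deprecated false
set_option linter.style.haveILetI false
set_option maxHeartbeats 4000000
set_option synthInstance.maxHeartbeats 400000

namespace Pool.Agent.H16.PW

open Module Polynomial NumberField IsDedekindDomain Pool.Agent.Y800 Pool.Agent.R390.SF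
open Pool.Agent.Y126.SH (chi)
open Pool.Agent.NH7.Sch (OO Inr)

section

/-- divisibility of integers in the ring of the algebraic integers -/
theorem int_dvd {N z : ℤ} {b : ZBar} (hN : N ≠ 0) (h : (z : ZBar) = N * b) : N ∣ z := by
  have h1 : (b : AlgebraicClosure ℚ) = algebraMap ℚ (AlgebraicClosure ℚ) ((z : ℚ) / (N : ℚ)) := by
    have h2 := congrArg (fun x : ZBar => (x : AlgebraicClosure ℚ)) h
    have h3 : (z : AlgebraicClosure ℚ) = (N : AlgebraicClosure ℚ) * (b : AlgebraicClosure ℚ) := by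
      have h4 : ((z : ZBar) : AlgebraicClosure ℚ) = (z : AlgebraicClosure ℚ) := map_intCast _ _
      have h5 : ((N : ZBar) : AlgebraicClosure ℚ) = (N : AlgebraicClosure ℚ) := map_intCast _ _
      rw [← h4, ← h5]
      exact h2
    have hN0 : (N : AlgebraicClosure ℚ) ≠ 0 := by exact_mod_cast hN
    rw [map_div₀, map_intCast, map_intCast, eq_div_iff hN0, h3, mul_comm]
  have h2 : IsIntegral ℤ ((z : ℚ) / (N : ℚ)) := by
    rw [← isIntegral_algebraMap_iff (B := AlgebraicClosure ℚ)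
      (algebraMap ℚ (AlgebraicClosure ℚ)).injective, ← h1]
    exact b.2
  obtain ⟨c, hc⟩ := IsIntegrallyClosed.isIntegral_iff.1 h2
  refine ⟨c, ?_⟩
  have hN0 : (N : ℚ) ≠ 0 := by exact_mod_cast hN
  have h3 : (c : ℚ) = (z : ℚ) / (N : ℚ) := hc
  rw [eq_div_iff hN0] at h3
  have h4 : c * N = z := by exact_mod_cast h3
  rw [← h4, mul_comm]

variable {F : SubFld ℚ} [hF : FiniteDimensional ℚ F]

/-- the product of the conjugates of an element congruent to one -/
theorem bt_one {m : (F →+* AlgebraicClosure ℚ) → ℕ} {N : ℕ} {β : 𝓞 F} (h : (N : 𝓞 F) ∣ β - 1) :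
    ∃ b : ZBar, bt m β - 1 = N * b := by
  have h1 : Ideal.Quotient.mk (Ideal.span {(N : ZBar)}) (bt m β) = 1 := by
    unfold bt
    rw [map_prod]
    refine Finset.prod_eq_one fun τ _ => ?_
    rw [map_pow]
    have h2 : Ideal.Quotient.mk (Ideal.span {(N : ZBar)}) (er (K := ℚ) τ β) = 1 := by
      obtain ⟨c, hc⟩ := h
      rw [← sub_eq_zero, ← map_one (Ideal.Quotient.mk (Ideal.span {(N : ZBar)})), ← map_sub,
        Ideal.Quotient.eq_zero_iff_mem, Ideal.mem_span_singleton]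
      refine ⟨er (K := ℚ) τ c, ?_⟩
      have h3 := congrArg (er (K := ℚ) τ) hc
      rw [map_sub, map_one, map_mul, map_natCast] at h3
      exact h3
    rw [h2, one_pow]
  rw [← sub_eq_zero, ← map_one (Ideal.Quotient.mk (Ideal.span {(N : ZBar)})), ← map_sub,
    Ideal.Quotient.eq_zero_iff_mem, Ideal.mem_span_singleton] at h1
  exact h1

end

section system

variable {F : SubFld ℚ} [hF : FiniteDimensional ℚ F] {S : Finset ℕ} {w : ℕ}
  {T : IntegralSystem F 2} {ℓ : ℕ} [hℓ : Fact ℓ.Prime]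

theorem frob_two (hT : T.GoodSystem S w) {p : ℕ} (hp : p.Prime)
    (hpS : p ∉ S) (hpℓ : ℓ ≠ p) {P : Ideal ZBar} (hP : P.IsMaximal) (hpP : (p : ZBar) ∈ P)
    {σ : F.fixingSubgroup} (hσ : IsGeomFrob p P σ) :
    (T.rho ℓ σ : Matrix (Fin 2) (Fin 2) ℤ_[ℓ]).trace = -((T.poly (P.under (𝓞 F))).coeff 1 : ℤ_[ℓ]) ∧
    (T.rho ℓ σ : Matrix (Fin 2) (Fin 2) ℤ_[ℓ]).det = ((T.poly (P.under (𝓞 F))).coeff 0 : ℤ_[ℓ]) := by
  have hm : (P.under (𝓞 F)).IsMaximal := Ideal.IsMaximal.under (𝓞 F) P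
  have hpm : (p : 𝓞 F) ∈ P.under (𝓞 F) := by
    rw [mem_under, map_natCast]
    exact hpP
  have h4 := (hT.good p hp hpS _ hm hpm).frobenius ℓ hpℓ P hP rfl σ (by
    have h5 : Nat.card (𝓞 F ⧸ P.under (𝓞 F)) = p := resCard_one hp hP hpP σ.2 hσ
    rw [h5]
    exact hσ)
  rw [Matrix.charpoly_fin_two] at h4
  constructor
  · have h5 := congrArg (fun q : ℤ_[ℓ][X] => q.coeff 1) h4
    simp only [coeff_map, coeff_add, coeff_sub, coeff_X_pow, coeff_C_mul, coeff_X_one,
      coeff_C_succ, Int.coe_castRingHom] at h5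
    rw [← h5]
    simp
  · have h5 := congrArg (fun q : ℤ_[ℓ][X] => q.coeff 0) h4
    simp only [coeff_map, coeff_add, coeff_sub, coeff_X_pow, coeff_C_mul, coeff_X_zero,
      coeff_C_zero, Int.coe_castRingHom] at h5
    rw [← h5]
    simp

/-- the value at one of the characteristic polynomial of the square -/
noncomputable def dq (T : IntegralSystem F 2) (ℓ : ℕ) [Fact ℓ.Prime] (g : F.fixingSubgroup) :
    ℤ_[ℓ] :=
  (1 + (T.rho ℓ g : Matrix (Fin 2) (Fin 2) ℤ_[ℓ]).det) ^ 2 -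
    (T.rho ℓ g : Matrix (Fin 2) (Fin 2) ℤ_[ℓ]).trace ^ 2

theorem continuous_dq (hT : T.GoodSystem S w) : Continuous (dq T ℓ) := by
  have h := hT.continuous ℓ
  unfold dq
  exact ((continuous_const.add h.matrix_det).pow 2).sub (h.matrix_trace.pow 2)

/-- **The commutator subgroup.** -/
theorem dq_comm (hT : T.PureSystem S w) (h : InfRed T) {d : F.fixingSubgroup}
    (hd : d ∈ commutator F.fixingSubgroup) : dq T ℓ d = 0 := by
  classical
  obtain ⟨m, R, hm⟩ := exists_m hT h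
  have key : ∀ k : ℕ, ‖dq T ℓ d‖ ≤ (ℓ : ℝ) ^ (-(k : ℤ)) := by
    intro k
    have hℓk : ℓ ^ k ≠ 0 := pow_ne_zero _ hℓ.out.ne_zero
    obtain ⟨U, hU, hUc, N', hN', hrc⟩ := exists_rc (K := ℚ) (F := F) hℓk
    let C : Set F.fixingSubgroup := (U : Set F.fixingSubgroup)ᶜ ∪
      {g | ‖dq T ℓ g‖ ≤ (ℓ : ℝ) ^ (-(k : ℤ))}
    have hC : IsClosed C := hU.isClosed_compl.union
      (isClosed_le (continuous_norm.comp (continuous_dq hT.toGoodSystem)) continuous_const)
    have h1 : d ∈ C := by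
      refine closed_univ' C hC (R ∪ S ∪ {ℓ} ∪ N'.primeFactors) ?_ d
      intro p hp hpS P hP hpP s hs
      simp only [Finset.mem_union, not_or, Finset.mem_singleton] at hpS
      obtain ⟨⟨⟨hpR, hpS⟩, hpℓ⟩, hpN⟩ := hpS
      by_cases hsU : s ∈ U
      swap
      · exact Or.inl hsU
      right
      have hPp := hP.isPrime
      have hpF : (p : 𝓞 F) ∈ P.under (𝓞 F) := by
        rw [mem_under, map_natCast]
        exact hpP
      have hne : P.under (𝓞 F) ≠ ⊥ := by
        intro h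
        rw [h, Ideal.mem_bot] at hpF
        exact hp.ne_zero (by exact_mod_cast hpF)
      have hN'P : ((N' : ℕ) : ZBar) ∉ P := by
        intro hmem
        have h2 : ¬ (p : ℤ) ∣ (N' : ℤ) := by
          rw [Int.natCast_dvd_natCast]
          intro h3
          exact hpN (Nat.mem_primeFactors.2 ⟨hp, h3, hN'⟩)
        have h3 := int_notMem (K := ℚ) hP hp hpP h2
        rw [Int.cast_natCast] at h3
        exact h3 hmem
      obtain ⟨β, hβ, hβ1⟩ := hrc P hP hne hN'P s hsU (fun x => by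
        have h2 := arith_of_geom hs x
        rw [← absNorm_one hp hP hpP hs] at h2
        exact h2)
      have h2 := hm p hp hpR P hP hpP s hs β hβ
      obtain ⟨b, hb⟩ := bt_one (m := m) hβ1
      obtain ⟨htr, hdet⟩ := frob_two (ℓ := ℓ) hT.toGoodSystem hp hpS (Ne.symm hpℓ) hP hpP hs
      set c1 := (T.poly (P.under (𝓞 F))).coeff 1 with hc1
      set c0 := (T.poly (P.under (𝓞 F))).coeff 0 with hc0
      have h3 : (((1 + c0) ^ 2 - c1 ^ 2 : ℤ) : ZBar) = (((ℓ ^ k : ℕ) : ℤ) : ZBar) *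
          (-(b * (bt m β + 1 - ((c1 ^ 2 - 2 * c0 : ℤ) : ZBar)))) := by
        have h4 : (bt m β) ^ 2 - ((c1 ^ 2 - 2 * c0 : ℤ) : ZBar) * bt m β +
            ((c0 ^ 2 : ℤ) : ZBar) = 0 := h2
        push_cast at h4 hb ⊢
        linear_combination h4 - (bt m β + 1 - (((c1 : ZBar) ^ 2 - 2 * (c0 : ZBar)))) * hb
      have h4 := int_dvd (by exact_mod_cast hℓk) h3
      show ‖dq T ℓ s‖ ≤ (ℓ : ℝ) ^ (-(k : ℤ))
      have h5 : dq T ℓ s = (((1 + c0) ^ 2 - c1 ^ 2 : ℤ) : ℤ_[ℓ]) := by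
        unfold dq
        rw [htr, hdet]
        push_cast
        ring
      rw [h5, PadicInt.norm_int_le_pow_iff_dvd]
      exact_mod_cast h4
    rcases h1 with h2 | h2
    · exact absurd (hUc hd) h2
    · exact h2
  rw [← norm_eq_zero]
  refine le_antisymm ?_ (norm_nonneg _)
  refine ge_of_tendsto' (x := Filter.atTop) (f := fun k : ℕ => (ℓ : ℝ) ^ (-(k : ℤ))) ?_ key
  have h1 : (fun k : ℕ => (ℓ : ℝ) ^ (-(k : ℤ))) = fun k : ℕ => ((ℓ : ℝ)⁻¹) ^ k := by
    funext k
    rw [zpow_neg, zpow_natCast, inv_pow]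
  rw [h1]
  refine tendsto_pow_atTop_nhds_zero_of_lt_one (by positivity) ?_
  exact inv_lt_one_of_one_lt₀ (by exact_mod_cast hℓ.out.one_lt)

end system

end Pool.Agent.H16.PW
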