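import Pool.Agent.H16.PW.Par
import Pool.Graph.R_seed8.R390.SF.PolNum

/-!
# Characters with algebraic inertial weights over fields without CM subfields
-/

set_option autoImplicit false
set_option linter.unusedSectionVars false
set_option linter.deprecated false
set_option linter.style.haveILetI false
set_option maxHeartbeats 4000000
set_option synthInstance.maxHeartbeats 400000

namespace Pool.Agent.H16.PW

open NumberField IsDedekindDomain Pool.Agent.W401.Cheb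
open Pool.Agent.NH7.Sch (OO Inr)

section generic

variable {K : Type} [Field K] [NumberField K]

/-- a nonzero algebraic integer divides a nonzero integer -/
theorem exists_int {z : OO K} (hz : z ≠ 0) : ∃ (N : ℤ) (t : OO K), N ≠ 0 ∧ (N : OO K) = z * t := by
  have h1 : IsAlgebraic ℤ z := (RingOfIntegers.isIntegral z).isAlgebraic
  obtain ⟨N, hN, t, ht⟩ := h1.exists_nonzero_dvd (mem_nonZeroDivisors_of_ne_zero hz)
  refine ⟨N, t, hN, ?_⟩
  rw [← ht]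
  rfl

theorem int_notMem {P : Ideal (OO K)} (hP : P.IsMaximal) {ℓ : ℕ} (hℓ : ℓ.Prime)
    (hℓP : (ℓ : OO K) ∈ P) {N : ℤ} (hN : ¬ (ℓ : ℤ) ∣ N) : (N : OO K) ∉ P := by
  intro h
  have h1 : IsCoprime (ℓ : ℤ) N := (Nat.prime_iff_prime_int.1 hℓ).coprime_iff_not_dvd.2 hN
  obtain ⟨a, b, hab⟩ := h1
  apply hP.ne_top
  rw [Ideal.eq_top_iff_one]
  have h2 : (1 : OO K) = (a : OO K) * (ℓ : OO K) + (b : OO K) * (N : OO K) := by
    have := congrArg (Int.cast : ℤ → OO K) hab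
    push_cast at this
    exact this.symm
  rw [h2]
  exact P.add_mem (P.mul_mem_left _ hℓP) (P.mul_mem_left _ h)

/-- congruences modulo all powers of `ℓ` -/
theorem eq_one_of_cg {P : Ideal (OO K)} (hP : P.IsMaximal) {ℓ : ℕ} (hℓ : ℓ.Prime)
    (hℓP : (ℓ : OO K) ∈ P) {β : OO K} (h : ∀ n, 0 < n → Cg P (ℓ ^ n) β 1) : β = 1 := by
  by_contra hne
  obtain ⟨N, t, hN, ht⟩ := exists_int (sub_ne_zero.2 hne)
  have hfin : FiniteMultiplicity (ℓ : ℤ) N := Int.finiteMultiplicity_iff.2 ⟨by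
    rw [Int.natAbs_natCast]
    exact hℓ.ne_one, hN⟩
  obtain ⟨N', hN', hdvd⟩ := hfin.exists_eq_pow_mul_and_not_dvd
  set k := multiplicity (ℓ : ℤ) N with hk
  obtain ⟨s, b, hs, hb⟩ := h (k + 1) (Nat.succ_pos k)
  have hℓ0 : (ℓ : OO K) ≠ 0 := by exact_mod_cast hℓ.ne_zero
  have h1 : (ℓ : OO K) ^ k * (s * (N' : OO K)) = (ℓ : OO K) ^ k * ((ℓ : OO K) * (b * t)) := by
    have h2 : s * (N : OO K) = ((ℓ ^ (k + 1) : ℕ) : OO K) * (b * t) := by
      rw [ht, ← mul_assoc, hb, mul_assoc]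
    rw [hN'] at h2
    push_cast at h2
    calc (ℓ : OO K) ^ k * (s * (N' : OO K)) = s * ((ℓ : OO K) ^ k * (N' : OO K)) := by ring
      _ = (ℓ : OO K) ^ (k + 1) * (b * t) := h2
      _ = _ := by ring
  have h3 := mul_left_cancel₀ (pow_ne_zero k hℓ0) h1
  have h4 : s * (N' : OO K) ∈ P := by
    rw [h3]
    exact P.mul_mem_right _ hℓP
  rcases hP.isPrime.mem_or_mem h4 with h5 | h5
  · exact hs h5
  · exact int_notMem hP hℓ hℓP hdvd h5

/-- a nonzero algebraic integer is not in the primes above large prime numbers -/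
theorem exists_bound {z : OO K} (hz : z ≠ 0) : ∃ B : ℕ, ∀ ℓ : ℕ, ℓ.Prime → B < ℓ →
    ∀ P : Ideal (OO K), P.IsMaximal → (ℓ : OO K) ∈ P → z ∉ P := by
  obtain ⟨N, t, hN, ht⟩ := exists_int hz
  refine ⟨N.natAbs, fun ℓ hℓ hlt P hP hℓP h => ?_⟩
  refine int_notMem hP hℓ hℓP (N := N) ?_ (by rw [ht]; exact P.mul_mem_right _ h)
  intro hdvd
  have h1 := Int.natAbs_dvd_natAbs.2 hdvd
  rw [Int.natAbs_natCast] at h1
  exact absurd (Nat.le_of_dvd (Int.natAbs_pos.2 hN) h1) (not_le.2 hlt)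

variable {F : Type} [Field F] [NumberField F]

/-- an embedding of the ring of integers -/
noncomputable def er (τ : F →+* AlgebraicClosure K) : 𝓞 F →+* OO K := RingOfIntegers.mapRingHom τ

theorem er_coe (τ : F →+* AlgebraicClosure K) (x : 𝓞 F) :
    ((er τ x : OO K) : AlgebraicClosure K) = τ (x : F) := rfl

theorem prod_er (a : Ideal (𝓞 F) → ℕ) (P : Ideal (OO K)) (x : 𝓞 F) :
    ∏ σ : F →ₐ[ℚ] AlgebraicClosure K, (em σ x) ^ (2 * a (P.comap (em σ))) =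
      ∏ τ : F →+* AlgebraicClosure K, (er τ x) ^ (2 * a (P.comap (er τ))) :=
  Fintype.prod_equiv (RingHom.equivRatAlgHom F (AlgebraicClosure K)).symm _ _ fun σ => rfl

end generic

section char

open Pool.Agent.Y800 Pool.Agent.R390.SF
open Pool.Agent.Y126.SH (chi)

variable {F : SubFld ℚ} [hF : FiniteDimensional ℚ F] {ℓ : ℕ} [hℓ : Fact ℓ.Prime]

/-- the values of ring homomorphisms on the cyclotomic character -/
theorem psi_pow {n m : ℕ} (hm : m = ℓ ^ n) [NeZero m] (ψ : ℤ_[ℓ] →+* ZMod m) (x : ℤ_[ℓ])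
    {t : AlgebraicClosure ℚ} (ht : t ^ m = 1) :
    t ^ (ψ x).val = t ^ (PadicInt.toZModPow n x).val := by
  subst hm
  have h1 : x - ((PadicInt.toZModPow n x).val : ℤ_[ℓ]) ∈ RingHom.ker (PadicInt.toZModPow (p := ℓ) n) := by
    rw [RingHom.mem_ker, map_sub, map_natCast, ZMod.natCast_zmod_val, sub_self]
  rw [PadicInt.ker_toZModPow, Ideal.mem_span_singleton] at h1
  obtain ⟨y, hy⟩ := h1
  have h2 : ψ x = (((PadicInt.toZModPow n x).val : ℕ) : ZMod (ℓ ^ n)) := by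
    have h3 := congrArg ψ hy
    rw [map_sub, map_natCast, map_mul, map_pow, map_natCast] at h3
    have h4 : ((ℓ : ZMod (ℓ ^ n))) ^ n = 0 := by
      rw [← Nat.cast_pow]
      exact ZMod.natCast_self _
    rw [h4, zero_mul, sub_eq_zero] at h3
    exact h3
  have h5 := h2
  rw [ZMod.natCast_zmod_val] at h5
  rw [h5]

theorem rel_chi {n m : ℕ} (hn : 0 < n) (hm : m = ℓ ^ n) [NeZero m] (ψ : ℤ_[ℓ] →+* ZMod m)
    (φ : F.fixingSubgroup →* (ZMod m)ˣ) (hφ : IsOpen (φ.ker : Set F.fixingSubgroup))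
    (a : Ideal (𝓞 F) → ℕ)
    (h1 : ∀ p : ℕ, p.Prime → ℓ ≠ p → ∀ P : Ideal ZBar, P.IsMaximal → (p : ZBar) ∈ P →
      ∀ τ : F.fixingSubgroup, InInertia P τ → φ τ = 1)
    (h2 : ∀ P : Ideal ZBar, P.IsMaximal → (ℓ : ZBar) ∈ P → ∀ τ : F.fixingSubgroup, InInertia P τ →
      φ τ * (Units.map (ψ : ℤ_[ℓ] →* ZMod m) (chi ℓ (τ : GQ))) ^ a (P.under (𝓞 F)) = 1)
    {P₀ : Ideal ZBar} (hP₀ : P₀.IsMaximal) (hℓP₀ : (ℓ : ZBar) ∈ P₀) (u : (𝓞 F)ˣ) :
    Cg (K := ℚ) P₀ m (∏ τ : F →+* AlgebraicClosure ℚ, (er (K := ℚ) τ (u : 𝓞 F)) ^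
      (2 * a (P₀.comap (er (K := ℚ) τ)))) 1 := by
  have key := rel_embed (K := ℚ) (F := F) hℓ.out hn hm φ hφ
    ((Units.map (ψ : ℤ_[ℓ] →* ZMod m)).comp (chi ℓ)) (fun g t ht => by
      have h3 := cyclotomicCharacter.spec ℓ (n := n)
        (MulSemiringAction.toRingAut GQ (AlgebraicClosure ℚ) g) t (by rw [← hm]; exact ht)
      have h4 := psi_pow hm ψ (chi ℓ g : ℤ_[ℓ]) ht
      exact h3.trans h4.symm) a
    (fun P hP hℓP τ hτ => by
      obtain ⟨p, hp, hpP⟩ := Pool.Agent.Y126.SH.exists_prime_mem hP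
      have hne : ℓ ≠ p := by
        rintro rfl
        exact hℓP hpP
      show Units.map (ψ : ℤ_[ℓ] →* ZMod m) (chi ℓ τ) = 1
      rw [Pool.Agent.Y126.SH.chi_inertia hp hne hP hpP hτ, map_one])
    (fun P hP hℓP τ hτ => by
      obtain ⟨p, hp, hpP⟩ := Pool.Agent.Y126.SH.exists_prime_mem hP
      have hne : ℓ ≠ p := by
        rintro rfl
        exact hℓP hpP
      exact h1 p hp hne P hP hpP τ hτ)
    (fun P hP hℓP τ hτ => h2 P hP hℓP τ hτ) hP₀ hℓP₀ u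
  rw [prod_er (K := ℚ)] at key
  exact key

/-- the places defined by the elements of the Galois group -/
theorem comap_rs (g : GQ) (P₀ : Ideal ZBar) :
    P₀.comap (er (K := ℚ) (rs (K := ℚ) F g)) = (cj g P₀).under (𝓞 F) := rfl

theorem hKQ (C : Type) [Field C] (f g : ℚ →+* C) : f = g := Subsingleton.elim f g

/-- the weights are parallel -/
theorem const_of_rel (hcm : ∀ L : SubFld ℚ, L ≤ F → ¬ IsCMField L) (a : Ideal (𝓞 F) → ℕ)
    {P₀ : Ideal ZBar} (hP₀ : P₀.IsMaximal) (hℓP₀ : (ℓ : ZBar) ∈ P₀)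
    (h : ∀ u : (𝓞 F)ˣ, ∏ τ : F →+* AlgebraicClosure ℚ, (er (K := ℚ) τ (u : 𝓞 F)) ^
      (2 * a (P₀.comap (er (K := ℚ) τ))) = 1) {P Q : Ideal ZBar} (hP : P.IsMaximal)
    (hℓP : (ℓ : ZBar) ∈ P) (hQ : Q.IsMaximal) (hℓQ : (ℓ : ZBar) ∈ Q) :
    a (P.under (𝓞 F)) = a (Q.under (𝓞 F)) := by
  obtain ⟨g, rfl⟩ := exists_cj hℓ.out hP₀ hℓP₀ hP hℓP
  obtain ⟨g', rfl⟩ := exists_cj hℓ.out hP₀ hℓP₀ hQ hℓQ
  have h1 := par (K := ℚ) (F := F) hKQ hcm (fun τ => 2 * a (P₀.comap (er (K := ℚ) τ))) (fun u => by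
    have h2 := congrArg (algebraMap ZBar (AlgebraicClosure ℚ)) (h u)
    rw [map_prod, map_one] at h2
    rw [← h2]
    refine Finset.prod_congr rfl fun τ _ => ?_
    rw [map_pow]
    rfl) (rs (K := ℚ) F g) (rs (K := ℚ) F g')
  simp only [comap_rs] at h1
  omega

end char

end Pool.Agent.H16.PW
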