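import Mathlib

/-!
# Additive relations between the logarithms of the units, and the criterion for CM fields
-/

set_option autoImplicit false
set_option linter.unusedSectionVars false
set_option linter.deprecated false
set_option maxHeartbeats 4000000
set_option synthInstance.maxHeartbeats 400000

namespace Pool.Agent.H16.PW

open NumberField NumberField.Units NumberField.Units.dirichletUnitTheorem Finset

section

variable {F : Type} [Field F] [NumberField F]

/-- a linear form vanishing on the logarithms of the units is a multiple of the sum -/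
theorem form_const (f : InfinitePlace F → ℝ)
    (hf : ∀ u : (𝓞 F)ˣ, ∑ w : InfinitePlace F, f w * ((w.mult : ℝ) * Real.log (w (u : F))) = 0)
    (w : InfinitePlace F) : f w = f (w₀ : InfinitePlace F) := by
  classical
  let l : logSpace F →ₗ[ℝ] ℝ :=
    { toFun := fun x => ∑ w : {w : InfinitePlace F // w ≠ w₀}, (f w - f w₀) * x w
      map_add' := fun x y => by
        rw [← Finset.sum_add_distrib]
        exact Finset.sum_congr rfl fun i _ => by rw [Pi.add_apply]; ring
      map_smul' := fun c x => by
        rw [RingHom.id_apply, smul_eq_mul, Finset.mul_sum]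
        exact Finset.sum_congr rfl fun i _ => by rw [Pi.smul_apply, smul_eq_mul]; ring }
  have hl : l = 0 := by
    refine LinearMap.ext_on_range (v := fun u : (𝓞 F)ˣ => logEmbedding F (Additive.ofMul u)) ?_ ?_
    · rw [eq_top_iff, ← unitLattice_span_eq_top F]
      refine Submodule.span_mono ?_
      rintro x ⟨u, -, rfl⟩
      exact ⟨u.toMul, rfl⟩
    · intro u
      have h1 := hf u
      have h2 := sum_logEmbedding_component (K := F) u
      rw [Fintype.sum_eq_add_sum_subtype_ne _ (w₀ : InfinitePlace F)] at h1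
      change ∑ w : {w : InfinitePlace F // w ≠ w₀}, (f w - f w₀) * logEmbedding F (Additive.ofMul u) w = 0
      simp_rw [sub_mul]
      rw [Finset.sum_sub_distrib, ← Finset.mul_sum, h2]
      simp_rw [logEmbedding_component]
      linarith
  by_cases hw : w = w₀
  · rw [hw]
  · have h3 : l (Pi.single ⟨w, hw⟩ 1) = 0 := by rw [hl]; rfl
    have h4 : l (Pi.single ⟨w, hw⟩ 1) = f w - f w₀ := by
      change ∑ w' : {w : InfinitePlace F // w ≠ w₀}, (f w' - f w₀) *
        (Pi.single (M := fun _ => ℝ) ⟨w, hw⟩ 1 : logSpace F) w' = _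
      rw [Finset.sum_eq_single ⟨w, hw⟩]
      · rw [Pi.single_eq_same, mul_one]
      · intro b _ hb
        rw [Pi.single_eq_of_ne hb, mul_zero]
      · intro h
        exact absurd (Finset.mem_univ _) h
    linarith

/-- the relation between the logarithms of the conjugates -/
theorem log_const (n : (F →+* ℂ) → ℝ)
    (hn : ∀ u : (𝓞 F)ˣ, ∑ τ : F →+* ℂ, n τ * Real.log ‖τ ((u : 𝓞 F) : F)‖ = 0) :
    ∃ s : ℝ, ∀ τ : F →+* ℂ, n τ + n (ComplexEmbedding.conjugate τ) = s := by
  classical
  let f : InfinitePlace F → ℝ := fun w => n w.embedding + n (ComplexEmbedding.conjugate w.embedding)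
  have hf1 : ∀ τ : F →+* ℂ, f (InfinitePlace.mk τ) = n τ + n (ComplexEmbedding.conjugate τ) := by
    intro τ
    rcases InfinitePlace.embedding_mk_eq τ with h | h
    · simp only [f, h]
    · simp only [f, h]
      have h5 : ComplexEmbedding.conjugate (ComplexEmbedding.conjugate τ) = τ := star_star τ
      rw [h5, add_comm]
  have hf : ∀ w, f w = f (w₀ : InfinitePlace F) := by
    refine form_const f ?_
    intro u
    have h1 : ∑ τ : F →+* ℂ, n (ComplexEmbedding.conjugate τ) * Real.log ‖τ ((u : 𝓞 F) : F)‖ = 0 := by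
      rw [← hn u]
      refine Finset.sum_bij' (fun τ _ => ComplexEmbedding.conjugate τ)
        (fun τ _ => ComplexEmbedding.conjugate τ) (fun _ _ => Finset.mem_univ _)
        (fun _ _ => Finset.mem_univ _) (fun τ _ => star_star τ)
        (fun τ _ => star_star τ) ?_
      intro τ _
      rw [ComplexEmbedding.conjugate_coe_eq, RCLike.norm_conj]
    have h2 : ∑ τ : F →+* ℂ, f (InfinitePlace.mk τ) *
        Real.log ((InfinitePlace.mk τ) ((u : 𝓞 F) : F)) = 0 := by
      rw [← add_zero (0 : ℝ)]
      nth_rw 1 [← hn u]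
      rw [← h1, ← Finset.sum_add_distrib]
      refine Finset.sum_congr rfl fun τ _ => ?_
      rw [hf1, InfinitePlace.apply]
      ring
    rw [← h2, ← Finset.sum_fiberwise (s := Finset.univ) (fun τ : F →+* ℂ => InfinitePlace.mk τ)
      (fun τ => f (InfinitePlace.mk τ) * Real.log ((InfinitePlace.mk τ) ((u : 𝓞 F) : F)))]
    refine Finset.sum_congr rfl fun w _ => ?_
    rw [Finset.sum_congr rfl (g := fun _ => f w * Real.log (w ((u : 𝓞 F) : F)))
      (fun τ hτ => by rw [(Finset.mem_filter.1 hτ).2]), Finset.sum_const,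
      InfinitePlace.card_filter_mk_eq, nsmul_eq_mul]
    ring
  exact ⟨f w₀, fun τ => by rw [← hf1, hf]⟩

end

section

variable (L : Type) [Field L] [NumberField L]

/-- **The criterion for CM fields.** -/
theorem cm_of (κ : L ≃+* L) (h1 : κ ≠ RingEquiv.refl L)
    (h2 : ∀ (ψ : L →+* ℂ) (x : L), (starRingEnd ℂ) (ψ x) = ψ (κ x)) : IsCMField L := by
  classical
  let σ : L ≃ₐ[ℚ] L := AlgEquiv.ofRingEquiv (f := κ) (fun r => by
    rw [eq_ratCast, map_ratCast])
  have hσ : ∀ x, σ x = κ x := fun x => rfl
  have hne : σ ≠ 1 := by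
    intro h
    apply h1
    ext x
    rw [← hσ, h]
    rfl
  have hinv : ∀ x, κ (κ x) = x := by
    intro x
    let ψ : L →+* ℂ := Classical.choice (inferInstance : Nonempty _)
    apply ψ.injective
    rw [← h2, ← h2, Complex.conj_conj]
  have hconj : ∀ φ : L →+* ℂ, ComplexEmbedding.IsConj φ σ := by
    intro φ
    unfold ComplexEmbedding.IsConj
    ext x
    rw [ComplexEmbedding.conjugate_coe_eq, h2]
    rfl
  have hcomplex : IsTotallyComplex L := ⟨fun w => by
    rw [← InfinitePlace.not_isReal_iff_isComplex]
    intro hw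
    apply hne
    ext x
    rw [hσ]
    have h3 := InfinitePlace.isReal_iff.1 hw
    apply w.embedding.injective
    rw [← h2]
    have h4 := RingHom.congr_fun h3 x
    rw [ComplexEmbedding.conjugate_coe_eq] at h4
    exact h4⟩
  have hord : orderOf σ = 2 := by
    rw [orderOf_eq_prime_iff]
    refine ⟨?_, hne⟩
    ext x
    rw [pow_two, AlgEquiv.mul_apply, hσ, hσ, hinv]
    rfl
  have hcard : Nat.card (Subgroup.zpowers σ) = 2 := by
    rw [Nat.card_zpowers, hord]
  let M : IntermediateField ℚ L := IntermediateField.fixedField (Subgroup.zpowers σ)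
  have hM : ∀ x : M, σ (x : L) = x := fun x => x.2 ⟨σ, Subgroup.mem_zpowers σ⟩
  have hreal : IsTotallyReal M := ⟨fun w ↦ by
    obtain ⟨W, rfl⟩ := w.comap_surjective (K := L)
    dsimp only
    rw [← InfinitePlace.mk_embedding W, InfinitePlace.comap_mk, InfinitePlace.isReal_mk_iff]
    rw [ComplexEmbedding.isReal_iff]
    ext x
    rw [ComplexEmbedding.conjugate_coe_eq, RingHom.comp_apply, h2]
    congr 1
    exact hM x⟩
  have hquad : Algebra.IsQuadraticExtension M L := ⟨by
    rw [IntermediateField.finrank_fixedField_eq_card, hcard]⟩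
  exact IsCMField.ofCMExtension M L

end

end Pool.Agent.H16.PW
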