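import Pool.Agent.H16.PW.Gal

/-!
# The relation between the conjugates of the units
-/

set_option autoImplicit false
set_option linter.unusedSectionVars false
set_option linter.deprecated false
set_option maxHeartbeats 4000000
set_option synthInstance.maxHeartbeats 400000

namespace Pool.Agent.H16.PW

open NumberField IsDedekindDomain Pool.Agent.Q92.AR Pool.Agent.Q20.EX Pool.Agent.W401.Cheb
open Pool.Agent.NH7.Sch (OO Inr)

section

variable {K : Type} [Field K] [NumberField K] {F : IntermediateField K (AlgebraicClosure K)}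
  [FiniteDimensional K F] {A : Type} [CommGroup A]

theorem exists_level (φ : F.fixingSubgroup →* A) (hφ : IsOpen (φ.ker : Set F.fixingSubgroup)) (m : ℕ)
    [NeZero m] : ∃ E : IntermediateField K (AlgebraicClosure K), FiniteDimensional K E ∧
      IsGalois K E ∧ F ≤ E ∧ (∀ σ : F.fixingSubgroup, (σ : GK K) ∈ E.fixingSubgroup → φ σ = 1) ∧
      ∃ ζ : E, IsPrimitiveRoot ζ m := by
  have : CharZero (AlgebraicClosure K) := charZero_of_injective_algebraMap
    (algebraMap K (AlgebraicClosure K)).injective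
  have : NeZero (m : AlgebraicClosure K) := ⟨by exact_mod_cast NeZero.ne m⟩
  obtain ⟨ζ, hζ⟩ := HasEnoughRootsOfUnity.exists_primitiveRoot (AlgebraicClosure K) m
  let L : IntermediateField K (AlgebraicClosure K) := IntermediateField.adjoin K {ζ}
  have hL : FiniteDimensional K L := IntermediateField.adjoin.finiteDimensional
    (Algebra.IsIntegral.isIntegral (R := K) ζ)
  have hFo : IsOpen (F.fixingSubgroup : Set (GK K)) := IntermediateField.fixingSubgroup_isOpen F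
  have hLo : IsOpen (L.fixingSubgroup : Set (GK K)) := IntermediateField.fixingSubgroup_isOpen L
  have hU : IsOpen ((Subtype.val '' (φ.ker : Set F.fixingSubgroup)) : Set (GK K)) :=
    hFo.isOpenMap_subtype_val _ hφ
  have h1 : (Subtype.val '' (φ.ker : Set F.fixingSubgroup)) ∩ (L.fixingSubgroup : Set (GK K)) ∈
      nhds (1 : GK K) := by
    refine (hU.inter hLo).mem_nhds ⟨⟨1, ?_, rfl⟩, L.fixingSubgroup.one_mem⟩
    exact φ.ker.one_mem
  obtain ⟨E, hE1, hE2, hE⟩ := (krullTopology_mem_nhds_one_iff_of_normal K (AlgebraicClosure K) _).1 h1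
  have hFE : F ≤ E := by
    intro x hx
    rw [← InfiniteGalois.fixedField_fixingSubgroup E]
    intro g
    obtain ⟨⟨σ, _, hσ⟩, -⟩ := hE g.2
    have h2 := (IntermediateField.mem_fixingSubgroup_iff F _).1 σ.2 x hx
    rw [hσ] at h2
    exact h2
  have hζE : ζ ∈ E := by
    rw [← InfiniteGalois.fixedField_fixingSubgroup E]
    intro g
    have h2 := (hE g.2).2
    exact (IntermediateField.mem_fixingSubgroup_iff L _).1 h2 ζ
      (IntermediateField.subset_adjoin K _ (Set.mem_singleton ζ))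
  refine ⟨E, hE1, ⟨⟩, hFE, ?_, ⟨ζ, hζE⟩, ?_⟩
  · intro σ hσ
    obtain ⟨⟨σ', h2, h3⟩, -⟩ := hE hσ
    have h4 : σ' = σ := Subtype.ext h3
    rw [← h4]
    exact h2
  · refine IsPrimitiveRoot.of_map_of_injective (f := algebraMap E (AlgebraicClosure K)) hζ
      (algebraMap E (AlgebraicClosure K)).injective

end

section

variable {K : Type} [Field K] [NumberField K]

/-- congruence modulo `m` locally at `P` -/
def Cg (P : Ideal (OO K)) (m : ℕ) (x y : OO K) : Prop := ∃ s b : OO K, s ∉ P ∧ s * (x - y) = m * b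

variable {P : Ideal (OO K)} {m : ℕ}

theorem cg_refl (hP : P.IsMaximal) (x : OO K) : Cg P m x x :=
  ⟨1, 0, fun h => hP.ne_top ((Ideal.eq_top_iff_one _).2 h), by ring⟩

theorem cg_symm {x y : OO K} (h : Cg P m x y) : Cg P m y x := by
  obtain ⟨s, b, hs, h⟩ := h
  exact ⟨s, -b, hs, by linear_combination -h⟩

theorem cg_trans (hP : P.IsMaximal) {x y z : OO K} (h : Cg P m x y) (h' : Cg P m y z) :
    Cg P m x z := by
  obtain ⟨s, b, hs, h⟩ := h
  obtain ⟨s', b', hs', h'⟩ := h'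
  refine ⟨s * s', s' * b + s * b', fun h2 => ?_, by linear_combination s' * h + s * h'⟩
  rcases hP.isPrime.mem_or_mem h2 with h3 | h3
  · exact hs h3
  · exact hs' h3

theorem cg_mul (hP : P.IsMaximal) {x y x' y' : OO K} (h : Cg P m x y) (h' : Cg P m x' y') :
    Cg P m (x * x') (y * y') := by
  obtain ⟨s, b, hs, h⟩ := h
  obtain ⟨s', b', hs', h'⟩ := h'
  refine ⟨s * s', s' * b * x' + s * b' * y, fun h2 => ?_, by
    linear_combination s' * x' * h + s * y * h'⟩
  rcases hP.isPrime.mem_or_mem h2 with h3 | h3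
  · exact hs h3
  · exact hs' h3

theorem cg_pow (hP : P.IsMaximal) {x y : OO K} (h : Cg P m x y) (k : ℕ) :
    Cg P m (x ^ k) (y ^ k) := by
  induction k with
  | zero => rw [pow_zero, pow_zero]; exact cg_refl hP 1
  | succ k ih => rw [pow_succ, pow_succ]; exact cg_mul hP ih h

theorem cg_prod (hP : P.IsMaximal) {ι : Type} (s : Finset ι) {f g : ι → OO K}
    (h : ∀ i ∈ s, Cg P m (f i) (g i)) : Cg P m (∏ i ∈ s, f i) (∏ i ∈ s, g i) := by
  classical
  induction s using Finset.induction_on with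
  | empty => rw [Finset.prod_empty, Finset.prod_empty]; exact cg_refl hP 1
  | insert i s hi ih =>
    rw [Finset.prod_insert hi, Finset.prod_insert hi]
    exact cg_mul hP (h i (Finset.mem_insert_self i s))
      (ih fun j hj => h j (Finset.mem_insert_of_mem hj))

variable {F : Type} [Field F] [NumberField F]

/-- an embedding of the ring of integers -/
noncomputable def em (σ : F →ₐ[ℚ] AlgebraicClosure K) : 𝓞 F →+* OO K :=
  RingOfIntegers.mapRingHom (σ : F →+* AlgebraicClosure K)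

theorem em_coe (σ : F →ₐ[ℚ] AlgebraicClosure K) (x : 𝓞 F) :
    ((em σ x : OO K) : AlgebraicClosure K) = σ (x : F) := rfl

/-- the prime of `F` below `P` with respect to an embedding -/
theorem exists_below (hP : P.IsMaximal) {ℓ : ℕ} (hℓ : ℓ.Prime) (hℓP : (ℓ : OO K) ∈ P)
    (σ : F →ₐ[ℚ] AlgebraicClosure K) : ∃ v : HeightOneSpectrum (𝓞 F), v.asIdeal = P.comap (em σ) ∧
      (ℓ : 𝓞 F) ∈ v.asIdeal := by
  have hmem : (ℓ : 𝓞 F) ∈ P.comap (em σ) := by
    rw [Ideal.mem_comap, map_natCast]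
    exact hℓP
  have hpr : P.IsPrime := hP.isPrime
  refine ⟨⟨P.comap (em σ), Ideal.IsPrime.comap _, fun h => ?_⟩, rfl, hmem⟩
  rw [h, Ideal.mem_bot] at hmem
  exact hℓ.ne_zero (by exact_mod_cast hmem)

theorem cg_of_cl {σ : F →ₐ[ℚ] AlgebraicClosure K} {v : HeightOneSpectrum (𝓞 F)}
    (hv : v.asIdeal = P.comap (em σ)) (hm : m ≠ 0) {x y : 𝓞 F}
    (h : v.valuation F ((x : F) - (y : F)) ≤ v.valuation F (m : F)) : Cg P m (em σ x) (em σ y) := by
  have hm0 : (m : F) ≠ 0 := by exact_mod_cast hm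
  have hm1 : v.valuation F (m : F) ≠ 0 := (Valuation.ne_zero_iff _).2 hm0
  have h1 : v.valuation F (((x : F) - (y : F)) / m) ≤ 1 := by
    rw [map_div₀]
    exact div_le_one_of_le₀ h zero_le
  obtain ⟨a, d, had⟩ := v.exists_primeCompl_mul_eq_of_integer _ h1
  have hd : (d : 𝓞 F) ∉ v.asIdeal := d.2
  have h2 : (x - y) * (d : 𝓞 F) = m * a := by
    apply RingOfIntegers.ext
    have h3 : ((x : F) - (y : F)) / m * ((d : 𝓞 F) : F) = (a : F) := had
    have h4 : (((x - y) * (d : 𝓞 F) : 𝓞 F) : F) = ((x : F) - (y : F)) * ((d : 𝓞 F) : F) := rfl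
    have h5 : ((m * a : 𝓞 F) : F) = (m : F) * (a : F) := by
      show ((m : 𝓞 F) : F) * (a : F) = _
      rw [natCast_coe]
    rw [h4, h5, ← h3]
    field_simp
  refine ⟨em σ d, em σ a, ?_, ?_⟩
  · rw [← Ideal.mem_comap, ← hv]
    exact hd
  · have h6 := congrArg (em σ) h2
    rw [map_mul, map_mul, map_sub, map_natCast] at h6
    rw [← h6]
    ring

theorem em_norm (x : 𝓞 F) : ((Algebra.norm ℤ x : ℤ) : OO K) =
    ∏ σ : F →ₐ[ℚ] AlgebraicClosure K, em σ x := by
  apply RingOfIntegers.ext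
  have h1 := Algebra.norm_eq_prod_embeddings ℚ (AlgebraicClosure K) (x : F)
  rw [← Algebra.coe_norm_int] at h1
  have h2 : (((Algebra.norm ℤ x : ℤ) : OO K) : AlgebraicClosure K) =
      ((Algebra.norm ℤ x : ℤ) : AlgebraicClosure K) := map_intCast _ _
  have h3 : algebraMap ℚ (AlgebraicClosure K) ((Algebra.norm ℤ x : ℤ) : ℚ) =
      ((Algebra.norm ℤ x : ℤ) : AlgebraicClosure K) := map_intCast _ _
  rw [h2, ← h3, h1]
  have h4 := map_prod (algebraMap (OO K) (AlgebraicClosure K))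
    (fun σ : F →ₐ[ℚ] AlgebraicClosure K => em σ x) Finset.univ
  exact h4.symm

end

section

variable {K : Type} [Field K] [NumberField K] {F : IntermediateField K (AlgebraicClosure K)}
  [NumberField F] [FiniteDimensional K F]

attribute [local instance] algFE tower

/-- **The relation between the conjugates of the units.** -/
theorem rel_embed {ℓ n m : ℕ} (hℓ : ℓ.Prime) (hn : 0 < n) (hm : m = ℓ ^ n) [NeZero m]
    (φ : F.fixingSubgroup →* (ZMod m)ˣ) (hφ : IsOpen (φ.ker : Set F.fixingSubgroup))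
    (χ : GK K →* (ZMod m)ˣ) (hχ : ∀ g : GK K, ∀ t : AlgebraicClosure K, t ^ m = 1 →
      g t = t ^ (χ g : ZMod m).val) (a : Ideal (𝓞 F) → ℕ)
    (h0 : ∀ P : Ideal (OO K), P.IsMaximal → (ℓ : OO K) ∉ P → ∀ τ : GK K,
      (∀ x : OO K, τ • x - x ∈ P) → χ τ = 1)
    (h1 : ∀ P : Ideal (OO K), P.IsMaximal → (ℓ : OO K) ∉ P → ∀ τ : F.fixingSubgroup,
      (∀ x : OO K, (τ : GK K) • x - x ∈ P) → φ τ = 1)
    (h2 : ∀ P : Ideal (OO K), P.IsMaximal → (ℓ : OO K) ∈ P → ∀ τ : F.fixingSubgroup,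
      (∀ x : OO K, (τ : GK K) • x - x ∈ P) → φ τ * χ τ ^ a (P.under (𝓞 F)) = 1)
    {P₀ : Ideal (OO K)} (hP₀ : P₀.IsMaximal) (hℓP₀ : (ℓ : OO K) ∈ P₀) (u : (𝓞 F)ˣ) :
    Cg P₀ m (∏ σ : F →ₐ[ℚ] AlgebraicClosure K, (em σ (u : 𝓞 F)) ^ (2 * a (P₀.comap (em σ)))) 1 := by
  classical
  have hm0 : m ≠ 0 := NeZero.ne m
  obtain ⟨E, hE1, hE2, hE3, hE4, ζ, hζ⟩ := exists_level φ hφ m
  have hFE : Fact (F ≤ E) := ⟨hE3⟩
  have : NumberField E := by
    have : FiniteDimensional ℚ E := FiniteDimensional.trans ℚ K E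
    exact ⟨⟩
  have hGal : IsGalois F E := IsGalois.tower_top_of_isGalois K F E
  have hζ' : (ζ : AlgebraicClosure K) ^ m = 1 := by
    have := congrArg (algebraMap E (AlgebraicClosure K)) hζ.pow_eq_one
    rwa [map_pow, map_one] at this
  obtain ⟨φ', hφ'⟩ := exists_fin (E := E) φ hE4
  obtain ⟨χ', hχ'⟩ := exists_fin (E := E) (χ.comp F.fixingSubgroup.subtype) (fun σ hσ => by
    have h3 := (IntermediateField.mem_fixingSubgroup_iff E _).1 hσ _ ζ.2
    rw [hχ _ _ hζ'] at h3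
    have h4 : ζ ^ (χ σ : ZMod m).val = ζ ^ 1 := by
      rw [pow_one]
      apply Subtype.ext
      exact h3
    have hu : IsUnit ζ := hζ.isUnit (NeZero.ne m)
    have h6 : hu.unit ^ (χ σ : ZMod m).val = hu.unit ^ 1 := Units.ext h4
    have h7 : IsPrimitiveRoot hu.unit m := IsPrimitiveRoot.coe_units_iff.1 hζ
    rw [pow_eq_pow_iff_modEq, ← h7.eq_orderOf] at h6
    have h8 := (ZMod.natCast_eq_natCast_iff _ _ _).2 h6
    rw [ZMod.natCast_zmod_val, Nat.cast_one] at h8
    exact Units.ext h8)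
  have hχζ : ∀ g : E ≃ₐ[F] E, g ζ = ζ ^ (χ' g : ZMod m).val := by
    intro g
    obtain ⟨σ, rfl⟩ := res_surj g
    apply Subtype.ext
    rw [res_coe, hχ _ _ hζ', hχ']
    rfl
  have hcomb : ∀ b : ℕ, ∀ σ : F.fixingSubgroup, (φ' * χ' ^ b) (res F E σ) =
      (φ * (χ.comp F.fixingSubgroup.subtype) ^ b) σ := by
    intro b σ
    rw [MonoidHom.mul_apply, MonoidHom.mul_apply, MonoidHom.pow_apply, MonoidHom.pow_apply, hφ', hχ']
  -- the primes above `ℓ`
  have hfin : {v : HeightOneSpectrum (𝓞 F) | (ℓ : 𝓞 F) ∈ v.asIdeal}.Finite :=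
    primes_finite hℓ.ne_zero
  obtain ⟨z, hz1, hz2⟩ := rel_norm (F := F) (M := E) hℓ hn hm hζ φ' χ' hχζ (fun v => a v.asIdeal)
    (fun v hv b hb => by
      obtain ⟨P, hP, hPv, τ, hτ, hne⟩ := exists_inertia (hcomb b) hb
      have hℓP : (ℓ : OO K) ∉ P := by
        intro h
        apply hv
        rw [← hPv]
        show algebraMap (𝓞 F) (OO K) (ℓ : 𝓞 F) ∈ P
        rw [map_natCast]
        exact h
      apply hne
      rw [MonoidHom.mul_apply, MonoidHom.pow_apply, h1 P hP hℓP τ hτ]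
      show 1 * χ τ ^ b = 1
      rw [h0 P hP hℓP τ hτ, one_pow, one_mul])
    (fun v hv hb => by
      obtain ⟨P, hP, hPv, τ, hτ, hne⟩ := exists_inertia (hcomb (a v.asIdeal)) hb
      have hℓP : (ℓ : OO K) ∈ P := by
        rw [← hPv] at hv
        have h3 : algebraMap (𝓞 F) (OO K) (ℓ : 𝓞 F) ∈ P := hv
        rwa [map_natCast] at h3
      apply hne
      have h3 := h2 P hP hℓP τ hτ
      rw [hPv] at h3
      rw [MonoidHom.mul_apply, MonoidHom.pow_apply]
      exact h3)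
    u hfin.toFinset (fun v => hfin.mem_toFinset)
  set T := hfin.toFinset with hT
  choose vv hvv hvv2 using fun σ : F →ₐ[ℚ] AlgebraicClosure K => exists_below hP₀ hℓ hℓP₀ σ
  have hvT : ∀ σ, vv σ ∈ T := fun σ => hfin.mem_toFinset.2 (hvv2 σ)
  -- the integers
  have h3 : Cg P₀ m (∏ v ∈ T, ((Algebra.norm ℤ (z v) : ℤ) : OO K) ^ (2 * a v.asIdeal)) 1 := by
    have h4 : ((∏ v ∈ T, (Algebra.norm ℤ (z v)) ^ (2 * a v.asIdeal) : ℤ) : ZMod m) = (1 : ℤ) := by
      push_cast
      rw [← hz2]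
      refine Finset.prod_congr rfl fun v _ => ?_
      rw [pow_mul]
      congr 1
      have h5 : ((Ideal.absNorm (Ideal.span {z v ^ 2}) : ℕ) : ℤ) = (Algebra.norm ℤ (z v)) ^ 2 := by
        rw [Ideal.absNorm_span_singleton, map_pow, Int.natCast_natAbs, abs_of_nonneg (sq_nonneg _)]
      have h6 := congrArg (Int.cast : ℤ → ZMod m) h5
      push_cast at h6
      rw [← h6]
    rw [ZMod.intCast_eq_intCast_iff, Int.modEq_iff_dvd] at h4
    obtain ⟨c, hc⟩ := h4
    refine ⟨1, ((-c : ℤ) : OO K), fun h => hP₀.ne_top ((Ideal.eq_top_iff_one _).2 h), ?_⟩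
    have h7 : (∏ v ∈ T, ((Algebra.norm ℤ (z v) : ℤ) : OO K) ^ (2 * a v.asIdeal)) =
        ((∏ v ∈ T, (Algebra.norm ℤ (z v)) ^ (2 * a v.asIdeal) : ℤ) : OO K) := by
      push_cast
      rfl
    have h8 : (∏ v ∈ T, (Algebra.norm ℤ (z v)) ^ (2 * a v.asIdeal) : ℤ) = 1 + m * (-c) := by
      linarith
    rw [h7, h8]
    push_cast
    ring
  refine cg_trans hP₀ ?_ h3
  -- the products over the embeddings
  have h9 : ∏ σ : F →ₐ[ℚ] AlgebraicClosure K, (em σ (u : 𝓞 F)) ^ (2 * a (P₀.comap (em σ))) =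
      ∏ v ∈ T, ∏ σ ∈ Finset.univ.filter (fun σ : F →ₐ[ℚ] AlgebraicClosure K => vv σ = v),
        (em σ (u : 𝓞 F)) ^ (2 * a v.asIdeal) := by
    rw [← Finset.prod_fiberwise_of_maps_to (t := T) (fun σ _ => hvT σ)]
    refine Finset.prod_congr rfl fun v _ => Finset.prod_congr rfl fun σ hσ => ?_
    rw [← hvv σ, (Finset.mem_filter.1 hσ).2]
  rw [h9]
  refine cg_prod hP₀ T fun v hv => ?_
  rw [em_norm (K := K) (z v), ← Finset.prod_pow]
  rw [← Finset.prod_filter_mul_prod_filter_not Finset.univ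
    (fun σ : F →ₐ[ℚ] AlgebraicClosure K => vv σ = v)
    (fun σ : F →ₐ[ℚ] AlgebraicClosure K => (em σ (z v)) ^ (2 * a v.asIdeal))]
  rw [← mul_one (∏ σ ∈ Finset.univ.filter (fun σ : F →ₐ[ℚ] AlgebraicClosure K => vv σ = v),
        (em σ (u : 𝓞 F)) ^ (2 * a v.asIdeal))]
  have hu0 : ((u : 𝓞 F) : F) ≠ 0 := by
    have := u.ne_zero
    rw [Ne, RingOfIntegers.coe_eq_zero_iff]
    exact this
  refine cg_mul hP₀ (cg_prod hP₀ _ fun σ hσ => cg_pow hP₀ ?_ _) ?_
  · have hσ' := (Finset.mem_filter.1 hσ).2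
    refine cg_symm (cg_of_cl (hvv σ) hm0 ?_)
    have h10 := (hz1 v hv (vv σ) (hvT σ)).1 hσ'
    unfold Cl at h10
    have huv : (vv σ).valuation F ((u : 𝓞 F) : F) = 1 := by
      refine le_antisymm (int_le _ _) ?_
      by_contra hcon
      push Not at hcon
      exact (vv σ).isPrime.ne_top (Ideal.eq_top_of_isUnit_mem _ ((mem_iff _ _).2 hcon) u.isUnit)
    have e : (z v : F) / ((u : 𝓞 F) : F) - 1 = ((z v : F) - ((u : 𝓞 F) : F)) / ((u : 𝓞 F) : F) := by
      field_simp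
    rwa [e, map_div₀, huv, div_one] at h10
  · have h11 : (1 : OO K) = ∏ σ ∈ Finset.univ.filter
        (fun σ : F →ₐ[ℚ] AlgebraicClosure K => ¬ vv σ = v), (1 : OO K) := by
      rw [Finset.prod_const_one]
    conv_lhs => rw [h11]
    refine cg_prod hP₀ _ fun σ hσ => ?_
    have hσ' := (Finset.mem_filter.1 hσ).2
    have h12 : Cg P₀ m (em σ (z v)) (em σ 1) := by
      refine cg_of_cl (hvv σ) hm0 ?_
      exact (hz1 v hv (vv σ) (hvT σ)).2 hσ'
    rw [map_one] at h12
    have h13 := cg_pow hP₀ (cg_symm h12) (2 * a v.asIdeal)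
    rwa [one_pow] at h13

end

end Pool.Agent.H16.PW
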