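import Pool.Agent.H16.PW.Rec
import Pool.Graph.R_pool_sql_team_seeded_3dad9d7b.NH7.Sch.Lift

/-!
# From the absolute Galois groups to finite extensions
-/

set_option autoImplicit false
set_option linter.unusedSectionVars false
set_option linter.deprecated false
set_option maxHeartbeats 4000000
set_option synthInstance.maxHeartbeats 400000

namespace Pool.Agent.H16.PW

open NumberField IsDedekindDomain Pool.Agent.Q92.AR Pool.Agent.Q20.EX Pool.Agent.W401.Cheb
open Pool.Agent.NH7.Sch (OO Inr)

section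

variable {K : Type} [Field K] [NumberField K] {F E : IntermediateField K (AlgebraicClosure K)}
  [hFE : Fact (F ≤ E)]

/-- the field `E` as an extension of `F` -/
@[reducible] noncomputable def algFE (F E : IntermediateField K (AlgebraicClosure K))
    [hFE : Fact (F ≤ E)] : Algebra F E :=
  (IntermediateField.inclusion hFE.out).toAlgebra

attribute [local instance] algFE

theorem coe_alg (x : F) : ((algebraMap F E x : E) : AlgebraicClosure K) = (x : AlgebraicClosure K) := rfl

theorem tower : IsScalarTower K F E := IsScalarTower.of_algebraMap_eq' (by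
  apply RingHom.ext
  intro x
  apply Subtype.ext
  rfl)

attribute [local instance] tower

variable [hG : IsGalois K E]

theorem restr_coe (σ : GK K) (x : E) : ((AlgEquiv.restrictNormalHom E σ x : E) : AlgebraicClosure K) =
    σ (x : AlgebraicClosure K) := AlgEquiv.restrictNormal_commutes σ E x

/-- the restriction to `E` -/
noncomputable def resFun (F E : IntermediateField K (AlgebraicClosure K)) [hFE : Fact (F ≤ E)]
    [IsGalois K E] (σ : F.fixingSubgroup) : E ≃ₐ[F] E :=
  AlgEquiv.ofRingEquiv (f := (AlgEquiv.restrictNormalHom E (σ : GK K) : E ≃+* E)) (fun x => by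
    apply Subtype.ext
    show ((AlgEquiv.restrictNormalHom E (σ : GK K) (algebraMap F E x) : E) : AlgebraicClosure K) = _
    rw [restr_coe, coe_alg]
    exact (IntermediateField.mem_fixingSubgroup_iff F (σ : GK K)).1 σ.2 _ x.2)

theorem resFun_coe (σ : F.fixingSubgroup) (x : E) :
    ((resFun F E σ x : E) : AlgebraicClosure K) = (σ : GK K) (x : AlgebraicClosure K) := restr_coe _ _

/-- the restriction to `E` -/
noncomputable def res (F E : IntermediateField K (AlgebraicClosure K)) [hFE : Fact (F ≤ E)]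
    [IsGalois K E] : F.fixingSubgroup →* (E ≃ₐ[F] E) where
  toFun σ := resFun F E σ
  map_one' := AlgEquiv.ext fun x => Subtype.ext (resFun_coe 1 x)
  map_mul' a b := AlgEquiv.ext fun x => Subtype.ext (by
    rw [resFun_coe, AlgEquiv.mul_apply, resFun_coe, resFun_coe]
    rfl)

theorem res_coe (σ : F.fixingSubgroup) (x : E) : ((res F E σ x : E) : AlgebraicClosure K) =
    (σ : GK K) (x : AlgebraicClosure K) := resFun_coe σ x

omit hG in
theorem mem_F_of {τ : GK K} {g : E ≃ₐ[F] E} (h : ∀ x : E, τ (x : AlgebraicClosure K) = (g x : E)) :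
    τ ∈ F.fixingSubgroup := by
  rw [IntermediateField.mem_fixingSubgroup_iff]
  intro x hx
  have h1 := h (algebraMap F E ⟨x, hx⟩)
  rw [AlgEquiv.commutes] at h1
  exact h1

theorem res_eq {τ : GK K} {g : E ≃ₐ[F] E} (h : ∀ x : E, τ (x : AlgebraicClosure K) = (g x : E)) :
    res F E ⟨τ, mem_F_of h⟩ = g := by
  refine AlgEquiv.ext fun x => Subtype.ext ?_
  rw [res_coe]
  exact h x

theorem res_surj : Function.Surjective (res F E) := by
  intro g
  obtain ⟨τ, hτ⟩ := AlgEquiv.restrictNormalHom_surjective (F := K) (K₁ := E)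
    (AlgebraicClosure K) (g.restrictScalars K)
  have h : ∀ x : E, τ (x : AlgebraicClosure K) = (g x : E) := by
    intro x
    rw [← restr_coe, hτ]
    rfl
  exact ⟨⟨τ, mem_F_of h⟩, res_eq h⟩

theorem mem_of_res_one {σ : F.fixingSubgroup} (h : res F E σ = 1) : (σ : GK K) ∈ E.fixingSubgroup := by
  rw [IntermediateField.mem_fixingSubgroup_iff]
  intro x hx
  have h1 := res_coe (E := E) σ ⟨x, hx⟩
  rw [h] at h1
  exact h1.symm

variable {A : Type} [CommGroup A]

/-- homomorphisms at the finite level -/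
theorem exists_fin (φ : F.fixingSubgroup →* A) (hφ : ∀ σ : F.fixingSubgroup,
    (σ : GK K) ∈ E.fixingSubgroup → φ σ = 1) : ∃ φ' : (E ≃ₐ[F] E) →* A, ∀ σ, φ' (res F E σ) = φ σ := by
  have hle : (res F E).ker ≤ φ.ker := fun σ hσ => hφ σ (mem_of_res_one hσ)
  exact ⟨(MonoidHom.liftOfSurjective (res F E) res_surj) ⟨φ, hle⟩, fun g =>
    MonoidHom.liftOfRightInverse_comp_apply (res F E) _ _ ⟨φ, hle⟩ g⟩

variable [NumberField F] [NumberField E]

/-- the ramified primes of a homomorphism at the finite level -/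
theorem exists_inertia {φ : F.fixingSubgroup →* A} {φ' : (E ≃ₐ[F] E) →* A}
    (h : ∀ σ, φ' (res F E σ) = φ σ) {v : HeightOneSpectrum (𝓞 F)} (hv : v ∈ RamA φ') :
    ∃ P : Ideal (OO K), P.IsMaximal ∧ P.under (𝓞 F) = v.asIdeal ∧ ∃ τ : F.fixingSubgroup,
      (∀ x : OO K, (τ : GK K) • x - x ∈ P) ∧ φ τ ≠ 1 := by
  obtain ⟨w, hw, g, hg, hg1⟩ := hv
  have hwm : w.asIdeal.IsMaximal := w.isMaximal
  obtain ⟨P, hP, hPw⟩ := Ideal.exists_ideal_over_maximal_of_isIntegral (S := OO K) w.asIdeal (by
    rw [(RingHom.injective_iff_ker_eq_bot _).1 (FaithfulSMul.algebraMap_injective (𝓞 E) (OO K))]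
    exact bot_le)
  obtain ⟨τ, hτ, hτg⟩ := Pool.Agent.NH7.Sch.inr_lift (K := K) E hP (g.restrictScalars K)
    (fun b => by
      have h1 : ((g.restrictScalars K) • b - b : 𝓞 E) ∈ w.asIdeal := by
        rw [mem_iff]
        exact hg b
      rw [← hPw] at h1
      exact h1)
  have h2 : ∀ x : E, τ (x : AlgebraicClosure K) = (g x : E) := hτg
  refine ⟨P, hP, ?_, ⟨τ, mem_F_of h2⟩, hτ, ?_⟩
  · ext y
    have h3 : y ∈ v.asIdeal ↔ algebraMap (𝓞 F) (𝓞 E) y ∈ w.asIdeal := by
      rw [← hw]
      rfl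
    rw [h3, ← hPw]
    rfl
  · rw [← h, res_eq h2]
    exact hg1

end

end Pool.Agent.H16.PW
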