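import Pool.Agent.H16.PW.Emb
import Pool.Agent.H16.PW.Dir

/-!
# Functions on the embeddings and CM subfields
-/

set_option autoImplicit false
set_option linter.unusedSectionVars false
set_option linter.deprecated false
set_option maxHeartbeats 4000000
set_option synthInstance.maxHeartbeats 400000

namespace Pool.Agent.H16.PW

open NumberField IsDedekindDomain Pool.Agent.Q92.AR Pool.Agent.Q20.EX Pool.Agent.W401.Cheb
open Pool.Agent.NH7.Sch (OO Inr)

section

variable {K : Type} [Field K] [CharZero K]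

instance gal : IsGalois K (AlgebraicClosure K) := ⟨⟩

theorem group_alt (F : IntermediateField K (AlgebraicClosure K)) [FiniteDimensional K F]
    (c : GK K) (M : GK K → ℕ) (hM : ∀ g, ∀ h ∈ F.fixingSubgroup, M (g * h) = M g) (s : ℕ)
    (hs : ∀ g x, M x + M (g⁻¹ * c * g * x) = s) :
    (∀ x, 2 * M x = s) ∨ ∃ L : IntermediateField K (AlgebraicClosure K), L ≤ F ∧
      (∀ x ∈ L, c x ∈ L) ∧ (∃ x ∈ L, c x ≠ x) ∧ ∀ g : GK K, ∀ x ∈ L, (g⁻¹ * c * g) x = c x := by
  classical
  let J : Subgroup (GK K) :=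
    { carrier := {g | ∀ x, M (x * g) = M x}
      one_mem' := fun x => by rw [mul_one]
      mul_mem' := fun {a b} ha hb x => by rw [← mul_assoc, hb, ha]
      inv_mem' := fun {a} ha x => by
        have := ha (x * a⁻¹)
        rw [inv_mul_cancel_right] at this
        exact this.symm }
  have hJ : ∀ g, g ∈ J ↔ ∀ x, M (x * g) = M x := fun g => Iff.rfl
  have hFJ : F.fixingSubgroup ≤ J := fun h hh x => hM x h hh
  have hcc : ∀ a b : GK K, (a⁻¹ * c * a)⁻¹ * (b⁻¹ * c * b) ∈ J := by
    intro a b x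
    have h1 := hs (b * x⁻¹) x
    have h2 := hs (a * x⁻¹) (x * ((a⁻¹ * c * a)⁻¹ * (b⁻¹ * c * b)))
    have e1 : (b * x⁻¹)⁻¹ * c * (b * x⁻¹) * x = x * (b⁻¹ * c * b) := by group
    have e2 : (a * x⁻¹)⁻¹ * c * (a * x⁻¹) * (x * ((a⁻¹ * c * a)⁻¹ * (b⁻¹ * c * b))) =
      x * (b⁻¹ * c * b) := by group
    rw [e1] at h1
    rw [e2] at h2
    omega
  have hcg : ∀ g : GK K, c⁻¹ * (g⁻¹ * c * g) ∈ J := by
    intro g
    have h1 := hcc 1 g
    rwa [inv_one, one_mul, mul_one] at h1
  have hJo : IsOpen (J : Set (GK K)) :=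
    Subgroup.isOpen_mono hFJ (IntermediateField.fixingSubgroup_isOpen F)
  have hJc : IsClosed (J : Set (GK K)) := J.isClosed_of_isOpen hJo
  let L : IntermediateField K (AlgebraicClosure K) := IntermediateField.fixedField J
  have hL : L.fixingSubgroup = J := InfiniteGalois.fixingSubgroup_fixedField ⟨J, hJc⟩
  have hmemL : ∀ x, x ∈ L ↔ ∀ j ∈ J, j x = x := by
    intro x
    rw [IntermediateField.mem_fixedField_iff]
  by_cases hc : c ∈ J
  · left
    intro x
    have h1 := hs 1 x
    have h2 : x⁻¹ * c * x ∈ J := by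
      have := J.mul_mem hc (hcg x)
      rwa [mul_inv_cancel_left] at this
    have h3 := h2 x
    have e : x * (x⁻¹ * c * x) = 1⁻¹ * c * 1 * x := by group
    rw [e] at h3
    omega
  · right
    refine ⟨L, ?_, ?_, ?_, ?_⟩
    · intro x hx
      rw [← InfiniteGalois.fixedField_fixingSubgroup F]
      rw [IntermediateField.mem_fixedField_iff]
      intro h hh
      exact (hmemL x).1 hx h (hFJ hh)
    · intro x hx
      rw [hmemL] at hx ⊢
      intro j hj
      have h1 := J.mul_mem (hcg j⁻¹) hj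
      rw [inv_inv] at h1
      have e : c⁻¹ * (j * c * j⁻¹) * j = c⁻¹ * (j * c) := by group
      rw [e] at h1
      have h2 := hx _ h1
      have h3 : c ((c⁻¹ * (j * c)) x) = j (c x) := by
        rw [← AlgEquiv.mul_apply, ← AlgEquiv.mul_apply, mul_inv_cancel_left]
      rw [← h3, h2]
    · by_contra hcon
      push Not at hcon
      apply hc
      rw [← hL, IntermediateField.mem_fixingSubgroup_iff]
      exact hcon
    · intro g x hx
      have h1 := (hmemL x).1 hx _ (hcg g)
      have h3 : c ((c⁻¹ * (g⁻¹ * c * g)) x) = (g⁻¹ * c * g) x := by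
        rw [← AlgEquiv.mul_apply, mul_inv_cancel_left]
      rw [← h3, h1]

/-- embeddings of the algebraic closure differ by an element of the Galois group -/
theorem exists_gal {C : Type} [Field C] [IsAlgClosed C] (ι Ψ : AlgebraicClosure K →+* C)
    (h : ι.comp (algebraMap K (AlgebraicClosure K)) = Ψ.comp (algebraMap K (AlgebraicClosure K))) :
    ∃ g : GK K, ∀ x, ι (g x) = Ψ x := by
  letI : Algebra K C := (ι.comp (algebraMap K (AlgebraicClosure K))).toAlgebra
  letI : Algebra (AlgebraicClosure K) C := ι.toAlgebra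
  haveI : IsScalarTower K (AlgebraicClosure K) C := IsScalarTower.of_algebraMap_eq' rfl
  let Ψ' : AlgebraicClosure K →ₐ[K] C := { Ψ with commutes' := fun r => (RingHom.congr_fun h r).symm }
  refine ⟨Ψ'.restrictNormal' (AlgebraicClosure K), fun x => ?_⟩
  exact Ψ'.restrictNormal_commutes (AlgebraicClosure K) x

theorem exists_ext {C : Type} [Field C] [IsAlgClosed C] (ι : AlgebraicClosure K →+* C)
    (L : IntermediateField K (AlgebraicClosure K)) (ψ : L →+* C)
    (h : ι.comp (algebraMap K (AlgebraicClosure K)) = ψ.comp (algebraMap K L)) :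
    ∃ g : GK K, ∀ x : L, ψ x = ι (g x) := by
  letI : Algebra L C := ψ.toAlgebra
  let Ψ : AlgebraicClosure K →ₐ[L] C := IsAlgClosed.lift
  have hΨ : ∀ x : L, Ψ (x : AlgebraicClosure K) = ψ x := fun x => Ψ.commutes x
  obtain ⟨g, hg⟩ := exists_gal ι (Ψ : AlgebraicClosure K →+* C) (by
    rw [h]
    ext r
    exact (hΨ (algebraMap K L r)).symm)
  exact ⟨g, fun x => by rw [hg, ← hΨ]; rfl⟩

end

end Pool.Agent.H16.PW
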