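import Pool.Agent.H16.PW.Com
import Pool.Graph.R_seed8.R390.SF.BN2

/-!
# Systems of rank two with infinitely many reducible reductions: commutativity
-/

set_option autoImplicit false
set_option linter.unusedSectionVars false
set_option linter.deprecated false
set_option linter.style.haveILetI false
set_option maxHeartbeats 4000000
set_option synthInstance.maxHeartbeats 400000

namespace Pool.Agent.H16.PW

open Module Polynomial NumberField IsDedekindDomain Pool.Agent.Y800 Pool.Agent.R390.SF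
open Pool.Agent.Y126.SH (chi)

section kol

variable {k : Type} [Field k]

theorem nil_mul {a b c a' b' c' : k} (h : a ^ 2 + b * c = 0) (h' : a' ^ 2 + b' * c' = 0)
    (ht : 2 * a * a' + b * c' + c * b' = 0) :
    a' * b = b' * a ∧ c' * a = a' * c ∧ a' * a + b' * c = 0 ∧ a' * a + b * c' = 0 := by
  have e1 : (a' * b - b' * a) ^ 2 = 0 := by
    linear_combination b ^ 2 * h' + b' ^ 2 * h - b * b' * ht
  have e2 : (c' * a - a' * c) ^ 2 = 0 := by
    linear_combination c' ^ 2 * h + c ^ 2 * h' - c * c' * ht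
  have e3 : (a' * a + b' * c) ^ 2 = 0 := by
    linear_combination (a' * a + b' * c) * ht - a * a' * ht - b' * c' * h + a ^ 2 * h'
  have e4 : (a' * a + b * c') ^ 2 = 0 := by
    linear_combination (a' * a + b * c') * ht - a * a' * ht - b' * c' * h + a ^ 2 * h'
  exact ⟨sub_eq_zero.1 (pow_eq_zero_iff (two_ne_zero)|>.1 e1),
    sub_eq_zero.1 (pow_eq_zero_iff (two_ne_zero)|>.1 e2),
    pow_eq_zero_iff (two_ne_zero)|>.1 e3, pow_eq_zero_iff (two_ne_zero)|>.1 e4⟩

theorem unip_mul {M M' : Matrix (Fin 2) (Fin 2) k} (hd : M.det = 1) (hd' : M'.det = 1)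
    (ht : M.trace = 2) (ht' : M'.trace = 2) (htt : (M' * M).trace = 2) :
    (M' - 1) * (M - 1) = 0 := by
  rw [Matrix.det_fin_two] at hd hd'
  rw [Matrix.trace_fin_two] at ht ht' htt
  simp only [Matrix.mul_apply, Fin.sum_univ_two] at htt
  have e1 : M 1 1 = 2 - M 0 0 := by linear_combination ht
  have e1' : M' 1 1 = 2 - M' 0 0 := by linear_combination ht'
  obtain ⟨h1, h2, h3, h4⟩ := nil_mul (a := M 0 0 - 1) (b := M 0 1) (c := M 1 0)
    (a' := M' 0 0 - 1) (b' := M' 0 1) (c' := M' 1 0)
    (by rw [e1] at hd; linear_combination -hd) (by rw [e1'] at hd'; linear_combination -hd')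
    (by rw [e1, e1'] at htt; linear_combination htt)
  ext i j
  fin_cases i <;> fin_cases j
  · simp only [Fin.zero_eta, Matrix.mul_apply, Fin.sum_univ_two, Matrix.sub_apply, Matrix.one_apply,
      Matrix.zero_apply]
    simp
    linear_combination h3
  · simp only [Fin.zero_eta, Fin.mk_one, Matrix.mul_apply, Fin.sum_univ_two, Matrix.sub_apply,
      Matrix.one_apply, Matrix.zero_apply]
    simp
    rw [e1]
    linear_combination h1
  · simp only [Fin.zero_eta, Fin.mk_one, Matrix.mul_apply, Fin.sum_univ_two, Matrix.sub_apply,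
      Matrix.one_apply, Matrix.zero_apply]
    simp
    rw [e1']
    linear_combination h2
  · simp only [Fin.mk_one, Matrix.mul_apply, Fin.sum_univ_two, Matrix.sub_apply,
      Matrix.one_apply, Matrix.zero_apply]
    simp
    rw [e1, e1']
    linear_combination h4

/-- a normal subgroup acting unipotently on a semisimple representation acts trivially -/
theorem trivial_of_unip {G : Type} [Group G] {ρ : G →* GL (Fin 2) k} (hss : Semis ρ)
    (D : Subgroup G) [hD : D.Normal]
    (h : ∀ d ∈ D, (ρ d : Matrix (Fin 2) (Fin 2) k).det = 1 ∧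
      (ρ d : Matrix (Fin 2) (Fin 2) k).trace = 2) {d : G} (hd : d ∈ D) : ρ d = 1 := by
  have hmul : ∀ d ∈ D, ∀ d' ∈ D, ((ρ d' : Matrix (Fin 2) (Fin 2) k) - 1) *
      ((ρ d : Matrix (Fin 2) (Fin 2) k) - 1) = 0 := by
    intro d hd d' hd'
    refine unip_mul (h d hd).1 (h d' hd').1 (h d hd).2 (h d' hd').2 ?_
    have h1 := (h (d' * d) (D.mul_mem hd' hd)).2
    rw [map_mul, Units.val_mul] at h1
    exact h1
  let W : Submodule k (Fin 2 → k) :=
    { carrier := {v | ∀ d ∈ D, (ρ d : Matrix (Fin 2) (Fin 2) k).mulVec v = v}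
      add_mem' := fun {u v} hu hv d hd => by rw [Matrix.mulVec_add, hu d hd, hv d hd]
      zero_mem' := fun d hd => Matrix.mulVec_zero _
      smul_mem' := fun c v hv d hd => by rw [Matrix.mulVec_smul, hv d hd] }
  have hW : IsStable ρ W := by
    intro g v hv d hd
    have h1 : g⁻¹ * d * g ∈ D := by
      have := hD.conj_mem d hd g⁻¹
      rwa [inv_inv] at this
    have h2 := hv _ h1
    have h3 : d * g = g * (g⁻¹ * d * g) := by group
    rw [Matrix.mulVec_mulVec, ← Units.val_mul, ← map_mul, h3, map_mul, Units.val_mul,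
      ← Matrix.mulVec_mulVec, h2]
  obtain ⟨W', hW', hc⟩ := hss W hW
  have hle : W' ≤ W := by
    intro v hv d hd
    have h1 : ((ρ d : Matrix (Fin 2) (Fin 2) k) - 1).mulVec v ∈ W' := by
      rw [Matrix.sub_mulVec, Matrix.one_mulVec]
      exact W'.sub_mem (hW' d v hv) hv
    have h2 : ((ρ d : Matrix (Fin 2) (Fin 2) k) - 1).mulVec v ∈ W := by
      intro d' hd'
      have h3 : ((ρ d' : Matrix (Fin 2) (Fin 2) k) - 1).mulVec
          (((ρ d : Matrix (Fin 2) (Fin 2) k) - 1).mulVec v) = 0 := by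
        rw [Matrix.mulVec_mulVec, hmul d hd d' hd', Matrix.zero_mulVec]
      rw [Matrix.sub_mulVec, Matrix.one_mulVec, sub_eq_zero] at h3
      exact h3
    have h3 := Submodule.mem_inf.2 ⟨h2, h1⟩
    rw [hc.inf_eq_bot, Submodule.mem_bot, Matrix.sub_mulVec, Matrix.one_mulVec, sub_eq_zero] at h3
    exact h3
  have htop : W = ⊤ := by
    rw [← hc.sup_eq_top]
    exact (sup_eq_left.2 hle).symm
  apply Units.ext
  apply Matrix.ext_of_mulVec_single
  intro i
  have h1 : (Pi.single i 1 : Fin 2 → k) ∈ W := by rw [htop]; trivial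
  rw [h1 d hd, Units.val_one, Matrix.one_mulVec]

end kol

section system

variable {F : SubFld ℚ} [hF : FiniteDimensional ℚ F] {S : Finset ℕ} {w : ℕ}
  {T : IntegralSystem F 2} {ℓ : ℕ} [hℓ : Fact ℓ.Prime]

/-- determinants of commutators -/
theorem det_comm {R : Type} [CommRing R] {G : Type*} [Group G] (ρ : G →* GL (Fin 2) R) {d : G}
    (hd : d ∈ commutator G) : (ρ d : Matrix (Fin 2) (Fin 2) R).det = 1 := by
  have h1 : d ∈ ((Matrix.GeneralLinearGroup.det (n := Fin 2) (R := R)).comp ρ).ker :=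
    Abelianization.commutator_subset_ker _ hd
  rw [MonoidHom.mem_ker] at h1
  have h2 := congrArg Units.val h1
  exact h2

/-- **Commutativity.** -/
theorem comm_of_red (hT : T.PureSystem S w) (h : InfRed T) (hℓ2 : ℓ ≠ 2)
    (hss : Semis (T.rat ℓ)) {U : Submodule (ZMod ℓ) (Fin 2 → ZMod ℓ)} (hU : IsStable (T.res ℓ) U)
    (hU1 : finrank (ZMod ℓ) U = 1) (g g' : F.fixingSubgroup) :
    T.rat ℓ g * T.rat ℓ g' = T.rat ℓ g' * T.rat ℓ g := by
  have key : ∀ d ∈ commutator F.fixingSubgroup, T.rat ℓ d = 1 := by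
    intro d hd
    refine trivial_of_unip hss (commutator F.fixingSubgroup) (fun d hd => ⟨det_comm _ hd, ?_⟩) hd
    have h1 := dq_comm (ℓ := ℓ) hT h hd
    unfold dq at h1
    rw [det_comm (T.rho ℓ) hd] at h1
    have h2 := root_detChar (T.res ℓ) U hU hU1 d
    have h3 : d ∈ (detChar (T.res ℓ) U hU).ker := Abelianization.commutator_subset_ker _ hd
    rw [MonoidHom.mem_ker] at h3
    rw [h3, Units.val_one, Matrix.charpoly_fin_two, det_comm (T.res ℓ) hd] at h2
    simp only [eval_add, eval_sub, eval_pow, eval_X, eval_mul, eval_C, one_pow, mul_one] at h2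
    set t := (T.rho ℓ d : Matrix (Fin 2) (Fin 2) ℤ_[ℓ]).trace with ht
    have h4 : (T.res ℓ d : Matrix (Fin 2) (Fin 2) (ZMod ℓ)).trace = PadicInt.toZMod t := by
      rw [ht, Matrix.trace_fin_two, Matrix.trace_fin_two, map_add]
      rfl
    rw [h4] at h2
    have h5 : (t - 2) * (t + 2) = 0 := by linear_combination -h1
    have h6 : t = 2 := by
      rcases mul_eq_zero.1 h5 with h6 | h6
      · exact sub_eq_zero.1 h6
      · exfalso
        have h7 : t = -2 := by linear_combination h6
        rw [h7, map_neg, map_ofNat] at h2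
        have h8 : ((4 : ℕ) : ZMod ℓ) = 0 := by
          push_cast
          linear_combination h2
        rw [ZMod.natCast_eq_zero_iff] at h8
        have h9 : ℓ ∣ 2 ^ 2 := h8
        exact hℓ2 ((Nat.prime_dvd_prime_iff_eq hℓ.out Nat.prime_two).1 (hℓ.out.dvd_of_dvd_pow h9))
    have h7 : (T.rat ℓ d : Matrix (Fin 2) (Fin 2) ℚ_[ℓ]).trace = algebraMap ℤ_[ℓ] ℚ_[ℓ] t := by
      rw [ht, Matrix.trace_fin_two, Matrix.trace_fin_two, map_add]
      rfl
    rw [h7, h6, map_ofNat]
  have h1 : g * g' * g⁻¹ * g'⁻¹ ∈ commutator F.fixingSubgroup :=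
    Subgroup.commutator_mem_commutator (Subgroup.mem_top g) (Subgroup.mem_top g')
  have h2 := key _ h1
  rw [map_mul, map_mul, map_mul, map_inv, map_inv, mul_inv_eq_one, mul_inv_eq_iff_eq_mul] at h2
  exact h2

end system

end Pool.Agent.H16.PW
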