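import Pool.Agent.H16.PW.Kol
import Pool.Graph.R_pool_sql_team_seeded_63374d34.N180.SR.Fin

/-!
# Systems of rank two: uniqueness of the lattice at almost all primes
-/

set_option autoImplicit false
set_option linter.unusedSectionVars false
set_option linter.deprecated false
set_option linter.style.haveILetI false
set_option maxHeartbeats 4000000
set_option synthInstance.maxHeartbeats 400000

namespace Pool.Agent.H16.PW

open Module Polynomial NumberField IsDedekindDomain Pool.Agent.Y800 Pool.Agent.R390.SF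
open Pool.Agent.N180.SR

section mat

variable {R : Type} [CommRing R]

/-- the companion matrix -/
def cmp (t n : R) : Matrix (Fin 2) (Fin 2) R := !![0, -n; 1, t]

/-- the matrices commuting with a companion matrix -/
theorem comm_cmp {t n : R} {M : Matrix (Fin 2) (Fin 2) R} (h : M * cmp t n = cmp t n * M) :
    M = M 0 0 • (1 : Matrix (Fin 2) (Fin 2) R) + M 1 0 • cmp t n := by
  have h1 := congrFun (congrFun h 0) 0
  have h2 := congrFun (congrFun h 1) 0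
  simp [cmp, Matrix.mul_apply, Fin.sum_univ_two] at h1 h2
  ext i j
  fin_cases i <;> fin_cases j
  · simp [cmp]
  · simp [cmp]
    linear_combination h1
  · simp [cmp]
  · simp [cmp]
    linear_combination h2

theorem exists_cyc [IsLocalRing R] (f : Matrix (Fin 2) (Fin 2) R)
    (hf : IsUnit (f.trace ^ 2 - 4 * f.det)) :
    ∃ B : GL (Fin 2) R, f * B = B * cmp f.trace f.det := by
  have key : ∀ x y : R, IsUnit (f 1 0 * x ^ 2 + (f 1 1 - f 0 0) * x * y - f 0 1 * y ^ 2) →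
      ∃ B : GL (Fin 2) R, f * B = B * cmp f.trace f.det := by
    intro x y h
    let B : Matrix (Fin 2) (Fin 2) R :=
      !![x, f 0 0 * x + f 0 1 * y; y, f 1 0 * x + f 1 1 * y]
    have hdet : IsUnit B.det := by
      have e : B.det = f 1 0 * x ^ 2 + (f 1 1 - f 0 0) * x * y - f 0 1 * y ^ 2 := by
        simp only [B, Matrix.det_fin_two_of]
        ring
      rw [e]
      exact h
    refine ⟨Matrix.GeneralLinearGroup.mk'' B hdet, ?_⟩
    show f * B = B * cmp f.trace f.det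
    ext i j
    fin_cases i <;> fin_cases j
    · simp [B, cmp, Matrix.mul_apply, Fin.sum_univ_two]
    · simp [B, cmp, Matrix.mul_apply, Fin.sum_univ_two, Matrix.trace_fin_two, Matrix.det_fin_two]
      ring
    · simp [B, cmp, Matrix.mul_apply, Fin.sum_univ_two]
    · simp [B, cmp, Matrix.mul_apply, Fin.sum_univ_two, Matrix.trace_fin_two, Matrix.det_fin_two]
      ring
  by_cases h1 : IsUnit (f 1 0)
  · exact key 1 0 (by simpa using h1)
  by_cases h2 : IsUnit (f 0 1)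
  · exact key 0 1 (by simpa using h2)
  refine key 1 1 ?_
  by_contra h3
  have n1 : f 1 0 ∈ IsLocalRing.maximalIdeal R := h1
  have n2 : f 0 1 ∈ IsLocalRing.maximalIdeal R := h2
  have n3 : f 1 0 * 1 ^ 2 + (f 1 1 - f 0 0) * 1 * 1 - f 0 1 * 1 ^ 2 ∈
    IsLocalRing.maximalIdeal R := h3
  have n4 : f 1 1 - f 0 0 ∈ IsLocalRing.maximalIdeal R := by
    have e : f 1 1 - f 0 0 = (f 1 0 * 1 ^ 2 + (f 1 1 - f 0 0) * 1 * 1 - f 0 1 * 1 ^ 2) - f 1 0 +
        f 0 1 := by ring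
    rw [e]
    exact Ideal.add_mem _ (Ideal.sub_mem _ n3 n1) n2
  have n5 : f.trace ^ 2 - 4 * f.det ∈ IsLocalRing.maximalIdeal R := by
    have e : f.trace ^ 2 - 4 * f.det = (f 1 1 - f 0 0) * (f 1 1 - f 0 0) + 4 * f 0 1 * f 1 0 := by
      rw [Matrix.trace_fin_two, Matrix.det_fin_two]
      ring
    rw [e]
    exact Ideal.add_mem _ (Ideal.mul_mem_left _ _ n4) (Ideal.mul_mem_left _ _ n1)
  exact n5 hf

end mat

section system

variable {F : SubFld ℚ} [hF : FiniteDimensional ℚ F] {S : Finset ℕ} {w : ℕ}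
  {T : IntegralSystem F 2} {ℓ : ℕ} [hℓ : Fact ℓ.Prime]

theorem rat_qm (T : IntegralSystem F 2) (g : F.fixingSubgroup) :
    (T.rat ℓ g : Matrix (Fin 2) (Fin 2) ℚ_[ℓ]) = qm (T.rho ℓ g : Matrix (Fin 2) (Fin 2) ℤ_[ℓ]) := rfl

/-- the commutative case with a regular element -/
theorem one_of_regular (hc : ∀ g g' : F.fixingSubgroup, T.rat ℓ g * T.rat ℓ g' =
    T.rat ℓ g' * T.rat ℓ g) {s : F.fixingSubgroup}
    (hs : IsUnit ((T.rho ℓ s : Matrix (Fin 2) (Fin 2) ℤ_[ℓ]).trace ^ 2 -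
      4 * (T.rho ℓ s : Matrix (Fin 2) (Fin 2) ℤ_[ℓ]).det)) : OneLattice ℓ T := by
  intro T' hT'
  obtain ⟨A, hA⟩ := hT'.rat
  set f : Matrix (Fin 2) (Fin 2) ℤ_[ℓ] := (T.rho ℓ s : Matrix (Fin 2) (Fin 2) ℤ_[ℓ]) with hf
  set f' : Matrix (Fin 2) (Fin 2) ℤ_[ℓ] := (T'.rho ℓ s : Matrix (Fin 2) (Fin 2) ℤ_[ℓ]) with hf'
  have hinj : Function.Injective (algebraMap ℤ_[ℓ] ℚ_[ℓ]) :=
    FaithfulSMul.algebraMap_injective ℤ_[ℓ] ℚ_[ℓ]
  have hqf : qm f' = (A⁻¹ : GL (Fin 2) ℚ_[ℓ]).val * qm f * A.val := by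
    have h1 := congrArg Units.val (hA s)
    rw [Units.val_mul, Units.val_mul] at h1
    exact h1
  have htr : f'.trace = f.trace := by
    apply hinj
    have h1 : ∀ X : Matrix (Fin 2) (Fin 2) ℤ_[ℓ], algebraMap ℤ_[ℓ] ℚ_[ℓ] X.trace =
        (qm X).trace := by
      intro X
      rw [Matrix.trace_fin_two, Matrix.trace_fin_two, map_add]
      rfl
    rw [h1, h1, hqf, Matrix.trace_mul_comm, ← mul_assoc, Units.mul_inv, one_mul]
  have hdet : f'.det = f.det := by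
    apply hinj
    rw [← qm_det, ← qm_det, hqf, Matrix.det_mul, Matrix.det_mul, mul_comm, ← mul_assoc,
      ← Matrix.det_mul, Units.mul_inv, Matrix.det_one, one_mul]
  obtain ⟨B, hB⟩ := exists_cyc f hs
  obtain ⟨B', hB'⟩ := exists_cyc f' (by rw [htr, hdet]; exact hs)
  rw [htr, hdet] at hB'
  refine ⟨B' * B⁻¹, fun g => ?_⟩
  -- the matrix of `g`
  set M : Matrix (Fin 2) (Fin 2) ℤ_[ℓ] := (T.rho ℓ g : Matrix (Fin 2) (Fin 2) ℤ_[ℓ]) with hM
  have hMf : M * f = f * M := by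
    apply qm_inj
    rw [map_mul, map_mul]
    have h1 := congrArg Units.val (hc g s)
    rw [Units.val_mul, Units.val_mul] at h1
    exact h1
  have hC : (B⁻¹ : GL (Fin 2) ℤ_[ℓ]).val * f * B.val = cmp f.trace f.det := by
    rw [mul_assoc, hB, ← mul_assoc, Units.inv_mul, one_mul]
  have h1 := comm_cmp (M := (B⁻¹ : GL (Fin 2) ℤ_[ℓ]).val * M * B.val) (t := f.trace) (n := f.det) (by
    rw [← hC]
    calc _ = (B⁻¹ : GL (Fin 2) ℤ_[ℓ]).val * M * (B.val * (B⁻¹ : GL (Fin 2) ℤ_[ℓ]).val) * f * B.val := by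
          noncomm_ring
      _ = (B⁻¹ : GL (Fin 2) ℤ_[ℓ]).val * (M * f) * B.val := by
          rw [Units.mul_inv]
          noncomm_ring
      _ = (B⁻¹ : GL (Fin 2) ℤ_[ℓ]).val * f * (B.val * (B⁻¹ : GL (Fin 2) ℤ_[ℓ]).val) * M * B.val := by
          rw [Units.mul_inv, hMf]
          noncomm_ring
      _ = _ := by noncomm_ring)
  set x := ((B⁻¹ : GL (Fin 2) ℤ_[ℓ]).val * M * B.val) 0 0 with hx
  set y := ((B⁻¹ : GL (Fin 2) ℤ_[ℓ]).val * M * B.val) 1 0 with hy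
  have h2 : M = x • (1 : Matrix (Fin 2) (Fin 2) ℤ_[ℓ]) + y • f := by
    have h3 : M = B.val * ((B⁻¹ : GL (Fin 2) ℤ_[ℓ]).val * M * B.val) *
        (B⁻¹ : GL (Fin 2) ℤ_[ℓ]).val := by
      rw [← mul_assoc, ← mul_assoc, Units.mul_inv, one_mul, mul_assoc, Units.mul_inv, mul_one]
    rw [h3, h1, ← hC, mul_add, add_mul, mul_smul_comm, smul_mul_assoc, mul_one, Units.mul_inv,
      mul_smul_comm, smul_mul_assoc, ← mul_assoc, ← mul_assoc, Units.mul_inv, one_mul, mul_assoc,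
      Units.mul_inv, mul_one]
  have h3 : (T'.rho ℓ g : Matrix (Fin 2) (Fin 2) ℤ_[ℓ]) =
      x • (1 : Matrix (Fin 2) (Fin 2) ℤ_[ℓ]) + y • f' := by
    apply qm_inj
    have h4 := congrArg Units.val (hA g)
    rw [Units.val_mul, Units.val_mul] at h4
    have h5 : ∀ (c : ℤ_[ℓ]) (X : Matrix (Fin 2) (Fin 2) ℤ_[ℓ]), qm (c • X) =
        (c : ℚ_[ℓ]) • qm X := by
      intro c X
      ext i j
      show algebraMap ℤ_[ℓ] ℚ_[ℓ] (c * X i j) = _
      rw [map_mul]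
      rfl
    have h6 : qm (T'.rho ℓ g : Matrix (Fin 2) (Fin 2) ℤ_[ℓ]) =
        (A⁻¹ : GL (Fin 2) ℚ_[ℓ]).val * qm M * A.val := h4
    rw [h6, h2, map_add, map_add, h5, h5, h5, hqf, map_one, mul_add, add_mul, mul_smul_comm,
      smul_mul_assoc, mul_one, Units.inv_mul, mul_smul_comm, smul_mul_assoc]
  apply Units.ext
  rw [mul_inv_rev, inv_inv, h3, Units.val_mul, Units.val_mul, ← hM, h2, Units.val_mul B B'⁻¹,
    Units.val_mul B' B⁻¹]
  have h4 : f' = B'.val * cmp f.trace f.det * (B'⁻¹ : GL (Fin 2) ℤ_[ℓ]).val := by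
    rw [← hB', mul_assoc, Units.mul_inv, mul_one]
  rw [h4, ← hC]
  have h5 : B'.val * (B⁻¹ : GL (Fin 2) ℤ_[ℓ]).val * (x • (1 : Matrix (Fin 2) (Fin 2) ℤ_[ℓ]) + y • f) *
      (B.val * (B'⁻¹ : GL (Fin 2) ℤ_[ℓ]).val) =
      x • (B'.val * ((B⁻¹ : GL (Fin 2) ℤ_[ℓ]).val * B.val) * (B'⁻¹ : GL (Fin 2) ℤ_[ℓ]).val) +
      y • (B'.val * ((B⁻¹ : GL (Fin 2) ℤ_[ℓ]).val * f * B.val) *
        (B'⁻¹ : GL (Fin 2) ℤ_[ℓ]).val) := by
    rw [mul_add, add_mul, mul_smul_comm, smul_mul_assoc, mul_smul_comm, smul_mul_assoc, mul_one]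
    simp only [mul_assoc]
  rw [h5, Units.inv_mul, mul_one, Units.mul_inv]

/-- the commutative case without regular elements -/
theorem one_of_scalar (hc : ∀ g g' : F.fixingSubgroup, T.rat ℓ g * T.rat ℓ g' =
    T.rat ℓ g' * T.rat ℓ g) (hss : Semis (T.rat ℓ))
    (hd : ∀ g : F.fixingSubgroup, (T.rho ℓ g : Matrix (Fin 2) (Fin 2) ℤ_[ℓ]).trace ^ 2 -
      4 * (T.rho ℓ g : Matrix (Fin 2) (Fin 2) ℤ_[ℓ]).det = 0) : OneLattice ℓ T := by
  have key : ∀ g : F.fixingSubgroup, ∃ c : ℚ_[ℓ], (T.rat ℓ g : Matrix (Fin 2) (Fin 2) ℚ_[ℓ]) =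
      c • (1 : Matrix (Fin 2) (Fin 2) ℚ_[ℓ]) := by
    intro g
    set M := (T.rat ℓ g : Matrix (Fin 2) (Fin 2) ℚ_[ℓ]) with hM
    have hdM : M.trace ^ 2 - 4 * M.det = 0 := by
      have h1 := congrArg (algebraMap ℤ_[ℓ] ℚ_[ℓ]) (hd g)
      rw [map_sub, map_pow, map_mul, map_ofNat, map_zero, ← qm_det] at h1
      have h2 : algebraMap ℤ_[ℓ] ℚ_[ℓ] (T.rho ℓ g : Matrix (Fin 2) (Fin 2) ℤ_[ℓ]).trace =
          M.trace := by
        rw [Matrix.trace_fin_two, Matrix.trace_fin_two, map_add]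
        rfl
      rw [h2] at h1
      exact h1
    set c : ℚ_[ℓ] := M.trace / 2 with hc'
    refine ⟨c, ?_⟩
    have hsq : (M - c • (1 : Matrix (Fin 2) (Fin 2) ℚ_[ℓ])) * (M - c • 1) = 0 := by
      rw [Matrix.trace_fin_two, Matrix.det_fin_two] at hdM
      rw [Matrix.trace_fin_two] at hc'
      have h2 : (2 : ℚ_[ℓ]) ≠ 0 := two_ne_zero
      have e0 : M 0 0 + M 1 1 = 2 * c := by rw [hc']; field_simp
      have e1 : M 1 1 = 2 * c - M 0 0 := by linear_combination e0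
      rw [e1] at hdM
      have hdM' : (M 0 0 - c) ^ 2 + M 0 1 * M 1 0 = 0 := by linear_combination (1/4) * hdM
      ext i j
      fin_cases i <;> fin_cases j
      · simp [Matrix.mul_apply, Fin.sum_univ_two]
        linear_combination hdM'
      · simp [Matrix.mul_apply, Fin.sum_univ_two]
        rw [e1]
        ring
      · simp [Matrix.mul_apply, Fin.sum_univ_two]
        rw [e1]
        ring
      · simp [Matrix.mul_apply, Fin.sum_univ_two]
        rw [e1]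
        linear_combination hdM'
    let W : Submodule ℚ_[ℓ] (Fin 2 → ℚ_[ℓ]) := LinearMap.ker (Matrix.mulVecLin
      (M - c • (1 : Matrix (Fin 2) (Fin 2) ℚ_[ℓ])))
    have hWmem : ∀ v, v ∈ W ↔ (M - c • (1 : Matrix (Fin 2) (Fin 2) ℚ_[ℓ])).mulVec v = 0 := by
      intro v
      rw [LinearMap.mem_ker, Matrix.mulVecLin_apply]
    have hcm : ∀ g' : F.fixingSubgroup, (M - c • (1 : Matrix (Fin 2) (Fin 2) ℚ_[ℓ])) *
        (T.rat ℓ g' : Matrix (Fin 2) (Fin 2) ℚ_[ℓ]) =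
        (T.rat ℓ g' : Matrix (Fin 2) (Fin 2) ℚ_[ℓ]) * (M - c • 1) := by
      intro g'
      have h1 := congrArg Units.val (hc g g')
      rw [Units.val_mul, Units.val_mul] at h1
      rw [sub_mul, mul_sub, smul_mul_assoc, mul_smul_comm, one_mul, mul_one, ← h1]
    have hW : IsStable (T.rat ℓ) W := by
      intro g' v hv
      rw [hWmem] at hv ⊢
      rw [Matrix.mulVec_mulVec, hcm, ← Matrix.mulVec_mulVec, hv, Matrix.mulVec_zero]
    obtain ⟨W', hW', hcomp⟩ := hss W hW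
    have hle : W' ≤ W := by
      intro v hv
      have h1 : (M - c • (1 : Matrix (Fin 2) (Fin 2) ℚ_[ℓ])).mulVec v ∈ W' := by
        rw [Matrix.sub_mulVec, Matrix.smul_mulVec, Matrix.one_mulVec]
        exact W'.sub_mem (hW' g v hv) (W'.smul_mem c hv)
      have h2 : (M - c • (1 : Matrix (Fin 2) (Fin 2) ℚ_[ℓ])).mulVec v ∈ W := by
        rw [hWmem, Matrix.mulVec_mulVec, hsq, Matrix.zero_mulVec]
      have h3 := Submodule.mem_inf.2 ⟨h2, h1⟩
      rw [hcomp.inf_eq_bot, Submodule.mem_bot] at h3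
      rw [hWmem]
      exact h3
    have htop : W = ⊤ := by
      rw [← hcomp.sup_eq_top]
      exact (sup_eq_left.2 hle).symm
    rw [← sub_eq_zero]
    apply Matrix.ext_of_mulVec_single
    intro i
    have h1 : (Pi.single i 1 : Fin 2 → ℚ_[ℓ]) ∈ W := by rw [htop]; trivial
    rw [hWmem] at h1
    rw [h1, Matrix.zero_mulVec]
  intro T' hT'
  obtain ⟨A, hA⟩ := hT'.rat
  refine ⟨1, fun g => ?_⟩
  rw [one_mul, inv_one, mul_one]
  apply Units.ext
  apply qm_inj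
  have h1 := congrArg Units.val (hA g)
  rw [Units.val_mul, Units.val_mul] at h1
  obtain ⟨c, hc⟩ := key g
  rw [hc, mul_smul_comm, smul_mul_assoc, mul_one, Units.inv_mul, ← hc] at h1
  exact h1

/-- the irreducible case -/
theorem one_of_irr (h : ResIrreducibleAt ℓ T) : OneLattice ℓ T := by
  intro T' hT'
  obtain ⟨A, hA⟩ := hT'.rat
  obtain ⟨B, hB, hBρ⟩ := exists_primitive two_pos (ρ := T.rho ℓ) (ρ₁ := T'.rho ℓ) A (fun g => by
    have h1 : T.rat ℓ g * A = A * T'.rat ℓ g := by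
      rw [hA g]
      group
    exact congrArg Units.val h1)
  exact lat_res h hB hBρ

theorem red_line (h : ¬ ResIrreducibleAt ℓ T) : ∃ U : Submodule (ZMod ℓ) (Fin 2 → ZMod ℓ),
    IsStable (T.res ℓ) U ∧ finrank (ZMod ℓ) U = 1 := by
  unfold ResIrreducibleAt at h
  push Not at h
  obtain ⟨U, hU, h0, h1⟩ := h
  refine ⟨U, hU, ?_⟩
  have hdim : finrank (ZMod ℓ) (Fin 2 → ZMod ℓ) = 2 := finrank_fin_fun (ZMod ℓ)
  have hle := Submodule.finrank_le U
  rw [hdim] at hle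
  have h2 : finrank (ZMod ℓ) U ≠ 0 := fun h => h0 (Submodule.finrank_eq_zero.1 h)
  have h3 : finrank (ZMod ℓ) U ≠ 2 := fun h => h1 (Submodule.eq_top_of_finrank_eq (by rw [hdim, h]))
  omega

theorem continuous_disc (hT : T.GoodSystem S w) : Continuous fun g : F.fixingSubgroup =>
    (T.rho ℓ g : Matrix (Fin 2) (Fin 2) ℤ_[ℓ]).trace ^ 2 -
      4 * (T.rho ℓ g : Matrix (Fin 2) (Fin 2) ℤ_[ℓ]).det := by
  have h := hT.continuous ℓ
  exact (h.matrix_trace.pow 2).sub (continuous_const.mul h.matrix_det)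

end system

/-- **Uniqueness of the lattice at almost all primes, rank two.** -/
theorem one_two {F : SubFld ℚ} [hF : FiniteDimensional ℚ F] {S : Finset ℕ} {w : ℕ} {Λ : Set ℕ}
    {T : IntegralSystem F 2} (hT : T.PureSystem S w)
    (hss : ∀ (ℓ : ℕ) [Fact ℓ.Prime], ℓ ∈ Λ → Semis (T.rat ℓ)) :
    ForAlmostAll Λ (fun ℓ _ => OneLattice ℓ T) := by
  classical
  by_cases hinf : InfRed T
  swap
  · unfold InfRed at hinf
    push Not at hinf
    obtain ⟨B, hB⟩ := hinf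
    refine ⟨B, fun ℓ hℓ _ hlt => one_of_irr ?_⟩
    by_contra hcon
    obtain ⟨U, hU, hU1⟩ := red_line hcon
    exact hB ℓ hℓ hlt U hU hU1
  by_cases hreg : ∃ p : ℕ, p.Prime ∧ p ∉ S ∧ ∃ P : Ideal ZBar, P.IsMaximal ∧ (p : ZBar) ∈ P ∧
      ∃ s : F.fixingSubgroup, IsGeomFrob p P s ∧
        (T.poly (P.under (𝓞 F))).coeff 1 ^ 2 - 4 * (T.poly (P.under (𝓞 F))).coeff 0 ≠ 0
  · obtain ⟨p, hp, hpS, P, hP, hpP, s, hs, hne⟩ := hreg
    refine ⟨max 2 (max p ((T.poly (P.under (𝓞 F))).coeff 1 ^ 2 -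
      4 * (T.poly (P.under (𝓞 F))).coeff 0).natAbs), fun ℓ hℓ hΛ hlt => ?_⟩
    simp only [max_lt_iff] at hlt
    obtain ⟨h2, hpl, hdl⟩ := hlt
    by_cases hirr : ResIrreducibleAt ℓ T
    · exact one_of_irr hirr
    obtain ⟨U, hU, hU1⟩ := red_line hirr
    have hc := comm_of_red hT hinf (by omega) (hss ℓ hΛ) hU hU1
    refine one_of_regular hc (s := s) ?_
    obtain ⟨htr, hdet⟩ := frob_two (ℓ := ℓ) hT.toGoodSystem hp hpS (by omega) hP hpP hs
    rw [htr, hdet]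
    set D : ℤ := (T.poly (P.under (𝓞 F))).coeff 1 ^ 2 - 4 * (T.poly (P.under (𝓞 F))).coeff 0 with hD
    have e : (-((T.poly (P.under (𝓞 F))).coeff 1 : ℤ_[ℓ])) ^ 2 -
        4 * ((T.poly (P.under (𝓞 F))).coeff 0 : ℤ_[ℓ]) = ((D : ℤ) : ℤ_[ℓ]) := by
      rw [hD]
      push_cast
      ring
    rw [e, PadicInt.isUnit_iff]
    have h3 : ¬ ((ℓ : ℤ) ∣ D) := by
      intro hdvd
      have h4 := Int.natAbs_dvd_natAbs.2 hdvd
      rw [Int.natAbs_natCast] at h4
      exact absurd (Nat.le_of_dvd (Int.natAbs_pos.2 hne) h4) (not_le.2 hdl)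
    refine le_antisymm (PadicInt.norm_le_one _) ?_
    by_contra hcon
    push Not at hcon
    exact h3 ((PadicInt.norm_int_lt_one_iff_dvd _).1 hcon)
  · push Not at hreg
    refine ⟨2, fun ℓ hℓ hΛ h2 => ?_⟩
    by_cases hirr : ResIrreducibleAt ℓ T
    · exact one_of_irr hirr
    obtain ⟨U, hU, hU1⟩ := red_line hirr
    have hc := comm_of_red hT hinf (by omega) (hss ℓ hΛ) hU hU1
    refine one_of_scalar hc (hss ℓ hΛ) fun g => ?_
    let C : Set F.fixingSubgroup := {g | (T.rho ℓ g : Matrix (Fin 2) (Fin 2) ℤ_[ℓ]).trace ^ 2 -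
      4 * (T.rho ℓ g : Matrix (Fin 2) (Fin 2) ℤ_[ℓ]).det = 0}
    have hC : IsClosed C := isClosed_eq (continuous_disc hT.toGoodSystem) continuous_const
    refine closed_univ' C hC (S ∪ {ℓ}) ?_ g
    intro p hp hpS P hP hpP s hs
    simp only [Finset.mem_union, not_or, Finset.mem_singleton] at hpS
    obtain ⟨htr, hdet⟩ := frob_two (ℓ := ℓ) hT.toGoodSystem hp hpS.1 (Ne.symm hpS.2) hP hpP hs
    show _ = _
    rw [htr, hdet]
    have h3 := congrArg (Int.cast : ℤ → ℤ_[ℓ]) (hreg p hp hpS.1 P hP hpP s hs)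
    push_cast at h3
    linear_combination h3

end Pool.Agent.H16.PW
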