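import Pool.Agent.H16.PW.Grp

/-!
# Relations between the conjugates of the units are trivial in fields without CM subfields
-/

set_option autoImplicit false
set_option linter.unusedSectionVars false
set_option linter.deprecated false
set_option linter.style.haveILetI false
set_option maxHeartbeats 4000000
set_option synthInstance.maxHeartbeats 400000

namespace Pool.Agent.H16.PW

open NumberField IsDedekindDomain Pool.Agent.Q92.AR Pool.Agent.Q20.EX Pool.Agent.W401.Cheb
open Pool.Agent.NH7.Sch (OO Inr)

section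

variable {K : Type} [Field K] [NumberField K]

theorem exists_iota : ∃ ι : AlgebraicClosure K →+* ℂ, True := by
  let ψ : K →+* ℂ := Classical.choice (inferInstance : Nonempty _)
  letI : Algebra K ℂ := ψ.toAlgebra
  let Ψ : AlgebraicClosure K →ₐ[K] ℂ := IsAlgClosed.lift
  exact ⟨(Ψ : AlgebraicClosure K →+* ℂ), trivial⟩

variable {F : IntermediateField K (AlgebraicClosure K)} [NumberField F] [FiniteDimensional K F]

/-- the embedding defined by an element of the Galois group -/
noncomputable def rs (F : IntermediateField K (AlgebraicClosure K)) (g : GK K) :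
    F →+* AlgebraicClosure K :=
  ((g : AlgebraicClosure K ≃+* AlgebraicClosure K) : AlgebraicClosure K →+* AlgebraicClosure K).comp
    (algebraMap F (AlgebraicClosure K))

theorem rs_apply (g : GK K) (x : F) : rs F g x = g x := rfl

/-- the action of the Galois group on the embeddings -/
noncomputable def act (g : GK K) (τ : F →+* AlgebraicClosure K) : F →+* AlgebraicClosure K :=
  ((g : AlgebraicClosure K ≃+* AlgebraicClosure K) : AlgebraicClosure K →+* AlgebraicClosure K).comp τ

theorem act_apply (g : GK K) (τ : F →+* AlgebraicClosure K) (x : F) : act g τ x = g (τ x) := rfl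

theorem act_rs (g h : GK K) : act g (rs F h) = rs F (g * h) := rfl

/-- the action as a permutation -/
noncomputable def actE (g : GK K) : (F →+* AlgebraicClosure K) ≃ (F →+* AlgebraicClosure K) where
  toFun := act g
  invFun := act g⁻¹
  left_inv τ := by
    ext x
    rw [act_apply, act_apply, ← AlgEquiv.mul_apply, inv_mul_cancel]
    rfl
  right_inv τ := by
    ext x
    rw [act_apply, act_apply, ← AlgEquiv.mul_apply, mul_inv_cancel]
    rfl

theorem act_act_inv (g : GK K) (τ : F →+* AlgebraicClosure K) : act g (act g⁻¹ τ) = τ :=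
  (actE g).right_inv τ

/-- **Relations between the conjugates of the units.** -/
theorem par (hK : ∀ (C : Type) [Field C] (f g : K →+* C), f = g)
    (hF : ∀ L : IntermediateField K (AlgebraicClosure K), L ≤ F → ¬ IsCMField L)
    (m : (F →+* AlgebraicClosure K) → ℕ)
    (hrel : ∀ u : (𝓞 F)ˣ, ∏ τ : F →+* AlgebraicClosure K, (τ ((u : 𝓞 F) : F)) ^ (m τ) = 1)
    (τ τ' : F →+* AlgebraicClosure K) : m τ = m τ' := by
  classical
  obtain ⟨ι, -⟩ := exists_iota (K := K)
  obtain ⟨c, hc⟩ := exists_gal ι ((starRingEnd ℂ).comp ι) (hK _ _ _)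
  have hc' : ∀ x, ι (c x) = (starRingEnd ℂ) (ι x) := hc
  have hsurj : ∀ τ : F →+* AlgebraicClosure K, ∃ g : GK K, τ = rs F g := by
    intro τ
    obtain ⟨g, hg⟩ := exists_ext (RingHom.id (AlgebraicClosure K)) F τ (hK _ _ _)
    exact ⟨g, RingHom.ext hg⟩
  -- the embeddings into `ℂ`
  let e : (F →+* AlgebraicClosure K) ≃ (F →+* ℂ) := Equiv.ofBijective (fun τ => ι.comp τ) (by
    constructor
    · intro a b hab
      ext x
      exact ι.injective (RingHom.congr_fun hab x)
    · intro ψ
      obtain ⟨g, hg⟩ := exists_ext ι F ψ (hK _ _ _)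
      exact ⟨rs F g, RingHom.ext fun x => (hg x).symm⟩)
  have he : ∀ τ x, e τ x = ι (τ x) := fun τ x => rfl
  have hconj : ∀ τ, ComplexEmbedding.conjugate (e τ) = e (act c τ) := by
    intro τ
    ext x
    rw [ComplexEmbedding.conjugate_coe_eq, he, he, act_apply, hc']
  -- the relation for the conjugates of `m`
  have h1 : ∀ g : GK K, ∃ s : ℝ, ∀ τ : F →+* AlgebraicClosure K,
      (m (act g⁻¹ τ) : ℝ) + m (act g⁻¹ (act c τ)) = s := by
    intro g
    obtain ⟨s, hs⟩ := log_const (F := F) (fun ψ => (m (act g⁻¹ (e.symm ψ)) : ℝ)) (by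
      intro u
      have h2 : ∏ τ : F →+* AlgebraicClosure K, (τ ((u : 𝓞 F) : F)) ^ (m (act g⁻¹ τ)) = 1 := by
        have h3 : g (∏ τ : F →+* AlgebraicClosure K, (τ ((u : 𝓞 F) : F)) ^ (m τ)) = 1 := by
          rw [hrel u, map_one]
        rw [map_prod] at h3
        rw [← h3]
        symm
        refine Fintype.prod_equiv (actE g) _ _ fun τ => ?_
        rw [map_pow]
        show _ = (act g τ _) ^ m (act g⁻¹ (act g τ))
        rw [show act g⁻¹ (act g τ) = τ from (actE g).left_inv τ, act_apply]
      have h4 := congrArg ι h2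
      rw [map_prod, map_one] at h4
      have h5 : ∏ ψ : F →+* ℂ, (ψ ((u : 𝓞 F) : F)) ^ (m (act g⁻¹ (e.symm ψ))) = 1 := by
        rw [← h4]
        symm
        refine Fintype.prod_equiv e _ _ fun τ => ?_
        rw [map_pow, Equiv.symm_apply_apply, he]
      have h6 := congrArg (fun z : ℂ => Real.log ‖z‖) h5
      simp only [norm_prod, norm_pow, norm_one, Real.log_one] at h6
      rw [Real.log_prod] at h6
      · rw [← h6]
        refine Finset.sum_congr rfl fun ψ _ => ?_
        rw [Real.log_pow]
      · intro ψ _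
        refine pow_ne_zero _ ?_
        rw [norm_ne_zero_iff, map_ne_zero, Ne, RingOfIntegers.coe_eq_zero_iff]
        exact u.ne_zero)
    refine ⟨s, fun τ => ?_⟩
    have h7 := hs (e τ)
    rw [hconj, Equiv.symm_apply_apply, Equiv.symm_apply_apply] at h7
    exact h7
  choose s hs using h1
  have hne : (Fintype.card (F →+* AlgebraicClosure K) : ℝ) ≠ 0 := by
    have : Nonempty (F →+* AlgebraicClosure K) := ⟨τ⟩
    exact_mod_cast Fintype.card_ne_zero
  have hsum : ∀ g, s g * (Fintype.card (F →+* AlgebraicClosure K) : ℝ) =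
      2 * ∑ τ : F →+* AlgebraicClosure K, (m τ : ℝ) := by
    intro g
    have h2 : ∑ τ : F →+* AlgebraicClosure K, ((m (act g⁻¹ τ) : ℝ) + m (act g⁻¹ (act c τ))) =
        ∑ τ : F →+* AlgebraicClosure K, s g := Finset.sum_congr rfl fun τ _ => hs g τ
    rw [Finset.sum_add_distrib, Finset.sum_const, Finset.card_univ, nsmul_eq_mul] at h2
    have h3 : ∑ τ : F →+* AlgebraicClosure K, (m (act g⁻¹ τ) : ℝ) =
        ∑ τ : F →+* AlgebraicClosure K, (m τ : ℝ) :=
      Fintype.sum_equiv (actE g⁻¹) _ _ fun τ => rfl
    have h4 : ∑ τ : F →+* AlgebraicClosure K, (m (act g⁻¹ (act c τ)) : ℝ) =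
        ∑ τ : F →+* AlgebraicClosure K, (m τ : ℝ) :=
      Fintype.sum_equiv ((actE c).trans (actE g⁻¹)) _ _ fun τ => rfl
    rw [h3, h4] at h2
    linarith
  have hs1 : ∀ g, s g = s 1 := fun g => mul_right_cancel₀ hne (by rw [hsum, hsum])
  let M : GK K → ℕ := fun g => m (rs F g)
  let s₀ : ℕ := M 1 + M c
  have hs0 : s 1 = s₀ := by
    rw [← hs 1 (rs F 1), act_rs, act_rs, act_rs, inv_one, one_mul, one_mul, mul_one]
    simp only [s₀, M]
    push_cast
    rfl
  rcases group_alt F c M (fun g h hh => by
    have : rs F (g * h) = rs F g := by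
      ext x
      rw [rs_apply, rs_apply, AlgEquiv.mul_apply]
      congr 1
      exact (IntermediateField.mem_fixingSubgroup_iff F h).1 hh _ x.2
    simp only [M, this]) s₀ (fun g x => by
    have h2 := hs g (rs F (g * x))
    rw [act_rs, act_rs, act_rs, hs1, hs0, inv_mul_cancel_left] at h2
    have e1 : g⁻¹ * (c * (g * x)) = g⁻¹ * c * g * x := by group
    rw [e1] at h2
    simp only [M]
    exact_mod_cast h2) with h | ⟨L, hLF, hL1, ⟨x₀, hx0, hx1⟩, hL2⟩
  · obtain ⟨g, rfl⟩ := hsurj τ
    obtain ⟨g', rfl⟩ := hsurj τ'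
    have h2 := h g
    have h3 := h g'
    simp only [M] at h2 h3
    omega
  · exfalso
    have hfin : FiniteDimensional K L :=
      FiniteDimensional.of_injective (IntermediateField.inclusion hLF).toLinearMap
        (IntermediateField.inclusion_injective hLF)
    have hNL : NumberField L := by
      have : FiniteDimensional ℚ L := FiniteDimensional.trans ℚ K L
      exact ⟨⟩
    have hinv : ∀ x, c (c x) = x := by
      intro x
      apply ι.injective
      rw [hc', hc', Complex.conj_conj]
    let κ : L ≃+* L :=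
      { toFun := fun x => ⟨c x, hL1 _ x.2⟩
        invFun := fun x => ⟨c x, hL1 _ x.2⟩
        left_inv := fun x => Subtype.ext (hinv _)
        right_inv := fun x => Subtype.ext (hinv _)
        map_mul' := fun x y => Subtype.ext (map_mul c _ _)
        map_add' := fun x y => Subtype.ext (map_add c _ _) }
    refine hF L hLF (cm_of L κ ?_ ?_)
    · intro h
      apply hx1
      have h2 := congrArg (fun k : L ≃+* L => ((k ⟨x₀, hx0⟩ : L) : AlgebraicClosure K)) h
      exact h2
    · intro ψ x
      obtain ⟨g, hg⟩ := exists_ext ι L ψ (hK _ _ _)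
      rw [hg, hg, ← hc']
      congr 1
      show c (g x) = g (c x)
      rw [← hL2 g _ x.2, ← AlgEquiv.mul_apply, ← AlgEquiv.mul_apply]
      congr 1
      group

end

end Pool.Agent.H16.PW
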