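import Pool.Agent.H16.PW.Prm

/-!
# The values of characters at Frobenius elements of principal primes
-/

set_option autoImplicit false
set_option linter.unusedSectionVars false
set_option linter.deprecated false
set_option maxHeartbeats 4000000
set_option synthInstance.maxHeartbeats 400000

namespace Pool.Agent.H16.PW

open NumberField IsDedekindDomain Pool.Agent.Q92.AR Pool.Agent.Q20.EX Pool.Agent.W401.Cheb
open Pool.Agent.NH7.Sch (OO Inr)

section

variable {K : Type} [Field K] [NumberField K] {F : IntermediateField K (AlgebraicClosure K)}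
  [NumberField F] [FiniteDimensional K F]

attribute [local instance] algFE tower

/-- a congruence of integers -/
theorem cg_of_zmod {P : Ideal (OO K)} (hP : P.IsMaximal) {m : ℕ} {x y : ℤ}
    (h : (x : ZMod m) = (y : ZMod m)) : Cg P m (x : OO K) (y : OO K) := by
  rw [ZMod.intCast_eq_intCast_iff, Int.modEq_iff_dvd] at h
  obtain ⟨c, hc⟩ := h
  refine ⟨1, ((-c : ℤ) : OO K), fun h => hP.ne_top ((Ideal.eq_top_iff_one _).2 h), ?_⟩
  have h1 : x - y = m * (-c) := by linarith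
  have h2 := congrArg (Int.cast : ℤ → OO K) h1
  push_cast at h2 ⊢
  rw [one_mul, h2]

/-- **The values of characters at Frobenius elements of principal primes.** -/
theorem rel_embed_prime {ℓ n m : ℕ} (hℓ : ℓ.Prime) (hn : 0 < n) (hm : m = ℓ ^ n) [NeZero m]
    (φ : F.fixingSubgroup →* (ZMod m)ˣ) (hφ : IsOpen (φ.ker : Set F.fixingSubgroup))
    (χ : GK K →* (ZMod m)ˣ) (hχ : ∀ g : GK K, ∀ t : AlgebraicClosure K, t ^ m = 1 →
      g t = t ^ (χ g : ZMod m).val) (a : Ideal (𝓞 F) → ℕ)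
    (h0 : ∀ P : Ideal (OO K), P.IsMaximal → (ℓ : OO K) ∉ P → ∀ τ : GK K,
      (∀ x : OO K, τ • x - x ∈ P) → χ τ = 1)
    (h1 : ∀ P : Ideal (OO K), P.IsMaximal → (ℓ : OO K) ∉ P → ∀ τ : F.fixingSubgroup,
      (∀ x : OO K, (τ : GK K) • x - x ∈ P) → φ τ = 1)
    (h2 : ∀ P : Ideal (OO K), P.IsMaximal → (ℓ : OO K) ∈ P → ∀ τ : F.fixingSubgroup,
      (∀ x : OO K, (τ : GK K) • x - x ∈ P) → φ τ * χ τ ^ a (P.under (𝓞 F)) = 1)
    {P₀ : Ideal (OO K)} (hP₀ : P₀.IsMaximal) (hℓP₀ : (ℓ : OO K) ∈ P₀)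
    {p : ℕ} (hp : p.Prime) (hpℓ : p ≠ ℓ)
    (hram : ∀ P : Ideal (OO K), P.IsMaximal → (p : OO K) ∈ P → ∀ τ : GK K,
      (∀ x : OO K, τ • x - x ∈ P) → τ ∈ F.fixingSubgroup)
    {P₁ : Ideal (OO K)} (hP₁ : P₁.IsMaximal) (hpP₁ : (p : OO K) ∈ P₁) (β : 𝓞 F)
    (hβ : Ideal.span {β} = P₁.under (𝓞 F)) (s : F.fixingSubgroup)
    (hs : ∀ x : OO K, (s : GK K)⁻¹ • x - x ^ Ideal.absNorm (P₁.under (𝓞 F)) ∈ P₁) :
    Cg P₀ m (∏ σ : F →ₐ[ℚ] AlgebraicClosure K, (em σ β) ^ (2 * a (P₀.comap (em σ))))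
      ((((φ s : (ZMod m)ˣ) : ZMod m).val : OO K) ^ 2) := by
  classical
  have hm0 : m ≠ 0 := NeZero.ne m
  -- the field
  have : CharZero (AlgebraicClosure K) := charZero_of_injective_algebraMap
    (algebraMap K (AlgebraicClosure K)).injective
  have : NeZero (m : AlgebraicClosure K) := ⟨by exact_mod_cast NeZero.ne m⟩
  obtain ⟨ζ₀, hζ₀⟩ := HasEnoughRootsOfUnity.exists_primitiveRoot (AlgebraicClosure K) m
  let L : IntermediateField K (AlgebraicClosure K) := IntermediateField.adjoin K {ζ₀}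
  have hL : FiniteDimensional K L := IntermediateField.adjoin.finiteDimensional
    (Algebra.IsIntegral.isIntegral (R := K) ζ₀)
  have hFo : IsOpen (F.fixingSubgroup : Set (GK K)) := IntermediateField.fixingSubgroup_isOpen F
  have hLo : IsOpen (L.fixingSubgroup : Set (GK K)) := IntermediateField.fixingSubgroup_isOpen L
  let U : Subgroup (GK K) := (φ.ker.map F.fixingSubgroup.subtype) ⊓ L.fixingSubgroup
  have hUo : IsOpen (U : Set (GK K)) := by
    have h3 : (U : Set (GK K)) = (Subtype.val '' (φ.ker : Set F.fixingSubgroup)) ∩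
        (L.fixingSubgroup : Set (GK K)) := rfl
    rw [h3]
    exact (hFo.isOpenMap_subtype_val _ hφ).inter hLo
  have hUF : U ≤ F.fixingSubgroup := by
    rintro g ⟨⟨σ, _, rfl⟩, -⟩
    exact σ.2
  obtain ⟨E, hE1, hE2, hE3, hE⟩ := exists_core_field U hUo hUF
  have hEU : ∀ g : GK K, g ∈ E.fixingSubgroup → g ∈ U := fun g hg => by
    rw [hE] at hg
    exact Subgroup.normalCore_le U hg
  have hE4 : ∀ σ : F.fixingSubgroup, (σ : GK K) ∈ E.fixingSubgroup → φ σ = 1 := by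
    intro σ hσ
    obtain ⟨⟨σ', h3, h4⟩, -⟩ := hEU _ hσ
    have h5 : σ' = σ := Subtype.ext h4
    rw [← h5]
    exact h3
  have hζE : ζ₀ ∈ E := by
    rw [← InfiniteGalois.fixedField_fixingSubgroup E]
    intro g
    exact (IntermediateField.mem_fixingSubgroup_iff L _).1 (hEU _ g.2).2 ζ₀
      (IntermediateField.subset_adjoin K _ (Set.mem_singleton ζ₀))
  obtain ⟨ζ, hζ⟩ : ∃ ζ : E, IsPrimitiveRoot ζ m := ⟨⟨ζ₀, hζE⟩,
    IsPrimitiveRoot.of_map_of_injective (f := algebraMap E (AlgebraicClosure K)) hζ₀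
      (algebraMap E (AlgebraicClosure K)).injective⟩
  have hFE : Fact (F ≤ E) := ⟨hE3⟩
  have : NumberField E := by
    have : FiniteDimensional ℚ E := FiniteDimensional.trans ℚ K E
    exact ⟨⟩
  have hGal : IsGalois F E := IsGalois.tower_top_of_isGalois K F E
  have hζ' : (ζ : AlgebraicClosure K) ^ m = 1 := by
    have := congrArg (algebraMap E (AlgebraicClosure K)) hζ.pow_eq_one
    rwa [map_pow, map_one] at this
  obtain ⟨φ', hφ'⟩ := exists_fin (E := E) φ hE4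
  obtain ⟨χ', hχ'⟩ := exists_fin (E := E) (χ.comp F.fixingSubgroup.subtype) (fun σ hσ => by
    have h3 := (IntermediateField.mem_fixingSubgroup_iff E _).1 hσ _ ζ.2
    rw [hχ _ _ hζ'] at h3
    have h4 : ζ ^ (χ σ : ZMod m).val = ζ ^ 1 := by
      rw [pow_one]
      apply Subtype.ext
      exact h3
    have hu : IsUnit ζ := hζ.isUnit (NeZero.ne m)
    have h6 : hu.unit ^ (χ σ : ZMod m).val = hu.unit ^ 1 := Units.ext h4
    have h7 : IsPrimitiveRoot hu.unit m := IsPrimitiveRoot.coe_units_iff.1 hζ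
    rw [pow_eq_pow_iff_modEq, ← h7.eq_orderOf] at h6
    have h8 := (ZMod.natCast_eq_natCast_iff _ _ _).2 h6
    rw [ZMod.natCast_zmod_val, Nat.cast_one] at h8
    exact Units.ext h8)
  have hχζ : ∀ g : E ≃ₐ[F] E, g ζ = ζ ^ (χ' g : ZMod m).val := by
    intro g
    obtain ⟨σ, rfl⟩ := res_surj g
    apply Subtype.ext
    rw [res_coe, hχ _ _ hζ', hχ']
    rfl
  have hcomb : ∀ b : ℕ, ∀ σ : F.fixingSubgroup, (φ' * χ' ^ b) (res F E σ) =
      (φ * (χ.comp F.fixingSubgroup.subtype) ^ b) σ := by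
    intro b σ
    rw [MonoidHom.mul_apply, MonoidHom.mul_apply, MonoidHom.pow_apply, MonoidHom.pow_apply, hφ', hχ']
  -- the prime below `P₁`
  have hcop : ∀ P : Ideal (OO K), P.IsMaximal → (p : OO K) ∈ P → (ℓ : OO K) ∉ P := by
    intro P hP hpP hℓP
    apply hP.ne_top
    rw [Ideal.eq_top_iff_one]
    have h3 : IsCoprime (p : ℤ) (ℓ : ℤ) := Nat.isCoprime_iff_coprime.2
      ((Nat.coprime_primes hp hℓ).2 hpℓ)
    obtain ⟨b, c, hbc⟩ := h3
    have h4 := congrArg (Int.cast : ℤ → OO K) hbc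
    push_cast at h4
    rw [← h4]
    exact P.add_mem (P.mul_mem_left _ hpP) (P.mul_mem_left _ hℓP)
  have hpF : (p : 𝓞 F) ∈ P₁.under (𝓞 F) := by
    show algebraMap (𝓞 F) (OO K) (p : 𝓞 F) ∈ P₁
    rw [map_natCast]
    exact hpP₁
  have hP₁p := hP₁.isPrime
  let v₀ : HeightOneSpectrum (𝓞 F) := ⟨P₁.under (𝓞 F), Ideal.IsPrime.under _ _, fun h => by
    rw [h, Ideal.mem_bot] at hpF
    exact hp.ne_zero (by exact_mod_cast hpF)⟩
  have hv₀ : Unramified E v₀ := by
    refine unram_core (U := U) hE (p := p) ?_ v₀ hpF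
    intro P hP hpP τ hτ
    have hℓP := hcop P hP hpP
    have hτF := hram P hP hpP τ hτ
    refine ⟨⟨⟨τ, hτF⟩, h1 P hP hℓP ⟨τ, hτF⟩ hτ, rfl⟩, ?_⟩
    have h3 : τ ζ₀ = ζ₀ := by
      rw [hχ τ ζ₀ hζ₀.pow_eq_one, h0 P hP hℓP τ hτ]
      by_cases hm1 : m = 1
      · have : ζ₀ = 1 := by
          have := hζ₀.pow_eq_one
          rwa [hm1, pow_one] at this
        rw [this, one_pow]
      · have : Fact (1 < m) := ⟨by omega⟩
        rw [Units.val_one, ZMod.val_one, pow_one]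
    have h4 : ∀ x ∈ IntermediateField.adjoin K {ζ₀}, τ x = x := by
      intro x hx
      induction hx using IntermediateField.adjoin_induction with
      | mem x hx => rw [Set.mem_singleton_iff.1 hx]; exact h3
      | algebraMap x => exact τ.commutes x
      | add x y _ _ hx hy => rw [map_add, hx, hy]
      | inv x _ hx => rw [map_inv₀, hx]
      | mul x y _ _ hx hy => rw [map_mul, hx, hy]
    intro x
    exact h4 x.1 x.2
  have hℓv₀ : (ℓ : 𝓞 F) ∉ v₀.asIdeal := by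
    intro h
    have h3 : algebraMap (𝓞 F) (OO K) (ℓ : 𝓞 F) ∈ P₁ := h
    rw [map_natCast] at h3
    exact hcop P₁ hP₁ hpP₁ h3
  -- the Frobenius element
  have hfr : IsFrobenius v₀ (res F E s⁻¹) := by
    refine isFrob_res (M := E) (algebraMap E (AlgebraicClosure K)) (fun x => rfl) (s := (s : GK K)⁻¹)
      (fun x => res_coe s⁻¹ x) hP₁ (v := v₀) rfl hs
  have hφfr : φ' (frob E v₀) = (φ s)⁻¹ := by
    obtain ⟨h, hh⟩ := isFrobenius_conj hv₀ hfr (frob_spec (M := E) v₀)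
    rw [hh, map_mul, map_mul, map_inv, mul_comm, ← mul_assoc, mul_inv_cancel, one_mul, hφ', map_inv]
  -- the primes above `ℓ`
  have hfin : {v : HeightOneSpectrum (𝓞 F) | (ℓ : 𝓞 F) ∈ v.asIdeal}.Finite :=
    primes_finite hℓ.ne_zero
  obtain ⟨z, hz1, hz2⟩ := rel_prime (F := F) (M := E) hn hm hζ φ' χ' hχζ (fun v => a v.asIdeal)
    (fun v hv b hb => by
      obtain ⟨P, hP, hPv, τ, hτ, hne⟩ := exists_inertia (hcomb b) hb
      have hℓP : (ℓ : OO K) ∉ P := by
        intro h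
        apply hv
        rw [← hPv]
        show algebraMap (𝓞 F) (OO K) (ℓ : 𝓞 F) ∈ P
        rw [map_natCast]
        exact h
      apply hne
      rw [MonoidHom.mul_apply, MonoidHom.pow_apply, h1 P hP hℓP τ hτ]
      show 1 * χ τ ^ b = 1
      rw [h0 P hP hℓP τ hτ, one_pow, one_mul])
    (fun v hv hb => by
      obtain ⟨P, hP, hPv, τ, hτ, hne⟩ := exists_inertia (hcomb (a v.asIdeal)) hb
      have hℓP : (ℓ : OO K) ∈ P := by
        rw [← hPv] at hv
        have h3 : algebraMap (𝓞 F) (OO K) (ℓ : 𝓞 F) ∈ P := hv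
        rwa [map_natCast] at h3
      apply hne
      have h3 := h2 P hP hℓP τ hτ
      rw [hPv] at h3
      rw [MonoidHom.mul_apply, MonoidHom.pow_apply]
      exact h3)
    hv₀ hℓv₀ β hβ hfin.toFinset (fun v => hfin.mem_toFinset)
  set T := hfin.toFinset with hT
  choose vv hvv hvv2 using fun σ : F →ₐ[ℚ] AlgebraicClosure K => exists_below hP₀ hℓ hℓP₀ σ
  have hvT : ∀ σ, vv σ ∈ T := fun σ => hfin.mem_toFinset.2 (hvv2 σ)
  -- the integers
  have h3 : Cg P₀ m (∏ v ∈ T, ((Algebra.norm ℤ (z v) : ℤ) : OO K) ^ (2 * a v.asIdeal))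
      ((((φ s : (ZMod m)ˣ) : ZMod m).val : OO K) ^ 2) := by
    have h4 : ((∏ v ∈ T, (Algebra.norm ℤ (z v)) ^ (2 * a v.asIdeal) : ℤ) : ZMod m) =
        (((((φ s : (ZMod m)ˣ) : ZMod m).val : ℤ) ^ 2 : ℤ) : ZMod m) := by
      push_cast
      rw [ZMod.natCast_zmod_val]
      have h5 : ∏ v ∈ T, ((Algebra.norm ℤ (z v) : ℤ) : ZMod m) ^ (2 * a v.asIdeal) =
          ∏ v ∈ T, ((Ideal.absNorm (Ideal.span {z v ^ 2}) : ℕ) : ZMod m) ^ a v.asIdeal := by
        refine Finset.prod_congr rfl fun v _ => ?_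
        rw [pow_mul]
        congr 1
        have h5 : ((Ideal.absNorm (Ideal.span {z v ^ 2}) : ℕ) : ℤ) = (Algebra.norm ℤ (z v)) ^ 2 := by
          rw [Ideal.absNorm_span_singleton, map_pow, Int.natCast_natAbs, abs_of_nonneg (sq_nonneg _)]
        have h6 := congrArg (Int.cast : ℤ → ZMod m) h5
        push_cast at h6
        rw [← h6]
      rw [h5]
      rw [hφfr] at hz2
      have h6 : ((((φ s)⁻¹ : (ZMod m)ˣ) : ZMod m)) ^ 2 * ((φ s : (ZMod m)ˣ) : ZMod m) ^ 2 = 1 := by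
        rw [← mul_pow, Units.inv_mul, one_pow]
      calc _ = (∏ v ∈ T, ((Ideal.absNorm (Ideal.span {z v ^ 2}) : ℕ) : ZMod m) ^ a v.asIdeal) *
            (((((φ s)⁻¹ : (ZMod m)ˣ) : ZMod m)) ^ 2 * ((φ s : (ZMod m)ˣ) : ZMod m) ^ 2) := by
              rw [h6, mul_one]
        _ = _ := by rw [← mul_assoc, hz2, one_mul]
    have h7 := cg_of_zmod (K := K) hP₀ h4
    push_cast at h7
    exact h7
  refine cg_trans hP₀ ?_ h3
  -- the products over the embeddings
  have h9 : ∏ σ : F →ₐ[ℚ] AlgebraicClosure K, (em σ β) ^ (2 * a (P₀.comap (em σ))) =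
      ∏ v ∈ T, ∏ σ ∈ Finset.univ.filter (fun σ : F →ₐ[ℚ] AlgebraicClosure K => vv σ = v),
        (em σ β) ^ (2 * a v.asIdeal) := by
    rw [← Finset.prod_fiberwise_of_maps_to (t := T) (fun σ _ => hvT σ)]
    refine Finset.prod_congr rfl fun v _ => Finset.prod_congr rfl fun σ hσ => ?_
    rw [← hvv σ, (Finset.mem_filter.1 hσ).2]
  rw [h9]
  refine cg_prod hP₀ T fun v hv => ?_
  rw [em_norm (K := K) (z v), ← Finset.prod_pow]
  rw [← Finset.prod_filter_mul_prod_filter_not Finset.univ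
    (fun σ : F →ₐ[ℚ] AlgebraicClosure K => vv σ = v)
    (fun σ : F →ₐ[ℚ] AlgebraicClosure K => (em σ (z v)) ^ (2 * a v.asIdeal))]
  rw [← mul_one (∏ σ ∈ Finset.univ.filter (fun σ : F →ₐ[ℚ] AlgebraicClosure K => vv σ = v),
        (em σ β) ^ (2 * a v.asIdeal))]
  have hβ0 : (β : F) ≠ 0 := by
    rw [Ne, RingOfIntegers.coe_eq_zero_iff]
    rintro rfl
    apply v₀.ne_bot
    show P₁.under (𝓞 F) = ⊥
    rw [← hβ, Ideal.span_singleton_eq_bot]
  refine cg_mul hP₀ (cg_prod hP₀ _ fun σ hσ => cg_pow hP₀ ?_ _) ?_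
  · have hσ' := (Finset.mem_filter.1 hσ).2
    refine cg_symm (cg_of_cl (hvv σ) hm0 ?_)
    have h10 := (hz1 v hv (vv σ) (hvT σ)).1 hσ'
    unfold Cl at h10
    have huv : (vv σ).valuation F (β : F) = 1 := by
      refine le_antisymm (int_le _ _) ?_
      by_contra hcon
      push Not at hcon
      have h4 : β ∈ (vv σ).asIdeal := (mem_iff _ _).2 hcon
      have h5 : v₀.asIdeal ≤ (vv σ).asIdeal := by
        show P₁.under (𝓞 F) ≤ _
        rw [← hβ, Ideal.span_singleton_le_iff_mem]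
        exact h4
      have h6 := v₀.isMaximal.eq_of_le (vv σ).isPrime.ne_top h5
      apply hℓv₀
      rw [h6]
      exact hvv2 σ
    have e : (z v : F) / (β : F) - 1 = ((z v : F) - (β : F)) / (β : F) := by
      field_simp
    rwa [e, map_div₀, huv, div_one] at h10
  · have h11 : (1 : OO K) = ∏ σ ∈ Finset.univ.filter
        (fun σ : F →ₐ[ℚ] AlgebraicClosure K => ¬ vv σ = v), (1 : OO K) := by
      rw [Finset.prod_const_one]
    conv_lhs => rw [h11]
    refine cg_prod hP₀ _ fun σ hσ => ?_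
    have hσ' := (Finset.mem_filter.1 hσ).2
    have h12 : Cg P₀ m (em σ (z v)) (em σ 1) := by
      refine cg_of_cl (hvv σ) hm0 ?_
      exact (hz1 v hv (vv σ) (hvT σ)).2 hσ'
    rw [map_one] at h12
    have h13 := cg_pow hP₀ (cg_symm h12) (2 * a v.asIdeal)
    rwa [one_pow] at h13

end

end Pool.Agent.H16.PW
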