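import Pool.Agent.H16.PW.Two

/-!
# Polarized systems over number fields without CM subfields
-/

set_option autoImplicit false
set_option linter.unusedSectionVars false
set_option linter.deprecated false
set_option linter.style.haveILetI false
set_option maxHeartbeats 4000000
set_option synthInstance.maxHeartbeats 400000

namespace Pool.Agent.H16.PW

open Module Matrix Polynomial NumberField Pool.Agent.Y800 Pool.Agent.R390.SF IntegralSystem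
open Pool.Agent.Y126.SH (chi exists_reps)

attribute [local instance] Subgroup.fintypeQuotientOfFiniteIndex

section core

variable {F : SubFld ℚ} [hF : FiniteDimensional ℚ F] {n : ℕ} {S : Finset ℕ} {w : ℕ}
  {T : IntegralSystem F n} {ℓ : ℕ} [hℓ : Fact ℓ.Prime]
  {k : Type} [Field k] [TopologicalSpace k] [IsTopologicalRing k] (ψ : ℤ_[ℓ] →+* k)

/-- **There are no isotropic stable subspaces.** -/
theorem noiso_of (hψ : Continuous ψ) (hk : HasMink k) (hT : T.PureSystem S w) {h : ℕ → ℕ}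
    {J : Matrix (Fin n) (Fin n) k} (hJ : Equi (rep ψ T) J)
    (hw : HodgeFormAt F (rep ψ T) J (fun g => ψ (chi ℓ g : ℤ_[ℓ])) ℓ w h)
    (hpar : Par ψ F (w * n)) (hno : Rigid w h)
    {p : ℕ} (hp : p.Prime) (hpS : p ∉ S) (hpℓ : ℓ ≠ p) {P : Ideal ZBar} (hP : P.IsMaximal)
    (hpP : (p : ZBar) ∈ P) {σ : GQ} (hσ : IsGeomFrob p P σ)
    (hσc : σ ∈ (F.fixingSubgroup).normalCore) {M : ℤ} (hMk : (M : k) ≠ 0)
    (hM : ∀ (Ω : Type) [Field Ω] [IsAlgClosed Ω], (M : Ω) ≠ 0 →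
      ∀ (A : (GQ ⧸ F.fixingSubgroup) → Multiset Ω) (a : ℕ),
        a ≤ expo F.fixingSubgroup * (finrank ℚ F * (w * n)) →
        (∀ q, A q ≤ ((T.poly ((cj q.out P).under (𝓞 F))).map (Int.castRingHom Ω)).roots) →
        ∏ q, (A q).prod ^ expo F.fixingSubgroup = (p : Ω) ^ a →
          a * 2 = ∑ q, expo F.fixingSubgroup * (w * Multiset.card (A q))) :
    NoIso (rep ψ T) J := by
  classical
  intro U hU hiso
  obtain ⟨m, hm⟩ := hw
  obtain ⟨P₀, _, hP₀, hℓP₀, _⟩ := exists_geom hℓ.out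
  let a : Ideal (𝓞 F) → ℕ := fun 𝔩 => if 𝔩.IsMaximal ∧ (ℓ : 𝓞 F) ∈ 𝔩 then
    ∑ r ∈ Finset.range (w + 1), r * m U 𝔩 r else 0
  have hdle : finrank k U ≤ n := by
    have := Submodule.finrank_le U
    rwa [finrank_fin_fun] at this
  have hsub := fun (𝔩 : Ideal (𝓞 F)) (h1 : 𝔩.IsMaximal) (h2 : (ℓ : 𝓞 F) ∈ 𝔩) =>
    form_sub ψ (hm 𝔩 h1 h2).2.1 hU
  have hac : ∀ 𝔩, a 𝔩 ≤ w * n := by
    intro 𝔩
    show (if 𝔩.IsMaximal ∧ (ℓ : 𝓞 F) ∈ 𝔩 then
      ∑ r ∈ Finset.range (w + 1), r * m U 𝔩 r else 0) ≤ w * n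
    split_ifs with h1
    · calc ∑ r ∈ Finset.range (w + 1), r * m U 𝔩 r ≤ ∑ r ∈ Finset.range (w + 1), w * m U 𝔩 r := by
            refine Finset.sum_le_sum fun r hr => Nat.mul_le_mul_right _ ?_
            exact Nat.lt_succ_iff.1 (Finset.mem_range.1 hr)
        _ = w * finrank k U := by rw [← Finset.mul_sum, (hsub 𝔩 h1.1 h1.2).1]
        _ ≤ w * n := Nat.mul_le_mul_left _ hdle
    · exact Nat.zero_le _
  have hplace : ∀ P : Ideal ZBar, P.IsMaximal → (ℓ : ZBar) ∈ P →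
      (P.under (𝓞 F)).IsMaximal ∧ (ℓ : 𝓞 F) ∈ P.under (𝓞 F) := by
    intro P hP hℓP
    refine ⟨under_max hP, ?_⟩
    rw [mem_under, map_natCast]
    exact hℓP
  have haeq : ∀ P : Ideal ZBar, P.IsMaximal → (ℓ : ZBar) ∈ P →
      a (P.under (𝓞 F)) = ∑ r ∈ Finset.range (w + 1), r * m U (P.under (𝓞 F)) r :=
    fun P hP hℓP => if_pos (hplace P hP hℓP)
  have ha : ∀ P : Ideal ZBar, P.IsMaximal → (ℓ : ZBar) ∈ P → ∀ τ : F.fixingSubgroup,
      InInertia P τ → detChar (rep ψ T) U hU τ * chik ψ τ ^ a (P.under (𝓞 F)) = 1 := by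
    intro P hP hℓP τ hτ
    obtain ⟨h1, h2⟩ := hplace P hP hℓP
    rw [haeq P hP hℓP]
    exact (hsub _ h1 h2).2 P hP rfl τ hτ
  have h1 := weight_par ψ hψ hk hT hp hpS hpℓ hP hpP hσ hσc hMk hM U hU a hac ha
    (par_detChar ψ hψ hpar hT U hU a hac ha) hP₀ hℓP₀
  rw [haeq P₀ hP₀ hℓP₀] at h1
  obtain ⟨h3, h4⟩ := hplace P₀ hP₀ hℓP₀
  have h2 := hno (m U (P₀.under (𝓞 F))) (fun r hr => by
    obtain ⟨h5, -, h6⟩ := hm _ h3 h4
    have h7 := h5 U (orth J U) hU (orth_stable hJ hU) (fun x hx u hu => hiso u hu x hx) r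
    have h8 := h6 U hU r hr
    omega) (by rw [(hsub _ h3 h4).1]; exact h1)
  rw [(hsub _ h3 h4).1] at h2
  exact Submodule.finrank_eq_zero.1 h2

end core

section single

variable {F : SubFld ℚ} {n : ℕ} {S S' : Finset ℕ} {w : ℕ} {h : ℕ → ℕ}
  {T : IntegralSystem F n} [hF : FiniteDimensional ℚ F]

theorem semis_rat (hcm : ∀ L : SubFld ℚ, L ≤ F → ¬ IsCMField L) (hno : Rigid w h)
    (hT : T.PolarizedSystem S S' w h) {ℓ : ℕ} [hℓ : Fact ℓ.Prime] : Semis (T.rat ℓ) := by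
  obtain ⟨J, hJ, hw⟩ := hT.rational ℓ
  obtain ⟨q, hq, hqS', P, hPm, hqP, σ, hσ, hσc⟩ := exists_core (F := F) (S ∪ {ℓ})
  have hqS : q ∉ S := fun h => hqS' (Finset.mem_union_left _ h)
  have hqℓ : ℓ ≠ q := fun h => hqS' (Finset.mem_union_right _ (Finset.mem_singleton.2 h.symm))
  obtain ⟨M, hM0, hM⟩ := exists_M hT.toGoodSystem hq hqS hPm hqP hσ hσc (w * n)
  have h2 := noiso_of (algebraMap ℤ_[ℓ] ℚ_[ℓ]) continuous_coe mink_padic
    (pure_of_pol hT) (equi_rat hJ) hw (par_padic hcm _) hno hq hqS hqℓ hPm hqP hσ hσc (M := M)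
    (by exact_mod_cast hM0) hM
  exact fun U hU => ⟨_, orth_stable (equi_rat hJ) hU, isCompl_orth (equi_rat hJ) h2 hU⟩

theorem noiso_res (hno : Rigid w h)
    (hT : T.PolarizedSystem S S' w h) {ℓ : ℕ} [hℓ : Fact ℓ.Prime] (hℓS : ℓ ∉ S')
    (hpar : Par (PadicInt.toZMod (p := ℓ)) F (w * n))
    {p : ℕ} (hp : p.Prime) (hpS : p ∉ S) (hpℓ : ℓ ≠ p) {P : Ideal ZBar} (hP : P.IsMaximal)
    (hpP : (p : ZBar) ∈ P) {σ : GQ} (hσ : IsGeomFrob p P σ)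
    (hσc : σ ∈ (F.fixingSubgroup).normalCore) {M : ℤ} (hMk : (M : ZMod ℓ) ≠ 0)
    (hM : ∀ (Ω : Type) [Field Ω] [IsAlgClosed Ω], (M : Ω) ≠ 0 →
      ∀ (A : (GQ ⧸ F.fixingSubgroup) → Multiset Ω) (a : ℕ),
        a ≤ expo F.fixingSubgroup * (finrank ℚ F * (w * n)) →
        (∀ q, A q ≤ ((T.poly ((cj q.out P).under (𝓞 F))).map (Int.castRingHom Ω)).roots) →
        ∏ q, (A q).prod ^ expo F.fixingSubgroup = (p : Ω) ^ a →
          a * 2 = ∑ q, expo F.fixingSubgroup * (w * Multiset.card (A q))) :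
    ∃ J : Matrix (Fin n) (Fin n) ℤ_[ℓ], T.IsPolarization w ℓ J ∧ IsUnit J.det ∧
      NoIso (toF (T.rho ℓ)) (rd J) := by
  obtain ⟨J, hJ, hJu, hw⟩ := hT.residual ℓ hℓS
  exact ⟨J, hJ, hJu, noiso_of (PadicInt.toZMod (p := ℓ)) continuous_toZMod mink_zmod
    (pure_of_pol hT) (equi_res hJ) hw hpar hno hp hpS hpℓ hP hpP hσ hσc hMk hM⟩

end single

section main

variable {F : SubFld ℚ} [hF : FiniteDimensional ℚ F] {n : ℕ}

/-- **Finiteness of the polarized systems.** -/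
theorem pol_finiteness (hcm : ∀ L : SubFld ℚ, L ≤ F → ¬ IsCMField L) (hn : 0 < n) (w : ℕ)
    (h : ℕ → ℕ) (hno : Rigid w h) (S S' : Finset ℕ) :
    ∃ (m : ℕ) (T : Fin m → IntegralSystem F n), (∀ i, (T i).PolarizedSystem S S' w h) ∧
      ∀ T' : IntegralSystem F n, T'.PolarizedSystem S S' w h →
        ∃ i, IsomorphicOn Set.univ (T i) T' := by
  classical
  obtain ⟨𝒯, h𝒯, hdet⟩ := traces_of_finite (F := F) hn S
  obtain ⟨p, hp, hpS, P, hP, hpP, σ, hσ, hσc⟩ := exists_core (F := F) S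
  obtain ⟨B₀, hB₀⟩ := par_zmod hcm (w * n)
  let 𝒰 : Finset (Ideal (𝓞 F)) := 𝒯 ∪ (Finset.univ.image fun q : GQ ⧸ F.fixingSubgroup =>
    (cj q.out P).under (𝓞 F))
  have h𝒰 : ∀ 𝔭 ∈ 𝒰, 𝔭.IsMaximal ∧ ∃ p : ℕ, p.Prime ∧ p ∉ S ∧ (p : 𝓞 F) ∈ 𝔭 := by
    intro 𝔭 h𝔭
    rcases Finset.mem_union.1 h𝔭 with h1 | h1
    · exact h𝒯 𝔭 h1
    · obtain ⟨q, _, rfl⟩ := Finset.mem_image.1 h1
      refine ⟨under_max (cj_max hP), p, hp, hpS, ?_⟩
      rw [mem_under, map_natCast]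
      exact cj_nat.2 hpP
  have hmem : ∀ q : GQ ⧸ F.fixingSubgroup, (cj q.out P).under (𝓞 F) ∈ 𝒰 := fun q =>
    Finset.mem_union_right _ (Finset.mem_image_of_mem _ (Finset.mem_univ q))
  have hpoly : ∀ T T' : IntegralSystem F n, T.GoodSystem S w → T'.GoodSystem S w →
      ((fun x : 𝒰 × Fin (n + 1) => (T.poly x.1).coeff x.2) =
        fun x : 𝒰 × Fin (n + 1) => (T'.poly x.1).coeff x.2) →
      ∀ 𝔭 ∈ 𝒰, T.poly 𝔭 = T'.poly 𝔭 := by
    intro T T' hT hT' heq 𝔭 h𝔭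
    obtain ⟨h1, p, hp, hpS, hp𝔭⟩ := h𝒰 𝔭 h𝔭
    ext i
    by_cases hi : i < n + 1
    · exact congrFun heq (⟨𝔭, h𝔭⟩, ⟨i, hi⟩)
    · rw [Polynomial.coeff_eq_zero_of_natDegree_lt, Polynomial.coeff_eq_zero_of_natDegree_lt]
      · rw [(hT'.good p hp hpS 𝔭 h1 hp𝔭).natDegree]
        omega
      · rw [(hT.good p hp hpS 𝔭 h1 hp𝔭).natDegree]
        omega
  refine exists_reps (fun T : IntegralSystem F n => T.PolarizedSystem S S' w h)
    (fun T T' => IsomorphicOn Set.univ T T')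
    (fun T => fun x : 𝒰 × Fin (n + 1) => (T.poly x.1).coeff x.2) ?_ ?_
  · refine (Set.Finite.pi' (t := fun x : 𝒰 × Fin (n + 1) => Set.Icc
      (-((Nat.card (𝓞 F ⧸ (x.1 : Ideal (𝓞 F))) ^ w) ^ n * n.choose (n / 2) : ℕ) : ℤ)
      (((Nat.card (𝓞 F ⧸ (x.1 : Ideal (𝓞 F))) ^ w) ^ n * n.choose (n / 2) : ℕ) : ℤ))
      (fun p => Set.finite_Icc _ _)).subset ?_
    rintro _ ⟨T, hT, rfl⟩ x
    obtain ⟨h1, r, hr, hrS, h2⟩ := h𝒰 x.1 x.1.2
    exact abs_le.1 (coeff_bound hT.toGoodSystem hr hrS h1 h2 x.2)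
  · intro T0 hT0
    obtain ⟨M, hM0, hM⟩ := exists_M hT0.toGoodSystem hp hpS hP hpP hσ hσc (w * n)
    let N : ℕ := max B₀ (max (S'.sup id) (max p M.natAbs))
    choose k c hk hc using local_code2 (Λ := Set.univ) (T0 := T0)
      (fun ℓ hℓ _ => semis_rat hcm hno hT0)
    obtain ⟨K, ⟨e⟩⟩ := Finite.exists_equiv_fin (∀ ℓ : Fin (N + 1), Fin (k ℓ))
    refine ⟨K, fun T => (e fun ℓ => ⟨c ℓ T, hk ℓ T⟩ : ℕ), fun T => Fin.is_lt _, ?_⟩
    intro T T' hT hT' hi hi' hcode ℓ hℓ hℓΛ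
    have key : ∀ T : IntegralSystem F n, T.PolarizedSystem S S' w h →
        ((fun x : 𝒰 × Fin (n + 1) => (T.poly x.1).coeff x.2) =
          fun x : 𝒰 × Fin (n + 1) => (T0.poly x.1).coeff x.2) →
        ∃ B : Matrix (Fin n) (Fin n) ℤ_[ℓ], Inter T0 T ℓ B := by
      intro T hT hi
      refine exists_inter (semis_rat hcm hno hT0) (semis_rat hcm hno hT) ?_
      refine hdet w w T T0 hT.toGoodSystem hT0.toGoodSystem (fun p hp => ?_) ℓ
      rw [hpoly T T0 hT.toGoodSystem hT0.toGoodSystem hi p (Finset.mem_union_left _ hp)]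
    have key2 : N < ℓ → ∀ T : IntegralSystem F n, T.PolarizedSystem S S' w h →
        ((fun x : 𝒰 × Fin (n + 1) => (T.poly x.1).coeff x.2) =
          fun x : 𝒰 × Fin (n + 1) => (T0.poly x.1).coeff x.2) →
        ∃ J : Matrix (Fin n) (Fin n) ℤ_[ℓ], T.IsPolarization w ℓ J ∧ IsUnit J.det ∧
          NoIso (toF (T.rho ℓ)) (rd J) := by
      intro hN T hT hi
      simp only [N, max_lt_iff] at hN
      obtain ⟨h0, h1, h2, h3⟩ := hN
      refine noiso_res hno hT (fun h4 => absurd (Finset.le_sup (f := id) h4) (not_le.2 h1))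
        (hB₀ ℓ h0) hp hpS (by omega) hP hpP hσ hσc (M := M) (ne_zero_mod hM0 h3) ?_
      intro Ω _ _ hMΩ A a ha hA hprod
      refine hM Ω hMΩ A a ha (fun q => ?_) hprod
      rw [← hpoly T T0 hT.toGoodSystem hT0.toGoodSystem hi _ (hmem q)]
      exact hA q
    have h1 := key T hT hi
    have h2 := key T' hT' hi'
    by_cases hℓN : ℓ ≤ N
    · have h3 := e.injective (Fin.ext hcode)
      have h4 := congrFun h3 ⟨ℓ, Nat.lt_succ_of_le hℓN⟩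
      exact hc ℓ T T' hℓΛ h1 h2 (congrArg Fin.val h4)
    · obtain ⟨B, hB, hBρ⟩ := h1
      obtain ⟨B', hB', hBρ'⟩ := h2
      obtain ⟨J0, hJ0, -, hn0⟩ := key2 (not_le.1 hℓN) T0 hT0 rfl
      obtain ⟨J, hJ, hJu, hn⟩ := key2 (not_le.1 hℓN) T hT hi
      obtain ⟨J', hJ', hJu', hn'⟩ := key2 (not_le.1 hℓN) T' hT' hi'
      obtain ⟨A, hA⟩ := uniq hJu hJ.equivariant hJ0.equivariant hn hn0 hB hBρ
      obtain ⟨A', hA'⟩ := uniq hJu' hJ'.equivariant hJ0.equivariant hn' hn0 hB' hBρ'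
      refine ⟨A' * A⁻¹, fun g => ?_⟩
      rw [hA, hA']
      group

end main

end Pool.Agent.H16.PW
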