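import Pool.Agent.H16.PW.Rec

/-!
# The reciprocity law at a principal prime
-/

set_option autoImplicit false
set_option linter.unusedSectionVars false
set_option linter.deprecated false
set_option maxHeartbeats 4000000
set_option synthInstance.maxHeartbeats 400000

namespace Pool.Agent.H16.PW

open NumberField IsDedekindDomain Pool.Agent.Q5.BR Pool.Agent.Q92.AR Pool.Agent.Q20.EX

section

variable {F : Type} [Field F] [NumberField F]

/-- approximation -/
theorem exists_apxg {N : ℕ} (hN : N ≠ 0) (f : HeightOneSpectrum (𝓞 F) → 𝓞 F)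
    (hf : ∀ v : HeightOneSpectrum (𝓞 F), (N : 𝓞 F) ∈ v.asIdeal → v.valuation F (f v : F) = 1) :
    ∃ z : 𝓞 F, z ≠ 0 ∧ ∀ v : HeightOneSpectrum (𝓞 F), (N : 𝓞 F) ∈ v.asIdeal →
      v.valuation F (z : F) = 1 ∧ Cl v N ((z : F) / (f v : F)) := by
  classical
  have hN0 : (N : F) ≠ 0 := by exact_mod_cast hN
  have hK : ∀ v' : HeightOneSpectrum (𝓞 F), ∃ K : ℕ,
      WithZero.exp (-(K : ℤ)) ≤ v'.valuation F (N : F) := by
    intro v'
    have h0 : v'.valuation F (N : F) ≠ 0 := (Valuation.ne_zero_iff _).2 hN0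
    refine ⟨(WithZero.log (v'.valuation F (N : F))).natAbs, ?_⟩
    conv_rhs => rw [← WithZero.exp_log h0]
    rw [WithZero.exp_le_exp]
    omega
  choose K hK using hK
  by_cases hne : ∃ v : HeightOneSpectrum (𝓞 F), (N : 𝓞 F) ∈ v.asIdeal
  swap
  · push Not at hne
    exact ⟨1, one_ne_zero, fun v hv => absurd hv (hne v)⟩
  obtain ⟨v₁, hv₁⟩ := hne
  set s : Finset (HeightOneSpectrum (𝓞 F)) := (primes_finite (F := F) hN).toFinset with hs
  obtain ⟨z, hz⟩ := IsDedekindDomain.exists_forall_sub_mem_ideal (s := s)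
    (fun v' : HeightOneSpectrum (𝓞 F) => v'.asIdeal) (fun v' => K v' + 1) (fun v' _ => v'.prime)
    (fun v' _ w _ hvw h => hvw (HeightOneSpectrum.ext h))
    (fun v' => f v')
  have key : ∀ v' ∈ s, v'.valuation F ((z : F) - (f v' : F)) ≤ v'.valuation F (N : F) ∧
        v'.valuation F ((z : F) - (f v' : F)) < 1 := by
    intro v' hv'
    have hy := hz v' hv'
    have h1 : v'.valuation F (((z - f v' : 𝓞 F)) : F) ≤ WithZero.exp (-((K v' + 1 : ℕ) : ℤ)) := by
      rw [HeightOneSpectrum.valuation_of_algebraMap]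
      exact (v'.intValuation_le_pow_iff_mem _ _).2 hy
    have e : ((z - f v' : 𝓞 F) : F) = (z : F) - (f v' : F) := map_sub (algebraMap (𝓞 F) F) z (f v')
    rw [e] at h1
    refine ⟨h1.trans (le_trans ?_ (hK v')), h1.trans_lt ?_⟩
    · rw [WithZero.exp_le_exp]
      omega
    · rw [← WithZero.exp_zero, WithZero.exp_lt_exp]
      omega
  have hmem : ∀ v' : HeightOneSpectrum (𝓞 F), (N : 𝓞 F) ∈ v'.asIdeal → v' ∈ s := fun v' hv' =>
    (primes_finite hN).mem_toFinset.2 hv'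
  have hone : ∀ v' : HeightOneSpectrum (𝓞 F), (N : 𝓞 F) ∈ v'.asIdeal →
      v'.valuation F (z : F) = 1 := by
    intro v' hv'
    have h1 := (key v' (hmem v' hv')).2
    have h2 := Valuation.map_add_eq_of_lt_right (v'.valuation F) (x := (z : F) - (f v' : F))
      (y := (f v' : F)) (by rw [hf v' hv']; exact h1)
    rw [sub_add_cancel] at h2
    rw [h2, hf v' hv']
  refine ⟨z, ?_, fun v' hv' => ⟨hone v' hv', ?_⟩⟩
  · rintro rfl
    have := hone v₁ hv₁
    simp at this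
  unfold Cl
  have h0 : (f v' : F) ≠ 0 := by
    intro h
    have := hf v' hv'
    rw [h] at this
    simp at this
  have e : (z : F) / (f v' : F) - 1 = ((z : F) - (f v' : F)) / (f v' : F) := by
    field_simp
  rw [e, map_div₀, hf v' hv', div_one]
  exact (key v' (hmem v' hv')).1

end

section

variable {F M : Type} [Field F] [NumberField F] [Field M] [NumberField M] [Algebra F M]
  {A : Type} [CommGroup A]

theorem exists_good [IsGalois F M] (v : HeightOneSpectrum (𝓞 F)) (hv : Unramified M v)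
    (ψ : (M ≃ₐ[F] M) →* ℂˣ) : ∃ N : ℕ, N ≠ 0 ∧
    ∀ N', N ∣ N' → ∀ x : Fˣ, Pos (x : F) → CongAt {v}ᶜ N' (x : F) → art ψ (prin x) = 0 := by
  obtain ⟨N, hN, -, h⟩ := Pool.Agent.Q111.EX.good Pool.Agent.Q38.EX.nrm F M ψ v hv
  exact ⟨N, hN, fun N' hN' x h2 h3 => h x h2 (congAt_mono hN' subset_rfl h3)⟩

theorem exists_NG [IsGalois F M] [Finite A] {ι : Type} [Finite ι] (θ : ι → ((M ≃ₐ[F] M) →* A))
    {N₀ : ℕ} (hN₀ : N₀ ≠ 0) (v : HeightOneSpectrum (𝓞 F)) (hv : Unramified M v) :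
    ∃ N : ℕ, N ≠ 0 ∧ N₀ ∣ N ∧
      (∀ i, ∀ x : Fˣ, Un N x → Pos (x : F) → CongAt (RamA (θ i)) N (x : F) →
        artA (θ i) (prin x) = 0) ∧
      ∀ i, ∀ x : Fˣ, Pos (x : F) → CongAt {v}ᶜ N (x : F) → artA (θ i) (prin x) = 0 := by
  classical
  have : Fintype ι := Fintype.ofFinite ι
  have : Finite (A →* ℂˣ) := inferInstance
  have : Fintype (A →* ℂˣ) := Fintype.ofFinite _
  choose N hN h using fun (j : ι × (A →* ℂˣ)) => exists_good v hv (j.2.comp (θ j.1))
  obtain ⟨N₁, hN₁, hdvd, -, h1⟩ := exists_N θ (N₀ := N₀ * ∏ j, N j)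
    (mul_ne_zero hN₀ (Finset.prod_ne_zero_iff.2 fun j _ => hN j))
  refine ⟨N₁, hN₁, (dvd_mul_right _ _).trans hdvd, h1, fun i x h2 h3 => ?_⟩
  by_contra hne
  have hne' : (artA (θ i) (prin x)).toMul ≠ 1 := fun h => hne h
  obtain ⟨η, hη⟩ := CommGroup.exists_apply_ne_one_of_hasEnoughRootsOfUnity A ℂ hne'
  apply hη
  have h4 := h (i, η) N₁ (((Finset.dvd_prod_of_mem N (Finset.mem_univ (i, η))).trans
    (dvd_mul_left _ _)).trans hdvd) x h2 h3
  rw [art_comp] at h4
  exact h4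

/-- **The reciprocity law at a principal prime.** -/
theorem rel_prime [IsGalois F M] {ℓ n m : ℕ} (hn : 0 < n) (hm : m = ℓ ^ n) [NeZero m]
    {ζ : M} (hζ : IsPrimitiveRoot ζ m) (φ χ : (M ≃ₐ[F] M) →* (ZMod m)ˣ)
    (hχ : ∀ g : M ≃ₐ[F] M, g ζ = ζ ^ (χ g : ZMod m).val) (a : HeightOneSpectrum (𝓞 F) → ℕ)
    (h1 : ∀ v : HeightOneSpectrum (𝓞 F), (ℓ : 𝓞 F) ∉ v.asIdeal → ∀ b : ℕ, v ∉ RamA (φ * χ ^ b))
    (h2 : ∀ v : HeightOneSpectrum (𝓞 F), (ℓ : 𝓞 F) ∈ v.asIdeal → v ∉ RamA (φ * χ ^ a v))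
    {v₀ : HeightOneSpectrum (𝓞 F)} (hv₀ : Unramified M v₀) (hℓv₀ : (ℓ : 𝓞 F) ∉ v₀.asIdeal)
    (β : 𝓞 F) (hβ : Ideal.span {β} = v₀.asIdeal) (T : Finset (HeightOneSpectrum (𝓞 F)))
    (hT : ∀ v, v ∈ T ↔ (ℓ : 𝓞 F) ∈ v.asIdeal) :
    ∃ z : HeightOneSpectrum (𝓞 F) → 𝓞 F, (∀ v ∈ T, ∀ v' ∈ T,
      (v' = v → Cl v' m ((z v : F) / (β : F))) ∧ (v' ≠ v → Cl v' m (z v : F))) ∧
      (∏ v ∈ T, ((Ideal.absNorm (Ideal.span {z v ^ 2}) : ℕ) : ZMod m) ^ a v) *
        ((φ (frob M v₀) : (ZMod m)ˣ) : ZMod m) ^ 2 = 1 := by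
  classical
  have hm0 : m ≠ 0 := NeZero.ne m
  obtain ⟨N, hN, hmN, hrec, hgood⟩ := exists_NG (F := F) (M := M)
    (fun i : Option T => (match i with | none => φ * χ ^ 0 | some v => φ * χ ^ a v)) hm0 v₀ hv₀
  have hNv : ∀ v : HeightOneSpectrum (𝓞 F), (ℓ : 𝓞 F) ∈ v.asIdeal → (N : 𝓞 F) ∈ v.asIdeal := by
    intro v hv
    obtain ⟨k, rfl⟩ := hmN
    rw [Nat.cast_mul, hm, Nat.cast_pow]
    exact v.asIdeal.mul_mem_right _ (Ideal.pow_mem_of_mem _ hv n hn)
  have hβmem : β ∈ v₀.asIdeal := by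
    rw [← hβ]
    exact Ideal.mem_span_singleton_self β
  have hβ00 : β ≠ 0 := by
    rintro rfl
    apply v₀.ne_bot
    rw [← hβ, Ideal.span_singleton_eq_bot]
  have hβ0 : (β : F) ≠ 0 := by
    rw [Ne, RingOfIntegers.coe_eq_zero_iff]
    exact hβ00
  have hβval : ∀ v : HeightOneSpectrum (𝓞 F), v ≠ v₀ → v.valuation F (β : F) = 1 := by
    intro v hv
    refine le_antisymm (int_le v _) ?_
    by_contra hcon
    push Not at hcon
    have h3 : β ∈ v.asIdeal := (mem_iff v _).2 hcon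
    have h4 : v₀.asIdeal ≤ v.asIdeal := by
      rw [← hβ, Ideal.span_singleton_le_iff_mem]
      exact h3
    apply hv
    apply HeightOneSpectrum.ext
    exact (v₀.isMaximal.eq_of_le v.isPrime.ne_top h4).symm
  -- the element near `β` outside `v₀`
  obtain ⟨t, ht0, ht⟩ := exists_apxg hN (fun v => if v = v₀ then (1 : 𝓞 F) else β) (by
    intro v hv
    by_cases h : v = v₀
    · simp only [h, if_true]
      exact map_one _
    · simp only [h, if_false]
      exact hβval v h)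
  have htF : (t : F) ≠ 0 := by
    rw [Ne, RingOfIntegers.coe_eq_zero_iff]
    exact ht0
  have htβ : ∀ v : HeightOneSpectrum (𝓞 F), (N : 𝓞 F) ∈ v.asIdeal → v ≠ v₀ →
      Cl v N ((t : F) / (β : F)) := by
    intro v hv h
    have := (ht v hv).2
    rwa [if_neg h] at this
  -- the elements at the primes above `ℓ`
  choose z hz0 hz using fun v : HeightOneSpectrum (𝓞 F) =>
    exists_apxg hN (fun v' => if v' = v then t else (1 : 𝓞 F)) (by
      intro v' hv'
      by_cases h : v' = v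
      · simp only [h, if_true]
        rw [← h]
        exact (ht v' hv').1
      · simp only [h, if_false]
        exact map_one _)
  have hz1 : ∀ v v' : HeightOneSpectrum (𝓞 F), (N : 𝓞 F) ∈ v'.asIdeal →
      v'.valuation F (z v : F) = 1 := fun v v' hv' => (hz v v' hv').1
  have hz2 : ∀ v : HeightOneSpectrum (𝓞 F), (N : 𝓞 F) ∈ v.asIdeal →
      Cl v N ((z v : F) / (t : F)) := by
    intro v hv
    have := (hz v v hv).2
    rwa [if_pos rfl] at this
  have hz3 : ∀ v v' : HeightOneSpectrum (𝓞 F), (N : 𝓞 F) ∈ v'.asIdeal → v' ≠ v →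
      Cl v' N (z v : F) := by
    intro v v' hv' h
    have h3 := (hz v v' hv').2
    rw [if_neg h] at h3
    have e : (z v : F) / ((1 : 𝓞 F) : F) = (z v : F) := by
      have e1 : ((1 : 𝓞 F) : F) = 1 := map_one (algebraMap (𝓞 F) F)
      rw [e1, div_one]
    rwa [e] at h3
  have hzF : ∀ v, ((z v : 𝓞 F) : F) ≠ 0 := fun v => by
    rw [Ne, RingOfIntegers.coe_eq_zero_iff]
    exact hz0 v
  let x : HeightOneSpectrum (𝓞 F) → Fˣ := fun v => Units.mk0 ((z v : F) ^ 2) (pow_ne_zero 2 (hzF v))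
  have hxU : ∀ v, Un N (x v) := by
    intro v v' hv'
    show v'.valuation F ((z v : F) ^ 2) = 1
    rw [map_pow, hz1 v v' hv', one_pow]
  have hsq : ∀ y : F, y ≠ 0 → Pos (y ^ 2) := by
    intro y hy σ
    rw [map_pow]
    have : σ y ≠ 0 := (_root_.map_ne_zero σ).2 hy
    positivity
  have ha : ∀ v ∈ T, artA φ (prin (x v)) + a v • artA χ (prin (x v)) = 0 := by
    intro v hv
    have h3 := hrec (some ⟨v, hv⟩) (x v) (hxU v) (hsq _ (hzF v)) (fun v' hv' hN' => by
      have hne : v' ≠ v := by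
        rintro rfl
        exact h2 v' ((hT v').1 hv) hv'
      exact cl_pow hN' (hz3 v v' hN' hne) 2)
    change artA (φ * χ ^ a v) (prin (x v)) = 0 at h3
    rwa [artA_mul, artA_pow] at h3
  -- the element `t` and the prime `v₀`
  let t' : Fˣ := Units.mk0 (t : F) htF
  let β' : Fˣ := Units.mk0 (β : F) hβ0
  have hg : artA φ (prin (β' ^ 2)) = artA φ (prin (t' ^ 2)) := by
    have h3 := hgood none ((t' * β'⁻¹) ^ 2) (by
      have e : (((t' * β'⁻¹) ^ 2 : Fˣ) : F) = ((t : F) / (β : F)) ^ 2 := by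
        rw [Units.val_pow_eq_pow_val, Units.val_mul, Units.val_inv_eq_inv_val, div_eq_mul_inv]
        rfl
      rw [e]
      exact hsq _ (div_ne_zero htF hβ0)) (by
      have e : (((t' * β'⁻¹) ^ 2 : Fˣ) : F) = ((t : F) / (β : F)) ^ 2 := by
        rw [Units.val_pow_eq_pow_val, Units.val_mul, Units.val_inv_eq_inv_val, div_eq_mul_inv]
        rfl
      rw [e]
      intro v hv hN'
      exact cl_pow hN' (htβ v hN' (fun h => hv h)) 2)
    change artA (φ * χ ^ 0) _ = 0 at h3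
    rw [pow_zero, mul_one, mul_pow, inv_pow, prin_mul, prin_inv, map_add, map_neg] at h3
    exact (add_neg_eq_zero.1 h3).symm
  have hprinβ : prin (β' ^ 2) = Finsupp.single v₀ 2 := by
    ext v
    by_cases hv : v = v₀
    · subst hv
      rw [Finsupp.single_eq_same]
      have e1 : prin (β' ^ 2) v = prin β' v + prin β' v := by
        rw [pow_two, prin_mul, Finsupp.add_apply]
      rw [e1, Pool.Agent.Q257.AR.prin_eq β hβ00 β' rfl v]
      have e2 : (Associates.mk v.asIdeal).count (Associates.mk (Ideal.span {β})).factors = 1 := by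
        rw [hβ]
        exact Associates.count_self v.associates_irreducible
      rw [e2]
      norm_num
    · rw [Finsupp.single_eq_of_ne hv]
      refine Pool.Agent.Q125.AR.prin_eq_zero_of_valuation ?_
      rw [Units.val_pow_eq_pow_val, map_pow]
      show (v.valuation F (β : F)) ^ 2 = 1
      rw [hβval v hv, one_pow]
  -- the quotient of the product
  let y : Fˣ := (∏ v ∈ T, x v) * (t' ^ 2)⁻¹
  have hy : (y : F) = (∏ v ∈ T, (z v : F) ^ 2) * ((t : F) ^ 2)⁻¹ := by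
    show (((∏ v ∈ T, x v) * (t' ^ 2)⁻¹ : Fˣ) : F) = _
    rw [Units.val_mul, Units.coe_prod, Units.val_inv_eq_inv_val, Units.val_pow_eq_pow_val]
    rfl
  have hb : artA φ (prin y) = 0 := by
    have h3 := hrec none y ?_ ?_ ?_
    · change artA (φ * χ ^ 0) (prin y) = 0 at h3
      rwa [pow_zero, mul_one] at h3
    · intro v' hv'
      rw [hy, map_mul, map_inv₀, map_pow, (ht v' hv').1, one_pow, inv_one, mul_one, map_prod]
      refine Finset.prod_eq_one fun v _ => ?_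
      rw [map_pow, hz1 v v' hv', one_pow]
    · intro σ
      rw [hy, map_mul, map_prod, map_inv₀]
      have h4 : σ (t : F) ≠ 0 := (_root_.map_ne_zero σ).2 htF
      have h5 : 0 < ∏ v ∈ T, σ ((z v : F) ^ 2) := Finset.prod_pos fun v _ => by
        rw [map_pow]
        have : σ (z v : F) ≠ 0 := (_root_.map_ne_zero σ).2 (hzF v)
        positivity
      rw [map_pow]
      positivity
    · intro v' hv' hN'
      change v' ∈ RamA (φ * χ ^ 0) at hv'
      have hℓv' : (ℓ : 𝓞 F) ∈ v'.asIdeal := by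
        by_contra hcon
        exact h1 v' hcon 0 hv'
      have hv'T := (hT v').2 hℓv'
      show Cl v' N (y : F)
      have e : (y : F) = ((z v' : F) / (t : F)) ^ 2 * ∏ v ∈ T.erase v', (z v : F) ^ 2 := by
        rw [hy, ← Finset.mul_prod_erase T _ hv'T, div_pow]
        field_simp
      rw [e]
      refine cl_mul hN' (cl_pow hN' (hz2 v' hN') 2) (cl_prod _ hN' fun v hv => ?_)
      exact cl_pow hN' (hz3 v v' hN' (Finset.ne_of_mem_erase hv).symm) 2
  have hprin : artA φ (prin y) = ∑ v ∈ T, artA φ (prin (x v)) -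
      (2 : ℤ) • Additive.ofMul (φ (frob M v₀)) := by
    show artA φ (prin ((∏ v ∈ T, x v) * (t' ^ 2)⁻¹)) = _
    rw [prin_mul, prin_prod, prin_inv, map_add, map_sum, map_neg, ← hg, hprinβ, artA_single,
      sub_eq_add_neg]
  rw [hb] at hprin
  have hc : ∑ v ∈ T, a v • artA χ (prin (x v)) + (2 : ℤ) • Additive.ofMul (φ (frob M v₀)) = 0 := by
    have h6 := Finset.sum_eq_zero ha
    rw [Finset.sum_add_distrib] at h6
    have h7 : ∑ v ∈ T, artA φ (prin (x v)) = (2 : ℤ) • Additive.ofMul (φ (frob M v₀)) :=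
      (sub_eq_zero.1 hprin.symm)
    rw [h7, add_comm] at h6
    exact h6
  refine ⟨z, fun v hv v' hv' => ⟨fun h => ?_, fun h => ?_⟩, ?_⟩
  · have hN' := hNv v' ((hT v').1 hv')
    have hne : v' ≠ v₀ := by
      rintro rfl
      exact hℓv₀ ((hT v').1 hv')
    subst h
    have h8 := cl_mul hN' (hz2 v' hN') (htβ v' hN' hne)
    have e : (z v' : F) / (t : F) * ((t : F) / (β : F)) = (z v' : F) / (β : F) := by
      field_simp
    rw [e] at h8
    exact h8.trans (val_mono v' hmN)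
  · exact (hz3 v v' (hNv v' ((hT v').1 hv')) h).trans (val_mono v' hmN)
  · have h7 := congrArg (fun t : Additive (ZMod m)ˣ => ((t.toMul : (ZMod m)ˣ) : ZMod m)) hc
    have e2 : (2 : ℤ) • Additive.ofMul (φ (frob M v₀)) = Additive.ofMul ((φ (frob M v₀)) ^ 2) := by
      rw [ofMul_pow, ← natCast_zsmul]
      rfl
    rw [e2] at h7
    simp only [toMul_add, toMul_sum, toMul_nsmul, Units.val_mul, Units.coe_prod,
      Units.val_pow_eq_pow_val, toMul_zero, Units.val_one, toMul_ofMul] at h7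
    rw [← h7]
    congr 1
    refine Finset.prod_congr rfl fun v hv => ?_
    rw [artA_cyc hζ χ hχ hmN (x v) (hxU v) (z v ^ 2) (pow_ne_zero 2 (hz0 v)) rfl]

end

end Pool.Agent.H16.PW
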