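import Pool.Agent.H16.PW.Prc
import Pool.Agent.H16.PW.Csq

/-!
# The reciprocity law at a principal prime, for the absolute Galois group
-/

set_option autoImplicit false
set_option linter.unusedSectionVars false
set_option linter.deprecated false
set_option maxHeartbeats 4000000
set_option synthInstance.maxHeartbeats 400000

namespace Pool.Agent.H16.PW

open NumberField IsDedekindDomain Pool.Agent.Q92.AR Pool.Agent.Q20.EX Pool.Agent.W401.Cheb
open Pool.Agent.NH7.Sch (OO Inr)

section

variable {K : Type} [Field K] [NumberField K] {F : IntermediateField K (AlgebraicClosure K)}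
  [FiniteDimensional K F]

/-- the field fixed by the normal core of an open subgroup -/
theorem exists_core_field (U : Subgroup (GK K)) (hU : IsOpen (U : Set (GK K)))
    (hUF : U ≤ F.fixingSubgroup) : ∃ E : IntermediateField K (AlgebraicClosure K),
      FiniteDimensional K E ∧ IsGalois K E ∧ F ≤ E ∧ E.fixingSubgroup = U.normalCore := by
  have hfq : Finite (GK K ⧸ U) := Subgroup.quotient_finite_of_isOpen U hU
  have hfi : U.FiniteIndex := Subgroup.finiteIndex_of_finite_quotient
  have hCo : IsOpen (U.normalCore : Set (GK K)) := Pool.Agent.R390.SF.isOpen_core hU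
  have hCc : IsClosed (U.normalCore : Set (GK K)) := Subgroup.isClosed_of_isOpen _ hCo
  let E : IntermediateField K (AlgebraicClosure K) := IntermediateField.fixedField U.normalCore
  have hE : E.fixingSubgroup = U.normalCore :=
    InfiniteGalois.fixingSubgroup_fixedField ⟨U.normalCore, hCc⟩
  refine ⟨E, ?_, ?_, ?_, hE⟩
  · rw [← InfiniteGalois.isOpen_iff_finite E]
    show IsOpen (E.fixingSubgroup : Set (GK K))
    rw [hE]
    exact hCo
  · rw [← InfiniteGalois.normal_iff_isGalois E, hE]
    exact Subgroup.normalCore_normal U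
  · intro x hx
    rw [IntermediateField.mem_fixedField_iff]
    intro c hc
    exact (IntermediateField.mem_fixingSubgroup_iff F c).1 (hUF (Subgroup.normalCore_le U hc)) x hx

end

section

variable {K : Type} [Field K] [NumberField K] {F : IntermediateField K (AlgebraicClosure K)}
  [NumberField F] [FiniteDimensional K F]

/-- inertia elements and conjugation -/
theorem inertia_conj {P : Ideal (OO K)} {τ : GK K} (h : ∀ x : OO K, τ • x - x ∈ P) (g : GK K) :
    ∀ x : OO K, (g * τ * g⁻¹) • x - x ∈ P.comap (MulSemiringAction.toRingHom (GK K) (OO K) g⁻¹) := by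
  intro x
  rw [Ideal.mem_comap]
  show g⁻¹ • ((g * τ * g⁻¹) • x - x) ∈ P
  rw [smul_sub, ← mul_smul, mul_assoc, inv_mul_cancel_left, mul_smul]
  exact h (g⁻¹ • x)

theorem comap_max {P : Ideal (OO K)} (hP : P.IsMaximal) (g : GK K) :
    (P.comap (MulSemiringAction.toRingHom (GK K) (OO K) g)).IsMaximal := by
  refine Ideal.comap_isMaximal_of_surjective _ ?_
  intro y
  exact ⟨g⁻¹ • y, smul_inv_smul g y⟩

theorem comap_nat {P : Ideal (OO K)} (g : GK K) (p : ℕ) :
    (p : OO K) ∈ P.comap (MulSemiringAction.toRingHom (GK K) (OO K) g) ↔ (p : OO K) ∈ P := by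
  rw [Ideal.mem_comap, map_natCast]

attribute [local instance] algFE tower

/-- the primes which do not ramify for `U` are unramified in the field of the normal core -/
theorem unram_core {E : IntermediateField K (AlgebraicClosure K)} [hFE : Fact (F ≤ E)]
    [NumberField E] [IsGalois K E] [IsGalois F E] {U : Subgroup (GK K)}
    (hE : E.fixingSubgroup = U.normalCore) {p : ℕ}
    (hU : ∀ P : Ideal (OO K), P.IsMaximal → (p : OO K) ∈ P → ∀ τ : GK K,
      (∀ x : OO K, τ • x - x ∈ P) → τ ∈ U) (v : HeightOneSpectrum (𝓞 F))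
    (hpv : (p : 𝓞 F) ∈ v.asIdeal) : Unramified E v := by
  refine Pool.Agent.Q111.EX.unram_of_inert (M := E) v fun w hw g hg x => ?_
  have hwm : w.asIdeal.IsMaximal := w.isMaximal
  obtain ⟨P, hP, hPw⟩ := Ideal.exists_ideal_over_maximal_of_isIntegral (S := OO K) w.asIdeal (by
    rw [(RingHom.injective_iff_ker_eq_bot _).1 (FaithfulSMul.algebraMap_injective (𝓞 E) (OO K))]
    exact bot_le)
  obtain ⟨τ, hτ, hτg⟩ := Pool.Agent.NH7.Sch.inr_lift (K := K) E hP (g.restrictScalars K)
    (fun b => by
      have h1 : ((g.restrictScalars K) • b - b : 𝓞 E) ∈ w.asIdeal := by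
        rw [mem_iff]
        exact hg b
      rw [← hPw] at h1
      exact h1)
  have h2 : ∀ x : E, τ (x : AlgebraicClosure K) = (g x : E) := hτg
  have hpP : (p : OO K) ∈ P := by
    have h3 : (p : 𝓞 E) ∈ w.asIdeal := by
      have h4 : algebraMap (𝓞 F) (𝓞 E) (p : 𝓞 F) ∈ w.asIdeal := by
        have h5 : (p : 𝓞 F) ∈ (w.under (𝓞 F)).asIdeal := by rw [hw]; exact hpv
        exact h5
      rwa [map_natCast] at h4
    rw [← hPw] at h3
    have h4 : algebraMap (𝓞 E) (OO K) (p : 𝓞 E) ∈ P := h3
    rwa [map_natCast] at h4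
  have h3 : τ ∈ E.fixingSubgroup := by
    rw [hE]
    intro h
    refine hU _ (comap_max hP h⁻¹) ((comap_nat h⁻¹ p).2 hpP) _ (inertia_conj hτ h)
  apply Subtype.ext
  show ((g x : E) : AlgebraicClosure K) = x
  rw [← h2]
  exact (IntermediateField.mem_fixingSubgroup_iff E τ).1 h3 _ x.2

/-- the restriction of a Frobenius element is a Frobenius element -/
theorem isFrob_res {M : Type} [Field M] [NumberField M] [Algebra F M]
    (j : M →+* AlgebraicClosure K) (hj : ∀ x : F, j (algebraMap F M x) = x)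
    {g : M ≃ₐ[F] M} {s : GK K} (hg : ∀ x : M, j (g x) = s (j x)) {P : Ideal (OO K)}
    (hP : P.IsMaximal) {v : HeightOneSpectrum (𝓞 F)} (hPv : P.under (𝓞 F) = v.asIdeal)
    (hs : ∀ x : OO K, s • x - x ^ Ideal.absNorm v.asIdeal ∈ P) : IsFrobenius v g := by
  let jj : 𝓞 M →+* OO K := RingOfIntegers.mapRingHom j
  have hjj : ∀ x : 𝓞 M, ((jj x : OO K) : AlgebraicClosure K) = j (x : M) := fun x => rfl
  have hPp := hP.isPrime
  have hc : (P.comap jj).comap (algebraMap (𝓞 F) (𝓞 M)) = v.asIdeal := by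
    rw [← hPv]
    ext a
    rw [Ideal.mem_comap, Ideal.mem_comap]
    have h1 : jj (algebraMap (𝓞 F) (𝓞 M) a) = algebraMap (𝓞 F) (OO K) a := by
      apply RingOfIntegers.ext
      rw [hjj]
      exact hj (a : F)
    rw [h1]
    rfl
  have h0 : P.comap jj ≠ ⊥ := by
    intro h
    apply v.ne_bot
    rw [← hc, h, ← RingHom.ker_eq_comap_bot]
    exact (RingHom.injective_iff_ker_eq_bot _).1 (FaithfulSMul.algebraMap_injective (𝓞 F) (𝓞 M))
  have hp : (P.comap jj).IsPrime := Ideal.comap_isPrime _ _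
  refine ⟨P.comap jj, hp.isMaximal h0, hc, fun x => ?_⟩
  have hgx : IsIntegral ℤ (g (x : M)) := x.2.map g
  obtain ⟨y, hy⟩ : ∃ y : 𝓞 M, (y : M) = g (x : M) := ⟨⟨g (x : M), hgx⟩, rfl⟩
  refine ⟨y - x ^ Ideal.absNorm v.asIdeal, ?_, by rw [← hy]; rfl⟩
  rw [Ideal.mem_comap, map_sub, map_pow]
  have h1 : jj y = s • jj x := by
    apply RingOfIntegers.ext
    rw [hjj, hy, hg]
    rfl
  rw [h1]
  exact hs _

end

end Pool.Agent.H16.PW
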