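import Pool.Agent.H16.PW.Pol

/-!
# Fields with a real embedding have no CM subfields
-/

set_option autoImplicit false

namespace Pool.Agent.H16.PW

open NumberField Pool.Agent.R390.SF

theorem noCM_of_real {F : SubFld ℚ} (h : Nonempty (F →+* ℝ)) (L : SubFld ℚ) (hL : L ≤ F) :
    ¬ IsCMField L := by
  intro hCM
  obtain ⟨f⟩ := h
  let j : L →+* F :=
    { toFun := fun x => ⟨x, hL x.2⟩
      map_one' := rfl
      map_mul' := fun _ _ => rfl
      map_zero' := rfl
      map_add' := fun _ _ => rfl }
  have h1 : IsTotallyComplex L := IsCMField.to_isTotallyComplex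
  have h2 := h1.isComplex (InfinitePlace.mk ((Complex.ofRealHom).comp (f.comp j)))
  rw [InfinitePlace.isComplex_mk_iff] at h2
  apply h2
  rw [ComplexEmbedding.isReal_iff]
  ext x
  rw [ComplexEmbedding.conjugate_coe_eq]
  exact Complex.conj_ofReal _

theorem noCM {F : SubFld ℚ} (h : (∀ L : SubFld ℚ, L ≤ F → ¬ IsCMField L) ∨ Nonempty (F →+* ℝ))
    (L : SubFld ℚ) (hL : L ≤ F) : ¬ IsCMField L := by
  rcases h with h | h
  · exact h L hL
  · exact noCM_of_real h L hL

end Pool.Agent.H16.PW
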