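import Pool.Agent.H16.PW.Art

/-!
# The relation between the norms given by the reciprocity law
-/

set_option autoImplicit false
set_option linter.unusedSectionVars false
set_option linter.deprecated false

namespace Pool.Agent.H16.PW

open NumberField IsDedekindDomain Pool.Agent.Q5.BR Pool.Agent.Q92.AR Pool.Agent.Q20.EX

section

variable {F : Type} [Field F] [NumberField F]

/-- close to `1` -/
def Cl (v : HeightOneSpectrum (𝓞 F)) (N : ℕ) (x : F) : Prop :=
  v.valuation F (x - 1) ≤ v.valuation F (N : F)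

theorem natCast_coe (k : ℕ) : ((k : 𝓞 F) : F) = (k : F) := map_natCast (algebraMap (𝓞 F) F) k

theorem int_le (v : HeightOneSpectrum (𝓞 F)) (a : 𝓞 F) : v.valuation F (a : F) ≤ 1 :=
  v.valuation_le_one a

theorem mem_iff (v : HeightOneSpectrum (𝓞 F)) (a : 𝓞 F) :
    a ∈ v.asIdeal ↔ v.valuation F (a : F) < 1 :=
  (HeightOneSpectrum.valuation_lt_one_iff_mem (K := F) v a).symm

theorem val_lt {v : HeightOneSpectrum (𝓞 F)} {N : ℕ} (hN : (N : 𝓞 F) ∈ v.asIdeal) :
    v.valuation F (N : F) < 1 := by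
  rw [← natCast_coe]
  exact (mem_iff v _).1 hN

theorem cl_val {v : HeightOneSpectrum (𝓞 F)} {N : ℕ} (hN : (N : 𝓞 F) ∈ v.asIdeal) {x : F}
    (hx : Cl v N x) : v.valuation F x = 1 := by
  have h := (v.valuation F).map_one_add_of_lt (hx.trans_lt (val_lt hN))
  rwa [add_sub_cancel] at h

theorem cl_one (v : HeightOneSpectrum (𝓞 F)) (N : ℕ) : Cl v N (1 : F) := by
  unfold Cl
  rw [sub_self, map_zero]
  exact zero_le

theorem cl_mul {v : HeightOneSpectrum (𝓞 F)} {N : ℕ} (hN : (N : 𝓞 F) ∈ v.asIdeal) {x y : F}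
    (hx : Cl v N x) (hy : Cl v N y) : Cl v N (x * y) := by
  unfold Cl
  have e : x * y - 1 = x * (y - 1) + (x - 1) := by ring
  rw [e]
  refine Valuation.map_add_le _ ?_ hx
  rw [map_mul, cl_val hN hx, one_mul]
  exact hy

theorem cl_inv {v : HeightOneSpectrum (𝓞 F)} {N : ℕ} (hN : (N : 𝓞 F) ∈ v.asIdeal) {x : F}
    (hx : Cl v N x) : Cl v N x⁻¹ := by
  unfold Cl
  have h1 := cl_val hN hx
  have hx0 : x ≠ 0 := fun h => by simp [h] at h1
  have e : x⁻¹ - 1 = - (x⁻¹ * (x - 1)) := by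
    rw [mul_sub, inv_mul_cancel₀ hx0]
    ring
  rw [e, Valuation.map_neg, map_mul, map_inv₀, h1, inv_one, one_mul]
  exact hx

theorem cl_pow {v : HeightOneSpectrum (𝓞 F)} {N : ℕ} (hN : (N : 𝓞 F) ∈ v.asIdeal) {x : F}
    (hx : Cl v N x) (n : ℕ) : Cl v N (x ^ n) := by
  induction n with
  | zero => rw [pow_zero]; exact cl_one v N
  | succ n ih => rw [pow_succ]; exact cl_mul hN ih hx

theorem cl_prod {ι : Type} (s : Finset ι) {v : HeightOneSpectrum (𝓞 F)} {N : ℕ}
    (hN : (N : 𝓞 F) ∈ v.asIdeal) {f : ι → F} (h : ∀ i ∈ s, Cl v N (f i)) :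
    Cl v N (∏ i ∈ s, f i) := by
  classical
  induction s using Finset.induction_on with
  | empty => rw [Finset.prod_empty]; exact cl_one v N
  | insert i s hi ih =>
    rw [Finset.prod_insert hi]
    exact cl_mul hN (h i (Finset.mem_insert_self i s))
      (ih fun j hj => h j (Finset.mem_insert_of_mem hj))

theorem primes_finite {N : ℕ} (hN : N ≠ 0) :
    {v : HeightOneSpectrum (𝓞 F) | (N : 𝓞 F) ∈ v.asIdeal}.Finite := by
  have h0 : Ideal.span {(N : 𝓞 F)} ≠ 0 := by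
    rw [Ne, Ideal.zero_eq_bot, Ideal.span_singleton_eq_bot]
    exact_mod_cast hN
  refine (Ideal.finite_factors h0).subset fun v hv => ?_
  rw [Set.mem_ofPred_eq, Ideal.dvd_span_singleton]
  exact hv

/-- approximation -/
theorem exists_apx {N : ℕ} (hN : N ≠ 0) (v : HeightOneSpectrum (𝓞 F)) (u : (𝓞 F)ˣ) :
    ∃ z : 𝓞 F, z ≠ 0 ∧ ∀ v' : HeightOneSpectrum (𝓞 F), (N : 𝓞 F) ∈ v'.asIdeal →
      v'.valuation F (z : F) = 1 ∧ (v' = v → Cl v' N ((z : F) / ((u : 𝓞 F) : F))) ∧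
        (v' ≠ v → Cl v' N (z : F)) := by
  classical
  have hN0 : (N : F) ≠ 0 := by exact_mod_cast hN
  have hK : ∀ v' : HeightOneSpectrum (𝓞 F), ∃ K : ℕ,
      WithZero.exp (-(K : ℤ)) ≤ v'.valuation F (N : F) := by
    intro v'
    have h0 : v'.valuation F (N : F) ≠ 0 := (Valuation.ne_zero_iff _).2 hN0
    refine ⟨(WithZero.log (v'.valuation F (N : F))).natAbs, ?_⟩
    conv_rhs => rw [← WithZero.exp_log h0]
    rw [WithZero.exp_le_exp]
    omega
  choose K hK using hK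
  set s : Finset (HeightOneSpectrum (𝓞 F)) := (primes_finite (F := F) hN).toFinset ∪ {v} with hs
  obtain ⟨z, hz⟩ := IsDedekindDomain.exists_forall_sub_mem_ideal (s := s)
    (fun v' : HeightOneSpectrum (𝓞 F) => v'.asIdeal) (fun v' => K v' + 1) (fun v' _ => v'.prime)
    (fun v' _ w _ hvw h => hvw (HeightOneSpectrum.ext h))
    (fun v' => if (v' : HeightOneSpectrum (𝓞 F)) = v then (u : 𝓞 F) else 1)
  have hval : ∀ v' ∈ s, ∀ y : 𝓞 F, z - y ∈ v'.asIdeal ^ (K v' + 1) →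
      v'.valuation F ((z : F) - (y : F)) ≤ v'.valuation F (N : F) ∧
        v'.valuation F ((z : F) - (y : F)) < 1 := by
    intro v' _ y hy
    have h1 : v'.valuation F (((z - y : 𝓞 F)) : F) ≤ WithZero.exp (-((K v' + 1 : ℕ) : ℤ)) := by
      rw [HeightOneSpectrum.valuation_of_algebraMap]
      exact (v'.intValuation_le_pow_iff_mem _ _).2 hy
    have e : ((z - y : 𝓞 F) : F) = (z : F) - (y : F) := map_sub (algebraMap (𝓞 F) F) z y
    rw [e] at h1
    refine ⟨h1.trans (le_trans ?_ (hK v')), h1.trans_lt ?_⟩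
    · rw [WithZero.exp_le_exp]
      omega
    · rw [← WithZero.exp_zero, WithZero.exp_lt_exp]
      omega
  have huv : ∀ v' : HeightOneSpectrum (𝓞 F), v'.valuation F ((u : 𝓞 F) : F) = 1 := by
    intro v'
    refine le_antisymm (int_le v' _) ?_
    by_contra hcon
    push Not at hcon
    have h1 := (mem_iff v' _).2 hcon
    exact v'.isPrime.ne_top (Ideal.eq_top_of_isUnit_mem _ h1 u.isUnit)
  have hu0 : ((u : 𝓞 F) : F) ≠ 0 := by
    intro h
    have := huv v
    simp [h] at this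
  have key : ∀ v' ∈ s, (v' = v → v'.valuation F ((z : F) - ((u : 𝓞 F) : F)) ≤
      v'.valuation F (N : F) ∧ v'.valuation F ((z : F) - ((u : 𝓞 F) : F)) < 1) ∧
      (v' ≠ v → v'.valuation F ((z : F) - 1) ≤
      v'.valuation F (N : F) ∧ v'.valuation F ((z : F) - 1) < 1) := by
    intro v' hv'
    have h1 := hz v' hv'
    constructor
    · intro h
      rw [if_pos h] at h1
      exact hval v' hv' _ h1
    · intro h
      rw [if_neg h] at h1
      exact hval v' hv' 1 h1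
  have hone : ∀ v' ∈ s, v'.valuation F (z : F) = 1 := by
    intro v' hv'
    by_cases h : v' = v
    · have h1 := ((key v' hv').1 h).2
      have h2 := Valuation.map_add_eq_of_lt_right (v'.valuation F) (x := (z : F) - ((u : 𝓞 F) : F))
        (y := ((u : 𝓞 F) : F)) (by rw [huv]; exact h1)
      rw [sub_add_cancel] at h2
      rw [h2, huv]
    · have h1 := ((key v' hv').2 h).2
      have h2 := (v'.valuation F).map_one_add_of_lt h1
      rwa [add_sub_cancel] at h2
  refine ⟨z, ?_, fun v' hv' => ?_⟩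
  · rintro rfl
    have := hone v (Finset.mem_union_right _ (Finset.mem_singleton_self v))
    simp at this
  have hv's : v' ∈ s := Finset.mem_union_left _ ((primes_finite hN).mem_toFinset.2 hv')
  refine ⟨hone v' hv's, fun h => ?_, fun h => ((key v' hv's).2 h).1⟩
  unfold Cl
  have e : (z : F) / ((u : 𝓞 F) : F) - 1 = ((z : F) - ((u : 𝓞 F) : F)) / ((u : 𝓞 F) : F) := by
    field_simp
  rw [e, map_div₀, huv, div_one]
  exact ((key v' hv's).1 h).1

end

section

variable {F M : Type} [Field F] [NumberField F] [Field M] [NumberField M] [Algebra F M]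

theorem prin_prod {ι : Type} (s : Finset ι) (f : ι → Fˣ) :
    prin (∏ i ∈ s, f i) = ∑ i ∈ s, prin (f i) := by
  classical
  induction s using Finset.induction_on with
  | empty => rw [Finset.prod_empty, Finset.sum_empty, prin_one]
  | insert i s hi ih => rw [Finset.prod_insert hi, Finset.sum_insert hi, prin_mul, ih]

theorem prin_unit (u : (𝓞 F)ˣ) (x : Fˣ) (hx : (x : F) = ((u : 𝓞 F) : F)) : prin x = 0 := by
  ext v
  refine Pool.Agent.Q125.AR.prin_eq_zero_of_valuation ?_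
  rw [hx]
  refine le_antisymm (int_le v _) ?_
  by_contra hcon
  push Not at hcon
  exact v.isPrime.ne_top (Ideal.eq_top_of_isUnit_mem _ ((mem_iff v _).2 hcon) u.isUnit)

/-- **The relation between the norms.** -/
theorem rel_norm [IsGalois F M] {ℓ n m : ℕ} (hℓ : ℓ.Prime) (hn : 0 < n) (hm : m = ℓ ^ n) [NeZero m]
    {ζ : M} (hζ : IsPrimitiveRoot ζ m) (φ χ : (M ≃ₐ[F] M) →* (ZMod m)ˣ)
    (hχ : ∀ g : M ≃ₐ[F] M, g ζ = ζ ^ (χ g : ZMod m).val) (a : HeightOneSpectrum (𝓞 F) → ℕ)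
    (h1 : ∀ v : HeightOneSpectrum (𝓞 F), (ℓ : 𝓞 F) ∉ v.asIdeal → ∀ b : ℕ, v ∉ RamA (φ * χ ^ b))
    (h2 : ∀ v : HeightOneSpectrum (𝓞 F), (ℓ : 𝓞 F) ∈ v.asIdeal → v ∉ RamA (φ * χ ^ a v))
    (u : (𝓞 F)ˣ) (T : Finset (HeightOneSpectrum (𝓞 F)))
    (hT : ∀ v, v ∈ T ↔ (ℓ : 𝓞 F) ∈ v.asIdeal) :
    ∃ z : HeightOneSpectrum (𝓞 F) → 𝓞 F, (∀ v ∈ T, ∀ v' ∈ T,
      (v' = v → Cl v' m ((z v : F) / ((u : 𝓞 F) : F))) ∧ (v' ≠ v → Cl v' m (z v : F))) ∧
      ∏ v ∈ T, ((Ideal.absNorm (Ideal.span {z v ^ 2}) : ℕ) : ZMod m) ^ a v = 1 := by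
  classical
  have hm0 : m ≠ 0 := NeZero.ne m
  obtain ⟨N, hN, hmN, -, hrec⟩ := exists_N (F := F) (M := M)
    (fun i : Option T => (match i with | none => φ * χ ^ 0 | some v => φ * χ ^ a v)) hm0
  have hNv : ∀ v : HeightOneSpectrum (𝓞 F), (ℓ : 𝓞 F) ∈ v.asIdeal → (N : 𝓞 F) ∈ v.asIdeal := by
    intro v hv
    obtain ⟨k, rfl⟩ := hmN
    rw [Nat.cast_mul, hm, Nat.cast_pow]
    exact v.asIdeal.mul_mem_right _ (Ideal.pow_mem_of_mem _ hv n hn)
  choose z hz0 hz using fun v : HeightOneSpectrum (𝓞 F) => exists_apx hN v u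
  have hu0 : ((u : 𝓞 F) : F) ≠ 0 := by
    have := u.ne_zero
    rw [Ne, RingOfIntegers.coe_eq_zero_iff]
    exact this
  -- the elements
  have hzF : ∀ v, ((z v : 𝓞 F) : F) ≠ 0 := fun v => by
    rw [Ne, RingOfIntegers.coe_eq_zero_iff]
    exact hz0 v
  let x : HeightOneSpectrum (𝓞 F) → Fˣ := fun v => Units.mk0 ((z v : F) ^ 2) (pow_ne_zero 2 (hzF v))
  have hxU : ∀ v, Un N (x v) := by
    intro v v' hv'
    show v'.valuation F ((z v : F) ^ 2) = 1
    rw [map_pow, (hz v v' hv').1, one_pow]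
  have hxP : ∀ v, Pos ((x v : Fˣ) : F) := by
    intro v σ
    show 0 < σ ((z v : F) ^ 2)
    rw [map_pow]
    have : σ (z v : F) ≠ 0 := (_root_.map_ne_zero σ).2 (hzF v)
    positivity
  have ha : ∀ v ∈ T, artA φ (prin (x v)) + a v • artA χ (prin (x v)) = 0 := by
    intro v hv
    have h3 := hrec (some ⟨v, hv⟩) (x v) (hxU v) (hxP v) (fun v' hv' hN' => by
      have hne : v' ≠ v := by
        rintro rfl
        exact h2 v' ((hT v').1 hv) hv'
      exact cl_pow hN' (((hz v v' hN').2.2) hne) 2)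
    change artA (φ * χ ^ a v) (prin (x v)) = 0 at h3
    rwa [artA_mul, artA_pow] at h3
  -- the quotient of the product
  let u' : Fˣ := Units.mk0 ((u : 𝓞 F) : F) hu0
  let y : Fˣ := (∏ v ∈ T, x v) * (u' ^ 2)⁻¹
  have hy : (y : F) = (∏ v ∈ T, (z v : F) ^ 2) * (((u : 𝓞 F) : F) ^ 2)⁻¹ := by
    show (((∏ v ∈ T, x v) * (u' ^ 2)⁻¹ : Fˣ) : F) = _
    rw [Units.val_mul, Units.coe_prod, Units.val_inv_eq_inv_val, Units.val_pow_eq_pow_val]
    rfl
  have huval : ∀ v : HeightOneSpectrum (𝓞 F), v.valuation F ((u : 𝓞 F) : F) = 1 := by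
    intro v
    refine le_antisymm (int_le v _) ?_
    by_contra hcon
    push Not at hcon
    exact v.isPrime.ne_top (Ideal.eq_top_of_isUnit_mem _ ((mem_iff v _).2 hcon) u.isUnit)
  have hb : artA φ (prin y) = 0 := by
    have h3 := hrec none y ?_ ?_ ?_
    · change artA (φ * χ ^ 0) (prin y) = 0 at h3
      rwa [pow_zero, mul_one] at h3
    · intro v' hv'
      rw [hy, map_mul, map_inv₀, map_pow, huval, one_pow, inv_one, mul_one, map_prod]
      refine Finset.prod_eq_one fun v _ => ?_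
      rw [map_pow, (hz v v' hv').1, one_pow]
    · intro σ
      rw [hy, map_mul, map_prod, map_inv₀]
      have h4 : σ ((u : 𝓞 F) : F) ≠ 0 := (_root_.map_ne_zero σ).2 hu0
      have h5 : 0 < ∏ v ∈ T, σ ((z v : F) ^ 2) := Finset.prod_pos fun v _ => by
        rw [map_pow]
        have : σ (z v : F) ≠ 0 := (_root_.map_ne_zero σ).2 (hzF v)
        positivity
      rw [map_pow]
      positivity
    · intro v' hv' hN'
      change v' ∈ RamA (φ * χ ^ 0) at hv'
      have hℓv' : (ℓ : 𝓞 F) ∈ v'.asIdeal := by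
        by_contra hcon
        exact h1 v' hcon 0 hv'
      have hv'T := (hT v').2 hℓv'
      show Cl v' N (y : F)
      have e : (y : F) = ((z v' : F) / ((u : 𝓞 F) : F)) ^ 2 * ∏ v ∈ T.erase v', (z v : F) ^ 2 := by
        rw [hy, ← Finset.mul_prod_erase T _ hv'T, div_pow]
        field_simp
      rw [e]
      refine cl_mul hN' (cl_pow hN' ((hz v' v' hN').2.1 rfl) 2) (cl_prod _ hN' fun v hv => ?_)
      exact cl_pow hN' ((hz v v' hN').2.2 (Finset.ne_of_mem_erase hv).symm) 2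
  have hprin : prin y = ∑ v ∈ T, prin (x v) := by
    have h5 : prin (u' ^ 2) = 0 := prin_unit (u ^ 2) _ (by
      rw [Units.val_pow_eq_pow_val, Units.val_pow_eq_pow_val]
      rfl)
    show prin ((∏ v ∈ T, x v) * (u' ^ 2)⁻¹) = _
    rw [prin_mul, prin_prod, prin_inv, h5, neg_zero, add_zero]
  rw [hprin, map_sum] at hb
  have hc : ∑ v ∈ T, a v • artA χ (prin (x v)) = 0 := by
    have h6 := Finset.sum_eq_zero ha
    rwa [Finset.sum_add_distrib, hb, zero_add] at h6
  refine ⟨z, fun v hv v' hv' => ⟨fun h => ?_, fun h => ?_⟩, ?_⟩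
  · exact ((hz v v' (hNv v' ((hT v').1 hv'))).2.1 h).trans (val_mono v' hmN)
  · exact ((hz v v' (hNv v' ((hT v').1 hv'))).2.2 h).trans (val_mono v' hmN)
  · have h7 := congrArg (fun t : Additive (ZMod m)ˣ => ((t.toMul : (ZMod m)ˣ) : ZMod m)) hc
    simp only [toMul_sum, toMul_nsmul, Units.coe_prod, Units.val_pow_eq_pow_val, toMul_zero,
      Units.val_one] at h7
    rw [← h7]
    refine Finset.prod_congr rfl fun v hv => ?_
    rw [artA_cyc hζ χ hχ hmN (x v) (hxU v) (z v ^ 2) (pow_ne_zero 2 (hz0 v)) rfl]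

end

end Pool.Agent.H16.PW
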