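import Pool.Agent.H16.PW.Prl

/-!
# Systems of rank two over number fields without CM subfields
-/

set_option autoImplicit false
set_option linter.unusedSectionVars false
set_option linter.deprecated false
set_option linter.style.haveILetI false
set_option maxHeartbeats 4000000
set_option synthInstance.maxHeartbeats 400000

namespace Pool.Agent.H16.PW

open Module Polynomial NumberField Pool.Agent.Y800 Pool.Agent.R390.SF
open Pool.Agent.Y126.SH (chi)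

attribute [local instance] Subgroup.fintypeQuotientOfFiniteIndex

section core

variable {F : SubFld ℚ} [hF : FiniteDimensional ℚ F] {n : ℕ} {S : Finset ℕ} {w : ℕ}
  {T : IntegralSystem F n} {ℓ : ℕ} [hℓ : Fact ℓ.Prime]
  {k : Type} [Field k] [TopologicalSpace k] [IsTopologicalRing k] (ψ : ℤ_[ℓ] →+* k)

/-- `a` takes the same value at all the places above `ℓ` -/
def Parallel (F : SubFld ℚ) (ℓ : ℕ) (a : Ideal (𝓞 F) → ℕ) : Prop :=
  ∀ P Q : Ideal ZBar, P.IsMaximal → (ℓ : ZBar) ∈ P → Q.IsMaximal → (ℓ : ZBar) ∈ Q →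
    a (P.under (𝓞 F)) = a (Q.under (𝓞 F))

theorem tot_parallel {a : Ideal (𝓞 F) → ℕ} (ha : Parallel F ℓ a) {P₀ : Ideal ZBar}
    (hP₀ : P₀.IsMaximal) (hℓP₀ : (ℓ : ZBar) ∈ P₀) :
    tot F a P₀ = finrank ℚ F * a (P₀.under (𝓞 F)) := by
  unfold tot
  rw [Finset.sum_congr rfl (g := fun _ => a (P₀.under (𝓞 F))) (fun q _ =>
    ha _ _ (cj_max hP₀) (cj_nat.2 hℓP₀) hP₀ hℓP₀), Finset.sum_const, Finset.card_univ, card_quot,
    smul_eq_mul]

/-- **The weight of a stable subspace at each place.** -/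
theorem weight_par (hψ : Continuous ψ) (hk : HasMink k) (hT : T.PureSystem S w) {c : ℕ}
    {p : ℕ} (hp : p.Prime) (hpS : p ∉ S) (hpℓ : ℓ ≠ p) {P : Ideal ZBar} (hP : P.IsMaximal)
    (hpP : (p : ZBar) ∈ P) {σ : GQ} (hσ : IsGeomFrob p P σ)
    (hσc : σ ∈ (F.fixingSubgroup).normalCore) {M : ℤ} (hMk : (M : k) ≠ 0)
    (hM : ∀ (Ω : Type) [Field Ω] [IsAlgClosed Ω], (M : Ω) ≠ 0 →
      ∀ (A : (GQ ⧸ F.fixingSubgroup) → Multiset Ω) (a : ℕ),
        a ≤ expo F.fixingSubgroup * (finrank ℚ F * c) →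
        (∀ q, A q ≤ ((T.poly ((cj q.out P).under (𝓞 F))).map (Int.castRingHom Ω)).roots) →
        ∏ q, (A q).prod ^ expo F.fixingSubgroup = (p : Ω) ^ a →
          a * 2 = ∑ q, expo F.fixingSubgroup * (w * Multiset.card (A q)))
    (U : Submodule k (Fin n → k)) (hU : IsStable (rep ψ T) U)
    (a : Ideal (𝓞 F) → ℕ) (hac : ∀ 𝔩, a 𝔩 ≤ c)
    (ha : ∀ P : Ideal ZBar, P.IsMaximal → (ℓ : ZBar) ∈ P → ∀ τ : F.fixingSubgroup, InInertia P τ →
      detChar (rep ψ T) U hU τ * chik ψ τ ^ a (P.under (𝓞 F)) = 1)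
    (hpar : Parallel F ℓ a) {P₀ : Ideal ZBar} (hP₀ : P₀.IsMaximal) (hℓP₀ : (ℓ : ZBar) ∈ P₀) :
    2 * a (P₀.under (𝓞 F)) = w * finrank k U := by
  have h1 := (weight_sub' ψ hψ hk hT hp hpS hpℓ hP hpP hσ hσc hMk hM U hU a hac ha hP₀ hℓP₀).1
  rw [tot_parallel hpar hP₀ hℓP₀] at h1
  have h2 : 0 < finrank ℚ F := finrank_pos
  refine Nat.eq_of_mul_eq_mul_left h2 ?_
  calc finrank ℚ F * (2 * a (P₀.under (𝓞 F))) = finrank ℚ F * a (P₀.under (𝓞 F)) * 2 := by ring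
    _ = w * (finrank ℚ F * finrank k U) := h1
    _ = _ := by ring

/-- the property of the field `k`: the weights of the characters of the stable subspaces of the
systems are parallel -/
def Par (ψ : ℤ_[ℓ] →+* k) (F : SubFld ℚ) (c : ℕ) : Prop :=
  ∀ (φ : F.fixingSubgroup →* kˣ), Continuous (fun g => (φ g : k)) → ∀ a : Ideal (𝓞 F) → ℕ,
    (∀ 𝔩, a 𝔩 ≤ c) →
    (∀ p : ℕ, p.Prime → ℓ ≠ p → ∀ P : Ideal ZBar, P.IsMaximal → (p : ZBar) ∈ P →
      ∀ τ : F.fixingSubgroup, InInertia P τ → φ τ = 1) →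
    (∀ P : Ideal ZBar, P.IsMaximal → (ℓ : ZBar) ∈ P → ∀ τ : F.fixingSubgroup, InInertia P τ →
      φ τ * chik ψ (τ : GQ) ^ a (P.under (𝓞 F)) = 1) → Parallel F ℓ a

theorem par_detChar (hψ : Continuous ψ) {c : ℕ} (hpar : Par ψ F c) (hT : T.PureSystem S w)
    (U : Submodule k (Fin n → k)) (hU : IsStable (rep ψ T) U)
    (a : Ideal (𝓞 F) → ℕ) (hac : ∀ 𝔩, a 𝔩 ≤ c)
    (ha : ∀ P : Ideal ZBar, P.IsMaximal → (ℓ : ZBar) ∈ P → ∀ τ : F.fixingSubgroup, InInertia P τ →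
      detChar (rep ψ T) U hU τ * chik ψ τ ^ a (P.under (𝓞 F)) = 1) : Parallel F ℓ a :=
  hpar (detChar (rep ψ T) U hU) (continuous_detChar ψ hψ hT.toGoodSystem hU) a hac
    (fun p hp hpℓ P hP hpP τ hτ => det_inertia ψ hT hU hp hpℓ hP hpP hτ) ha

omit [TopologicalSpace k] [IsTopologicalRing k] in
/-- a stable line has one of the two weights -/
theorem line_weight {r : ℕ} (hr : 2 * r < w) {m : ℕ → ℕ} (h1 : ∀ s, m s ≤ rankTwo r w s)
    (h2 : ∑ s ∈ Finset.range (w + 1), m s = 1) :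
    2 * ∑ s ∈ Finset.range (w + 1), s * m s ≠ w := by
  have hz : ∀ s ∈ Finset.range (w + 1), s ≠ r → s ≠ w - r → m s = 0 := by
    intro s _ hs1 hs2
    have := h1 s
    rw [rankTwo, if_neg (by tauto)] at this
    omega
  have hne : r ≠ w - r := by omega
  have hrm : r ∈ Finset.range (w + 1) := Finset.mem_range.2 (by omega)
  have hwm : w - r ∈ Finset.range (w + 1) := Finset.mem_range.2 (by omega)
  have key : ∀ f : ℕ → ℕ, ∑ s ∈ Finset.range (w + 1), f s * m s =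
      f r * m r + f (w - r) * m (w - r) := by
    intro f
    rw [← Finset.add_sum_erase _ _ hrm, ← Finset.add_sum_erase _ _
      (Finset.mem_erase.2 ⟨hne.symm, hwm⟩), Finset.sum_eq_zero, add_zero]
    intro s hs
    rw [Finset.mem_erase, Finset.mem_erase] at hs
    rw [hz s hs.2.2 hs.2.1 hs.1, mul_zero]
  have h8 := key (fun s => s)
  have h9 := key (fun _ => 1)
  simp only [one_mul] at h9
  rw [h2] at h9
  rw [h8]
  rcases (by omega : (m r = 1 ∧ m (w - r) = 0) ∨ (m r = 0 ∧ m (w - r) = 1)) with ⟨h, h'⟩ | ⟨h, h'⟩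
  · rw [h, h', mul_one, mul_zero, add_zero]
    omega
  · rw [h, h', mul_one, mul_zero, zero_add]
    omega

end core

section two

variable {F : SubFld ℚ} [hF : FiniteDimensional ℚ F] {S : Finset ℕ} {w r : ℕ}

theorem rank_one_absurd {ℓ : ℕ} [hℓ : Fact ℓ.Prime] {k : Type} [Field k] [TopologicalSpace k]
    [IsTopologicalRing k] (ψ : ℤ_[ℓ] →+* k) (hpar : Par ψ F (w * 2)) (hr : 2 * r < w)
    {T : IntegralSystem F 2} (hT : T.HodgeSystem S w (rankTwo r w))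
    (hψ : Continuous ψ) (hk : HasMink k)
    (hw : HodgeWeightsAt F (rep ψ T) (fun g => ψ (chi ℓ g : ℤ_[ℓ])) ℓ w (rankTwo r w))
    {p : ℕ} (hp : p.Prime) (hpS : p ∉ S) (hpℓ : ℓ ≠ p) {P : Ideal ZBar} (hP : P.IsMaximal)
    (hpP : (p : ZBar) ∈ P) {σ : GQ} (hσ : IsGeomFrob p P σ)
    (hσc : σ ∈ (F.fixingSubgroup).normalCore) {M : ℤ} (hMk : (M : k) ≠ 0)
    (hM : ∀ (Ω : Type) [Field Ω] [IsAlgClosed Ω], (M : Ω) ≠ 0 →
      ∀ (A : (GQ ⧸ F.fixingSubgroup) → Multiset Ω) (a : ℕ),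
        a ≤ expo F.fixingSubgroup * (finrank ℚ F * (w * 2)) →
        (∀ q, A q ≤ ((T.poly ((cj q.out P).under (𝓞 F))).map (Int.castRingHom Ω)).roots) →
        ∏ q, (A q).prod ^ expo F.fixingSubgroup = (p : Ω) ^ a →
          a * 2 = ∑ q, expo F.fixingSubgroup * (w * Multiset.card (A q)))
    (U : Submodule k (Fin 2 → k)) (hU : IsStable (rep ψ T) U) : U = ⊥ ∨ U = ⊤ := by
  have hdim : finrank k (Fin 2 → k) = 2 := finrank_fin_fun k
  have hle := Submodule.finrank_le U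
  rw [hdim] at hle
  have h0 : finrank k U = 0 → U = ⊥ := fun h => Submodule.finrank_eq_zero.1 h
  have h1 : finrank k U = 2 → U = ⊤ := fun h => Submodule.eq_top_of_finrank_eq (by rw [hdim, h])
  have h2 : finrank k U ≠ 1 := by
    intro h2
    obtain ⟨m, hm1, hm2, hm3, hm4⟩ := exists_hodge ψ hw hU
    obtain ⟨P₀, _, hP₀, hℓP₀, _⟩ := exists_geom hℓ.out
    have h3 := weight_par ψ hψ hk (pure_of_hodge hT) hp hpS hpℓ hP hpP hσ hσc hMk hM U hU
      (fun 𝔩 => ∑ s ∈ Finset.range (w + 1), s * m 𝔩 s) hm3 hm4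
      (par_detChar ψ hψ hpar (pure_of_hodge hT) U hU _ hm3 hm4) hP₀ hℓP₀
    rw [h2, mul_one] at h3
    refine line_weight hr (hm1 (P₀.under (𝓞 F))) ?_ h3
    rw [hm2 _ (under_max hP₀) (by
      rw [mem_under, map_natCast]
      exact hℓP₀), h2]
  rcases (by omega : finrank k U = 0 ∨ finrank k U = 2) with h | h
  · exact Or.inl (h0 h)
  · exact Or.inr (h1 h)

theorem par_padic (hcm : ∀ L : SubFld ℚ, L ≤ F → ¬ IsCMField L) {ℓ : ℕ} [hℓ : Fact ℓ.Prime]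
    (c : ℕ) : Par (algebraMap ℤ_[ℓ] ℚ_[ℓ]) F c :=
  fun φ hc a _ h1 h2 _ _ hP hℓP hQ hℓQ => par_rat hcm φ hc a h1 h2 hP hℓP hQ hℓQ

theorem par_zmod (hcm : ∀ L : SubFld ℚ, L ≤ F → ¬ IsCMField L) (c : ℕ) :
    ∃ B : ℕ, ∀ (ℓ : ℕ) [Fact ℓ.Prime], B < ℓ → Par (PadicInt.toZMod (p := ℓ)) F c := by
  obtain ⟨B, hB⟩ := par_res hcm c
  exact ⟨B, fun ℓ _ hlt φ hc a hac h1 h2 P Q hP hℓP hQ hℓQ =>
    hB ℓ hlt φ hc a hac h1 h2 P Q hP hℓP hQ hℓQ⟩

/-- **The systems of rank two over a number field without CM subfields are irreducible.** -/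
theorem irr_two (hcm : ∀ L : SubFld ℚ, L ≤ F → ¬ IsCMField L) (hr : 2 * r < w)
    {T : IntegralSystem F 2} (hT : T.HodgeSystem S w (rankTwo r w)) (Λ : Set ℕ) :
    T.IsIrreducible Λ where
  rational ℓ _ _ U hU := by
    obtain ⟨q, hq, hqS', P, hPm, hqP, σ, hσ, hσc⟩ := exists_core (F := F) (S ∪ {ℓ})
    have hqS : q ∉ S := fun h => hqS' (Finset.mem_union_left _ h)
    have hqℓ : ℓ ≠ q := fun h => hqS' (Finset.mem_union_right _ (Finset.mem_singleton.2 h.symm))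
    obtain ⟨M, hM0, hM⟩ := exists_M hT.toGoodSystem hq hqS hPm hqP hσ hσc (w * 2)
    exact rank_one_absurd (algebraMap ℤ_[ℓ] ℚ_[ℓ]) (par_padic hcm _) hr hT continuous_coe mink_padic
      (hT.weights ℓ) hq hqS hqℓ hPm hqP hσ hσc (M := M) (by exact_mod_cast hM0) hM U hU
  residual := by
    obtain ⟨q, hq, hqS, P, hPm, hqP, σ, hσ, hσc⟩ := exists_core (F := F) S
    obtain ⟨N₂, hN₂⟩ := hT.residualWeights
    obtain ⟨M, hM0, hM⟩ := exists_M hT.toGoodSystem hq hqS hPm hqP hσ hσc (w * 2)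
    obtain ⟨B, hB⟩ := par_zmod hcm (w * 2)
    refine ⟨max B (max N₂ (max q M.natAbs)), ?_⟩
    intro ℓ hℓ _ hlt U hU
    simp only [max_lt_iff] at hlt
    obtain ⟨h0, h2, h4, h5⟩ := hlt
    exact rank_one_absurd (PadicInt.toZMod (p := ℓ)) (hB ℓ h0) hr hT continuous_toZMod mink_zmod
      (hN₂ ℓ h2) hq hqS (by omega) hPm hqP hσ hσc (M := M) (ne_zero_mod hM0 h5) hM U hU

end two

end Pool.Agent.H16.PW
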